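import Pool.Agent.E8helper21.QT.Lim

/-!
The Hecke character of even weight.
-/

set_option autoImplicit false
set_option linter.unusedSectionVars false

open Filter Complex
open scoped Topology PeriodPair
open H667R3 hiding sq
open Pool.Agent.TH936.CM Pool.Agent.W192.HK

namespace Pool.Agent.E8helper21.QT

open Pool.Agent.Y699
open H385 (ZI RQ im1 nrm)
open Pool.Agent.H304R3.HK (tc HC LH bH TH FF Th th_psi chi_le)
open Pool.Agent.W164.RC (tc_mul tc_star two2 prim_iff_dvd unit_norm unit_cases)
open Pool.Agent.H304R2.EC.A1 (prim prim_mul prim_cancel prim_one prim_norm_odd prim_star eq_one_of_prim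
  norm_def' re_mul' im_mul' eq_of_dvd prim_ne_zero exists_prim)

variable {ι : Type} [DecidableEq ι] {pr : ι → ZI}

theorem XX4_HC2 (hp : PF pr) {V : Finset ι} {e : ι → ℕ} (hW : Wt pr V e % 4 = 2)
    (he : ∀ i ∈ V, e i % 4 ≠ 0) : HC (cnd pr V) (XX4 hp V e) where
  q0 := mul_ne_zero two2_ne (DD_ne hp V)
  per := by
    intro a b hab
    have h1 : two2 ∣ a - b := (dvd_mul_right _ _).trans hab
    have h2 : DD pr V ∣ a - b := (dvd_mul_left _ _).trans hab
    rw [XX4_apply, XX4_apply]
    by_cases ha : ∃ u, Um a u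
    · obtain ⟨u, hu⟩ := ha
      rw [un_eq hu, un_eq (hu.per h1)]
      congr 3
      apply c4_per hp
      rw [← mul_sub]
      exact h2.mul_left _
    · have hb : ¬ ∃ u, Um b u := by
        rintro ⟨u, hu⟩
        exact ha ⟨u, hu.per (by rw [← neg_sub]; exact (dvd_neg).2 h1)⟩
      have e : ∀ c : ZI, (¬ ∃ u, Um c u) → un c = 0 := by
        intro c hc
        unfold un
        rw [dif_neg hc]
      rw [e a ha, e b hb, tc_zero, zero_mul, zero_mul]
  supp := by
    intro a
    rw [cop_cnd hp V, XX4_apply]
    constructor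
    · intro h
      have h1 : a.norm % 2 = 1 := by
        by_contra hc
        apply h
        rw [un_even hc, tc_zero, zero_mul]
      refine ⟨h1, fun i hi hd => h ?_⟩
      rw [c4_zero e hi (hd.mul_left _), tc_zero, map_zero, mul_zero]
    · rintro ⟨h1, h2⟩
      obtain ⟨u, hu⟩ := exists_Um h1
      rw [un_eq hu]
      have hn := c4_norm hp V e (a := u * a)
        (fun i hi h => h2 i hi ((qr_unit_mul (hp.pp i) hu.1 a).1 h))
      intro h0
      have h3 := congrArg norm h0
      rw [norm_mul, unit_tc hu.1, RCLike.norm_conj, unit_tc hn, norm_zero] at h3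
      norm_num at h3
  nrm := by
    intro a ha
    obtain ⟨h1, h2⟩ := (cop_cnd hp V a).1 ha
    obtain ⟨u, hu⟩ := exists_Um h1
    have hn := c4_norm hp V e (a := u * a)
      (fun i hi h => h2 i hi ((qr_unit_mul (hp.pp i) hu.1 a).1 h))
    rw [XX4_apply, un_eq hu, norm_mul, unit_tc hu.1, one_mul, RCLike.norm_conj, unit_tc hn]
  unit := by
    have h1 : Um ⟨0, 1⟩ ⟨0, -1⟩ := by
      refine ⟨by decide, ?_⟩
      have : (⟨0, -1⟩ : ZI) * ⟨0, 1⟩ = 1 := by decide
      rw [this]
      exact prim_one
    rw [XX4_apply, un_eq h1]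
    have e : (⟨0, -1⟩ : ZI) * ⟨0, 1⟩ = 1 := by decide
    rw [e, c4_one hp, tc_one, map_one, mul_one]
    unfold tc
    simp
  prim := by
    intro d hd hnd
    by_cases hB : ∃ i ∈ V, ¬ pr i ∣ d
    · obtain ⟨i, hi, hid⟩ := hB
      have hDi : DD pr V = pr i * DD pr (V.erase i) := by
        unfold DD
        exact (Finset.mul_prod_erase V pr hi).symm
      set m := two2 * DD pr (V.erase i) with hm
      have hcop : IsCoprime (pr i) m := by
        rw [hm]
        refine IsCoprime.mul_right ?_ ?_
        · exact ((hp.pp i).pr.irreducible.coprime_iff_not_dvd).2 (not_dvd_two2 (hp.pp i))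
        · unfold DD
          rw [IsCoprime.prod_right_iff]
          intro j hj
          exact (hp.pp i).cop (hp.pp j) fun h => (Finset.mem_erase.1 hj).1 (hp.inj h).symm
      have hdm : d ∣ m := by
        have h1 : d ∣ pr i * m := by
          have e : pr i * m = cnd pr V := by
            unfold cnd
            rw [hDi, hm]
            ring
          rw [e]; exact hd
        have h2 : IsCoprime d (pr i) :=
          (((hp.pp i).pr.irreducible.coprime_iff_not_dvd).2 hid).symm
        exact h2.dvd_of_dvd_mul_left h1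
      -- an element with symbol of exact order
      obtain ⟨b, hb⟩ : ∃ b, ¬ pr i ∣ b ∧ q4 (pr i) b ^ e i ≠ 1 := by
        obtain ⟨b, hb⟩ := exists_nonres (hp.pp i)
        have hbn : ¬ pr i ∣ b := by
          intro h
          rw [qr_zero_iff.2 h] at hb
          norm_num at hb
        have h5 := q4_sq (hp.pp i) b
        rw [hb] at h5
        refine ⟨b, hbn, ?_⟩
        have h6 := q4_norm (hp.pp i) hbn
        have h7 : ((-1 : ℤ) : ZI) = -1 := by simp
        rw [h7] at h5
        have h8 := he i hi
        rw [unit_pow_mod h6 (n := e i % 4) (by omega)]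
        have h9 : e i % 4 = 1 ∨ e i % 4 = 2 ∨ e i % 4 = 3 := by omega
        rcases h9 with h9 | h9 | h9 <;> rw [h9]
        · intro h10
          rw [pow_one] at h10
          rw [h10] at h5
          exact absurd h5 (by decide)
        · rw [h5]; decide
        · intro h10
          have h11 : q4 (pr i) b = -1 := by
            linear_combination -h10 + q4 (pr i) b * h5
          rw [h11] at h5
          exact absurd h5 (by decide)
      obtain ⟨x, y, hxy⟩ := hcop
      set a : ZI := x * pr i + b * (y * m) with ha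
      have ha1 : m ∣ a - 1 := ⟨b * y - y, by rw [ha]; linear_combination hxy⟩
      have ha2 : pr i ∣ a - b := ⟨x - b * x, by rw [ha]; linear_combination b * hxy⟩
      have hpa : prim a := by
        rw [prim_iff_dvd]
        exact (dvd_mul_right _ _).trans ha1
      have hch : c4 pr V e a = q4 (pr i) b ^ e i := by
        unfold c4
        rw [← Finset.mul_prod_erase V _ hi, fe_per (hp.pp i) _ ha2, Finset.prod_eq_one, mul_one]
        · unfold fe
          rw [if_neg hb.1]
        · intro j hj
          have h3 : pr j ∣ a - 1 := by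
            refine (dvd_DD hj).trans ((dvd_mul_left _ _).trans ha1)
          rw [fe_per (hp.pp j) _ h3, fe_unit (hp.pp j) _ (by decide), one_pow]
      have hnz : ∀ j ∈ V, ¬ pr j ∣ a := by
        intro j hj hd'
        have h5 := c4_zero (pr := pr) e hj hd'
        rw [hch] at h5
        have h6 := q4_norm (hp.pp i) hb.1
        have h7 : q4 (pr i) b = 0 := by
          by_contra h8
          exact (pow_ne_zero _ h8) h5
        rw [h7] at h6
        exact absurd h6 (by decide)
      refine ⟨a, ?_, hdm.trans ha1, ?_⟩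
      · rw [cop_cnd hp V]
        exact ⟨prim_norm_odd hpa, hnz⟩
      · rw [XX4_prim hp V e hpa, hch]
        intro h5
        apply hb.2
        apply tc_inj
        rw [tc_one]
        have := congrArg (starRingEnd ℂ) h5
        rwa [Complex.conj_conj, map_one] at this
    · push Not at hB
      have hD1 : DD pr V ∣ d := by
        unfold DD
        refine Finset.prod_dvd_of_coprime ?_ hB
        intro i _ j _ hij
        exact (hp.pp i).cop (hp.pp j) fun h => hij (hp.inj h)
      obtain ⟨f, hf⟩ := hD1
      have he2 : f ∣ two2 := by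
        unfold cnd at hd
        rw [hf, mul_comm two2] at hd
        exact (mul_dvd_mul_iff_left (DD_ne hp V)).1 hd
      have he3 : ¬ two2 ∣ f := by
        intro h
        apply hnd
        unfold cnd
        rw [hf, mul_comm two2]
        exact mul_dvd_mul_left _ h
      have he4 : f ∣ 2 := by
        rw [two2_eq] at he2
        have hu : IsUnit (⟨0, -1⟩ : ZI) := IsUnit.of_mul_eq_one ⟨0, 1⟩ (by decide)
        have he5 : f ∣ pi1 ^ 3 := (hu.dvd_mul_right).1 he2
        obtain ⟨k, hk, hk2⟩ := (dvd_prime_pow pi1_prime 3).1 he5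
        have hk3 : k ≠ 3 := by
          rintro rfl
          apply he3
          rw [two2_eq]
          exact (hu.mul_right_dvd).2 hk2.symm.dvd
        have hk4 : pi1 ^ k ∣ pi1 ^ 2 := pow_dvd_pow _ (by omega)
        have h2 : pi1 ^ 2 ∣ (2 : ZI) := ⟨⟨0, -1⟩, by decide⟩
        exact hk2.dvd.trans (hk4.trans h2)
      have hDp := DD_prim hp V
      set a : ZI := 1 + 2 * DD pr V with ha
      have hUm : Um a (-1) := by
        refine ⟨by decide, ?_⟩
        obtain ⟨h1, h2⟩ := hDp
        unfold prim
        rw [ha]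
        simp only [neg_mul, one_mul, Zsqrtd.im_neg, Zsqrtd.re_neg, Zsqrtd.im_add, Zsqrtd.re_add,
          Zsqrtd.im_one, Zsqrtd.re_one, re_mul', im_mul']
        have e1 : (2 : ZI).re = 2 := rfl
        have e2 : (2 : ZI).im = 0 := rfl
        rw [e1, e2]
        omega
      have hX : XX4 hp V e a = -1 := by
        rw [XX4_apply, un_eq hUm]
        have h3 : c4 pr V e (-1 * a) = 1 := by
          rw [neg_one_mul, c4_neg2 hp hW, ← c4_one hp V e]
          apply c4_per hp
          rw [ha]
          exact ⟨2, by ring⟩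
        rw [h3, tc_neg, tc_one]
        simp
      refine ⟨a, ?_, ?_, ?_⟩
      · rw [cop_cnd hp V]
        refine ⟨hUm.odd, fun j hj hd' => ?_⟩
        have h4 : pr j ∣ 2 * DD pr V := (dvd_DD hj).mul_left _
        have h5 := dvd_sub hd' h4
        rw [ha, add_sub_cancel_right] at h5
        exact (hp.pp j).pr.not_isUnit (isUnit_of_dvd_one h5)
      · obtain ⟨g, hg⟩ := he4
        rw [hf]
        exact ⟨g, by rw [ha]; linear_combination (DD pr V) * hg⟩
      · rw [hX]
        norm_num

theorem sum_XX4' (hp : PF pr) {V : Finset ι} {e : ι → ℕ} (hW : Wt pr V e % 4 = 2)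
    (he : ∀ i ∈ V, e i % 4 ≠ 0) {δ : ℝ} (hδ : 0 < δ) :
    ∑' a : ZI, XX4 hp V e a * (starRingEnd ℂ) (fd δ (tc a)) =
      4 * (starRingEnd ℂ) (RS (cc4 pr V e) δ) := by
  classical
  obtain ⟨L, Ω, hGL⟩ := exists_lat
  have H := XX4_HC2 hp hW he
  have hs : Summable (fun a : ZI => XX4 hp V e a * (starRingEnd ℂ) (fd δ (tc a))) := by
    refine Summable.of_norm_bounded (summ_tc hGL.lat hδ).norm fun a => ?_
    rw [norm_mul, RCLike.norm_conj]
    exact mul_le_of_le_one_left (norm_nonneg _) (chi_le _ _ H a)
  rw [sum_units hs]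
  · congr 1
    unfold RS
    rw [Complex.conj_tsum]
    refine tsum_congr fun a => ?_
    unfold cc4
    by_cases ha : prim a
    · rw [if_pos ha, if_pos ha, XX4_prim hp V e ha, map_mul]
    · rw [if_neg ha, if_neg ha, zero_mul, map_zero]
  · intro a
    have h1 : XX4 hp V e im1 = -I := H.unit
    rw [map_mul, h1, tc_mul, tc_im1, fd_mul]
    have h2 : Complex.normSq I = 1 := by simp
    rw [h2, mul_one, map_mul, map_inv₀, Complex.conj_I]
    have h3 : (-I : ℂ)⁻¹ = I := by
      rw [inv_neg, Complex.inv_I, neg_neg]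
    rw [h3]
    linear_combination (-(XX4 hp V e a * (starRingEnd ℂ) (fd δ (tc a)))) * I_sq
  · intro a ha
    rw [XX4_apply, un_even ha, tc_zero]
    simp

/-- the central value is the conjugate of the limit -/
theorem LH_eq4' (hp : PF pr) {V : Finset ι} {e : ι → ℕ} (hW : Wt pr V e % 4 = 2)
    (he : ∀ i ∈ V, e i % 4 ≠ 0) {l : ℂ} (hl : Tendsto (RS (cc4 pr V e)) (𝓝[>] 0) (𝓝 l)) :
    LH (XX4 hp V e) (1 / 2) = (starRingEnd ℂ) l := by
  have h1 := center (XX4_HC2 hp hW he)
  have h2 : Tendsto (fun δ : ℝ => 4 * (starRingEnd ℂ) (RS (cc4 pr V e) (Real.pi * δ))) (𝓝[>] 0)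
      (𝓝 (4 * (starRingEnd ℂ) l)) := by
    have h3 := tendsto_scale hl Real.pi_pos
    have h4 := (Complex.continuous_conj.tendsto l).comp h3
    have h5 := h4.const_mul 4
    refine h5.congr fun δ => ?_
    simp only [Function.comp_apply]
    rw [mul_comm δ]
  have h3 := tendsto_nhds_unique h1 (h2.congr' (by
    filter_upwards [self_mem_nhdsWithin] with δ (hδ : 0 < δ)
    exact (sum_XX4' hp hW he (by positivity)).symm))
  exact mul_left_cancel₀ (by norm_num) h3

/-- the central value -/
theorem LH_val (hp : PF pr) {V : Finset ι} (hV : V.Nonempty) {e : ι → ℕ}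
    (hW : Wt pr V e % 4 = 2) (he : ∀ i ∈ V, e i % 4 ≠ 0) {L : PeriodPair} {Ω : ℂ} (h : GLat L Ω)
    [Fintype (RQ (DD pr V))] :
    (starRingEnd ℂ) (LH (XX4 hp V e) (1 / 2)) =
      kap L Ω / tc (DD pr V) * SF (gh L) Ω pr V e := by
  rw [LH_eq4' hp hW he (lim_cc4' h hp hV hW), Complex.conj_conj]

end Pool.Agent.E8helper21.QT
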