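import Pool.Agent.E8helper21.QT.Fam
import Pool.Agent.Y699.Dsc

/-!
The combinatorial factor and the Laplacian of the graph of the prime factors.
-/

set_option autoImplicit false
set_option linter.unusedSectionVars false

namespace Pool.Agent.E8helper21.QT

open Pool.Agent.Y699
open H385 (ZI RQ im1 nrm)
open Pool.Agent.W164.RC (tc_mul tc_star two2 prim_iff_dvd unit_norm unit_cases Ip Ip_spec Ip_exists
  Ip_one Ip_three dg)
open Pool.Agent.H304R2.EC.A1 (prim prim_mul prim_cancel prim_one prim_norm_odd prim_star eq_one_of_prim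
  norm_def' re_mul' im_mul' eq_of_dvd prim_ne_zero exists_prim)

variable {P : Finset ℕ}

open Classical in
/-- `1` if `m` is not a square modulo `p` -/
noncomputable def ns (m p : ℕ) : ZMod 2 := if IsSquare (m : ZMod p) then 0 else 1

/-- the kernel of the Laplacian is trivial -/
def Kt (P : Finset ℕ) : Prop := ∀ y : {p // p ∈ P} → ZMod 2,
  (∀ q : {p // p ∈ P}, ∑ p : {p // p ∈ P}, (if p = q then 0 else ns p q) * (y p + y q) = 0) →
    ∀ p q, y p = y q

lemma qr_star' {π : ZI} (h : PP π) (a : ZI) : qr (star π) (star a) = qr π a := by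
  have h1 := q4_sq h a
  have h2 := q4_sq h.star (star a)
  rw [q4_star h, ← star_pow, h1, star_intCast] at h2
  have h3 : ((qr π a : ℤ) : ZI) = ((qr (star π) (star a) : ℤ) : ZI) := h2
  exact (Int.cast_injective h3).symm

lemma em_star {p q : {p // p ∈ P}} (hP : Cls P) :
    em (prP P) (p, true) (q, true) = em (prP P) (p, false) (q, false) ∧
    em (prP P) (p, true) (q, false) = em (prP P) (p, false) (q, true) := by
  have hq := gp_pp hP q
  have h1 := qr_star' hq (gp p)
  have h2 := qr_star' hq (star (gp p))
  rw [star_star] at h2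
  unfold Pool.Agent.Y699.em prP
  simp only [if_true, if_false, Bool.false_eq_true]
  rw [h1, h2]
  exact ⟨rfl, rfl⟩

lemma gp_norm (hP : Cls P) (p : {p // p ∈ P}) : (gp p).norm = (p : ℕ) := by
  rw [← nrm_cast, (gp_spec (hP p p.2).1 (hP p p.2).2).2.2.2.1]

lemma gp_dvd (hP : Cls P) {p q : {p // p ∈ P}} (h : p ≠ q) : ¬ gp q ∣ gp p ∧ ¬ gp q ∣ star (gp p) := by
  constructor
  · have := not_dvd_of_ne (pf hP) (i := (q, false)) (j := (p, false)) (by
      intro h1; exact h (Prod.mk.inj h1).1.symm)
    unfold prP at this
    simpa using this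
  · have := not_dvd_of_ne (pf hP) (i := (q, false)) (j := (p, true)) (by
      intro h1; exact h (Prod.mk.inj h1).1.symm)
    unfold prP at this
    simpa using this

lemma em_add (hP : Cls P) {p q : {p // p ∈ P}} (h : p ≠ q) :
    em (prP P) (p, false) (q, false) + em (prP P) (p, true) (q, false) = ns p q := by
  haveI : Fact (q : ℕ).Prime := ⟨(hP q q.2).1⟩
  have hq := gp_pp hP q
  obtain ⟨h1, h2⟩ := gp_dvd hP h
  have h3 := qr_int hq (gp_norm hP q) ((p : ℕ) : ℤ)
  have h4 : gp p * star (gp p) = (((p : ℕ) : ℤ) : ZI) := by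
    rw [(gp_spec (hP p p.2).1 (hP p p.2).2).2.2.1]
    push_cast
    rfl
  rw [← h4, qr_mul hq] at h3
  have hp0 : (((p : ℕ) : ℤ) : ZMod q) ≠ 0 := by
    rw [Ne, ZMod.intCast_zmod_eq_zero_iff_dvd]
    intro h5
    have h6 : (q : ℕ) ∣ (p : ℕ) := by exact_mod_cast h5
    exact h (Subtype.ext ((Nat.prime_dvd_prime_iff_eq (hP q q.2).1 (hP p p.2).1).1 h6).symm)
  unfold Pool.Agent.Y699.em prP ns
  simp only [if_true, if_false, Bool.false_eq_true]
  by_cases hs : IsSquare ((p : ℕ) : ZMod q)
  · rw [if_pos hs]
    have h5 : legendreSym q ((p : ℕ) : ℤ) = 1 := by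
      rw [legendreSym.eq_one_iff _ hp0]
      exact_mod_cast hs
    rw [h5] at h3
    rcases qr_cases h1 with h6 | h6 <;> rcases qr_cases h2 with h7 | h7 <;> rw [h6, h7] at h3 ⊢ <;>
      first
      | (exfalso; revert h3; norm_num; done)
      | decide
  · rw [if_neg hs]
    have h5 : legendreSym q ((p : ℕ) : ℤ) = -1 := by
      rw [legendreSym.eq_neg_one_iff]
      exact_mod_cast hs
    rw [h5] at h3
    rcases qr_cases h1 with h6 | h6 <;> rcases qr_cases h2 with h7 | h7 <;> rw [h6, h7] at h3 ⊢ <;>
      first
      | (exfalso; revert h3; norm_num; done)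
      | decide

lemma wt_prP (hP : Cls P) (i : Ix P) : wt (prP P) i = if (i.1 : ℕ) % 8 = 5 then 1 else 0 := by
  unfold wt
  have h1 : (prP P i).norm = ((i.1 : ℕ) : ℤ) := by rw [← nrm_cast, prP_nrm hP]
  rw [h1]
  by_cases h : (i.1 : ℕ) % 8 = 5
  · rw [if_pos h, if_pos (by omega)]
  · rw [if_neg h, if_neg (by omega)]

lemma em_conj (hP : Cls P) (p : {p // p ∈ P}) :
    em (prP P) (p, true) (p, false) = wt (prP P) (p, false) := by
  haveI : Fact (p : ℕ).Prime := ⟨(hP p p.2).1⟩
  have hp := gp_pp hP p
  have h4 := (hP p p.2).2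
  have h1 := qr_deg1 hp (gp_norm hP p) (star (gp p))
  have h2 : legendreSym p ((gp p).re * (star (gp p)).re + (gp p).im * (star (gp p)).im) =
      legendreSym p 2 := by
    have h3 : legendreSym p (2 * (gp p).re ^ 2) = legendreSym p 2 := by
      have h5 : (((gp p).re : ℤ) : ZMod p) ≠ 0 := by
        intro h6
        rw [ZMod.intCast_zmod_eq_zero_iff_dvd] at h6
        have h7 : ¬ gp p ∣ star (gp p) := by
          have := not_dvd_of_ne (pf hP) (i := (p, false)) (j := (p, true)) (by simp)
          unfold prP at this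
          simpa using this
        apply h7
        have h8 : gp p + star (gp p) = ((2 * (gp p).re : ℤ) : ZI) := by
          ext
          · simp
            ring
          · simp
        have h9 : gp p ∣ ((2 * (gp p).re : ℤ) : ZI) :=
          dvd_cast (deg1_dvd (gp_norm hP p)) (h6.mul_left 2)
        rw [← h8] at h9
        exact (dvd_add_right dvd_rfl).1 h9
      rw [legendreSym.mul, pow_two, legendreSym.mul]
      have := legendreSym.sq_one p h5
      rw [sq] at this
      rw [this, mul_one]
    rw [← h3, legendreSym, legendreSym]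
    congr 1
    have h5 := gp_norm hP p
    rw [norm_def'] at h5
    have h6 := congrArg (Int.cast : ℤ → ZMod p) h5
    push_cast at h6
    rw [ZMod.natCast_self] at h6
    simp only [Zsqrtd.re_star, Zsqrtd.im_star]
    push_cast
    linear_combination (-1 : ZMod p) * h6
  rw [h2] at h1
  rw [wt_prP hP]
  unfold Pool.Agent.Y699.em prP
  simp only [if_true, if_false, Bool.false_eq_true]
  rw [h1]
  have hp2 : (p : ℕ) ≠ 2 := by omega
  have h20 : ((2 : ℤ) : ZMod p) ≠ 0 := by
    rw [Ne, ZMod.intCast_zmod_eq_zero_iff_dvd]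
    intro h6
    have h7 : (p : ℕ) ∣ 2 := by exact_mod_cast h6
    exact hp2 ((Nat.prime_dvd_prime_iff_eq (hP p p.2).1 Nat.prime_two).1 h7)
  by_cases h8 : (p : ℕ) % 8 = 5
  · rw [if_pos h8, if_pos]
    rw [legendreSym.eq_neg_one_iff]
    intro h9
    have h10 : IsSquare (2 : ZMod p) := by exact_mod_cast h9
    rw [ZMod.exists_sq_eq_two_iff hp2] at h10
    omega
  · rw [if_neg h8, if_neg]
    have h11 : legendreSym p 2 = 1 := by
      rw [legendreSym.eq_one_iff _ h20]
      have h10 : IsSquare (2 : ZMod p) := by
        rw [ZMod.exists_sq_eq_two_iff hp2]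
        omega
      exact_mod_cast h10
    rw [h11]
    norm_num

lemma ns_symm (hP : Cls P) {p q : {p // p ∈ P}} (h : p ≠ q) : ns p q = ns q p := by
  rw [← em_add hP h, ← em_add hP h.symm, em_symm (pf hP) (q, false) (p, false),
    em_symm (pf hP) (q, true) (p, false), (em_star hP).2]

/-- the sum of the Laplacian -/
lemma lap_total (hP : Cls P) (y : {p // p ∈ P} → ZMod 2) :
    ∑ q : {p // p ∈ P}, ∑ p : {p // p ∈ P}, (if p = q then 0 else ns p q) * (y p + y q) = 0 := by
  have h2 : ∑ q : {p // p ∈ P}, ∑ p : {p // p ∈ P}, (if p = q then 0 else ns p q) * (y p + y q) =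
      ∑ q : {p // p ∈ P}, ∑ p : {p // p ∈ P}, (if p = q then 0 else ns p q) * y p +
      ∑ q : {p // p ∈ P}, ∑ p : {p // p ∈ P}, (if p = q then 0 else ns p q) * y q := by
    rw [← Finset.sum_add_distrib]
    refine Finset.sum_congr rfl fun v _ => ?_
    rw [← Finset.sum_add_distrib]
    refine Finset.sum_congr rfl fun i _ => by ring
  rw [h2, Finset.sum_comm]
  have h3 : ∀ p q : {p // p ∈ P}, (if p = q then (0 : ZMod 2) else ns p q) =
      (if q = p then 0 else ns q p) := by
    intro p q
    by_cases h : p = q
    · rw [if_pos h, if_pos h.symm]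
    · rw [if_neg h, if_neg (fun h' => h h'.symm), ns_symm hP h]
  have h4 : ∑ p : {p // p ∈ P}, ∑ q : {p // p ∈ P}, (if p = q then (0 : ZMod 2) else ns p q) * y p =
      ∑ q : {p // p ∈ P}, ∑ p : {p // p ∈ P}, (if p = q then 0 else ns p q) * y q := by
    refine Finset.sum_congr rfl fun p _ => Finset.sum_congr rfl fun q _ => ?_
    rw [h3 p q]
  rw [h4]
  exact CharTwo.add_self_eq_zero _

/-- the row of the big graph -/
lemma row_eq (hP : Cls P) (z : Ix P → ZMod 2) (q : {p // p ∈ P}) :
    ∑ u : Ix P, em (prP P) u (q, false) * (z u + z (q, false)) =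
      ∑ p : {p // p ∈ P}, (if p = q then 0 else
        em (prP P) (p, false) (q, false) * (z (p, false) + z (q, false)) +
        em (prP P) (p, true) (q, false) * (z (p, true) + z (q, false))) +
      wt (prP P) (q, false) * (z (q, true) + z (q, false)) := by
  classical
  rw [sum_ix, ← Finset.add_sum_erase Finset.univ _ (Finset.mem_univ q),
    ← Finset.add_sum_erase Finset.univ (fun p : {p // p ∈ P} => (if p = q then 0 else
        em (prP P) (p, false) (q, false) * (z (p, false) + z (q, false)) +
        em (prP P) (p, true) (q, false) * (z (p, true) + z (q, false)))) (Finset.mem_univ q)]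
  rw [if_pos rfl, em_conj hP, em_self (pf hP)]
  have h1 : ∑ p ∈ Finset.univ.erase q, (em (prP P) (p, true) (q, false) *
      (z (p, true) + z (q, false)) + em (prP P) (p, false) (q, false) *
        (z (p, false) + z (q, false))) =
      ∑ p ∈ Finset.univ.erase q, (if p = q then 0 else
        em (prP P) (p, false) (q, false) * (z (p, false) + z (q, false)) +
        em (prP P) (p, true) (q, false) * (z (p, true) + z (q, false))) := by
    refine Finset.sum_congr rfl fun p hp => ?_
    rw [if_neg (Finset.mem_erase.1 hp).1]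
    ring
  rw [h1]
  ring

lemma row_eq' (hP : Cls P) (z : Ix P → ZMod 2) (q : {p // p ∈ P}) :
    ∑ u : Ix P, em (prP P) u (q, true) * (z u + z (q, true)) =
      ∑ p : {p // p ∈ P}, (if p = q then 0 else
        em (prP P) (p, true) (q, false) * (z (p, false) + z (q, true)) +
        em (prP P) (p, false) (q, false) * (z (p, true) + z (q, true))) +
      wt (prP P) (q, false) * (z (q, false) + z (q, true)) := by
  classical
  rw [sum_ix, ← Finset.add_sum_erase Finset.univ _ (Finset.mem_univ q),
    ← Finset.add_sum_erase Finset.univ (fun p : {p // p ∈ P} => (if p = q then 0 else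
        em (prP P) (p, true) (q, false) * (z (p, false) + z (q, true)) +
        em (prP P) (p, false) (q, false) * (z (p, true) + z (q, true)))) (Finset.mem_univ q)]
  rw [if_pos rfl, em_self (pf hP), ← (em_star hP (p := q) (q := q)).2, em_conj hP]
  have h1 : ∑ p ∈ Finset.univ.erase q, (em (prP P) (p, true) (q, true) *
      (z (p, true) + z (q, true)) + em (prP P) (p, false) (q, true) *
        (z (p, false) + z (q, true))) =
      ∑ p ∈ Finset.univ.erase q, (if p = q then 0 else
        em (prP P) (p, true) (q, false) * (z (p, false) + z (q, true)) +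
        em (prP P) (p, false) (q, false) * (z (p, true) + z (q, true))) := by
    refine Finset.sum_congr rfl fun p hp => ?_
    rw [if_neg (Finset.mem_erase.1 hp).1, (em_star hP).1, ← (em_star hP (p := p) (q := q)).2]
    ring
  rw [h1]
  ring

lemma pair_mem (p : {p // p ∈ P}) (v : Ix P) :
    v ∈ (Finset.univ : Finset (Ix P)) \ {(p, false), (p, true)} ↔ v.1 ≠ p := by
  obtain ⟨q, b⟩ := v
  rw [Finset.mem_sdiff, Finset.mem_insert, Finset.mem_singleton]
  simp only [Finset.mem_univ, true_and, Prod.mk.injEq]
  cases b <;> simp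

/-- the value for a pair of conjugates -/
theorem PS_iff (hP : Cls P) (p : {p // p ∈ P}) :
    PS (em (prP P)) {(p, false), (p, true)} Finset.univ = 1 ↔ Kt P := by
  have hsub : ({(p, false), (p, true)} : Finset (Ix P)) ⊆ Finset.univ := Finset.subset_univ _
  constructor
  · intro h1 y hy
    by_contra hc
    push Not at hc
    obtain ⟨a, b, hab⟩ := hc
    obtain ⟨c, hc⟩ : ∃ c : {p // p ∈ P}, y c ≠ y p := by
      by_cases h2 : y a = y p
      · exact ⟨b, fun h3 => hab (h2.trans h3.symm)⟩
      · exact ⟨a, h2⟩
    have h2 := PS_zero (em (prP P)) (em_self (pf hP)) hsub (z := fun v => y v.1 + y p)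
      (fun v hv => by
        rw [Finset.mem_insert, Finset.mem_singleton] at hv
        have : v.1 = p := by rcases hv with h | h <;> rw [h]
        show y v.1 + y p = 0
        rw [this]
        exact CharTwo.add_self_eq_zero _)
      (fun v hv => by
        rw [pair_mem] at hv
        obtain ⟨q, b⟩ := v
        have e0 : ∀ t : ZMod 2, t + t = 0 := fun t => CharTwo.add_self_eq_zero t
        have key : ∑ r : {p // p ∈ P}, (if r = q then 0 else
            (em (prP P) (r, false) (q, false) + em (prP P) (r, true) (q, false)) *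
              (y r + y q)) = 0 := by
          refine Eq.trans ?_ (hy q)
          refine Finset.sum_congr rfl fun r _ => ?_
          by_cases hr : r = q
          · rw [if_pos hr, if_pos hr, zero_mul]
          · rw [if_neg hr, if_neg hr, em_add hP hr]
        cases b
        · rw [row_eq hP]
          refine Eq.trans ?_ key
          have e1 : y q + y p + (y q + y p) = 0 := e0 _
          simp only [e1, mul_zero, add_zero]
          refine Finset.sum_congr rfl fun r _ => ?_
          split_ifs
          · rfl
          · have := e0 (y p)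
            linear_combination (em (prP P) (r, false) (q, false) +
              em (prP P) (r, true) (q, false)) * this
        · rw [row_eq' hP]
          refine Eq.trans ?_ key
          have e1 : y q + y p + (y q + y p) = 0 := e0 _
          simp only [e1, mul_zero, add_zero]
          refine Finset.sum_congr rfl fun r _ => ?_
          split_ifs
          · rfl
          · have := e0 (y p)
            linear_combination (em (prP P) (r, false) (q, false) +
              em (prP P) (r, true) (q, false)) * this)
      (Finset.mem_univ (c, false)) (by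
        show y c + y p ≠ 0
        intro h3
        exact hc (CharTwo.add_eq_zero.1 h3))
    rw [h2] at h1
    exact absurd h1 (by decide)
  · intro hK
    refine PS_one (em (prP P)) (em_self (pf hP)) hsub fun z hz0 hz => ?_
    have z1 : z (p, false) = 0 := hz0 _ (by simp)
    have z2 : z (p, true) = 0 := hz0 _ (by simp)
    have e0 : ∀ t : ZMod 2, t + t = 0 := fun t => CharTwo.add_self_eq_zero t
    -- a vector that satisfies all the rows but one
    have fin : ∀ y : {p // p ∈ P} → ZMod 2, y p = 0 → (∀ q : {p // p ∈ P}, q ≠ p →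
        ∑ r : {p // p ∈ P}, (if r = q then 0 else ns r q) * (y r + y q) = 0) → ∀ q, y q = 0 := by
      intro y hyp hy q
      have h1 := lap_total hP y
      rw [← Finset.add_sum_erase Finset.univ _ (Finset.mem_univ p)] at h1
      have h2 : ∑ q ∈ Finset.univ.erase p, ∑ r : {p // p ∈ P},
          (if r = q then 0 else ns r q) * (y r + y q) = 0 :=
        Finset.sum_eq_zero fun q hq => hy q (Finset.mem_erase.1 hq).1
      rw [h2, add_zero] at h1
      rw [← hyp]
      refine hK y (fun q' => ?_) q p
      by_cases h3 : q' = p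
      · rw [h3]; exact h1
      · exact hy q' h3
    have hx : ∀ q, z (q, false) + z (q, true) = 0 := by
      refine fin (fun q => z (q, false) + z (q, true)) (by rw [z1, z2, add_zero]) fun q hq => ?_
      have h1 := hz (q, false) ((pair_mem p _).2 hq)
      have h2 := hz (q, true) ((pair_mem p _).2 hq)
      rw [row_eq hP] at h1
      rw [row_eq' hP] at h2
      have h3 := congrArg₂ (· + ·) h1 h2
      simp only [add_zero] at h3
      refine Eq.trans ?_ h3
      have h4 : wt (prP P) (q, false) * (z (q, true) + z (q, false)) +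
          wt (prP P) (q, false) * (z (q, false) + z (q, true)) = 0 := by
        rw [add_comm (z (q, true))]
        exact e0 _
      have h5 : ∀ A B C D : ZMod 2, (A + B) + (C + D) = (A + C) + (B + D) := fun A B C D => by ring
      rw [h5, h4, add_zero, ← Finset.sum_add_distrib]
      refine Finset.sum_congr rfl fun r _ => ?_
      by_cases hr : r = q
      · rw [if_pos hr, if_pos hr, if_pos hr]
        ring
      · rw [if_neg hr, if_neg hr, if_neg hr, ← em_add hP hr]
        ring
    have hxe : ∀ q, z (q, true) = z (q, false) := fun q => (CharTwo.add_eq_zero.1 (hx q)).symm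
    have hy : ∀ q, z (q, false) = 0 := by
      refine fin (fun q => z (q, false)) z1 fun q hq => ?_
      have h1 := hz (q, false) ((pair_mem p _).2 hq)
      rw [row_eq hP, hxe, e0, mul_zero, add_zero] at h1
      refine Eq.trans ?_ h1
      refine Finset.sum_congr rfl fun r _ => ?_
      by_cases hr : r = q
      · rw [if_pos hr, if_pos hr, zero_mul]
      · rw [if_neg hr, if_neg hr, ← em_add hP hr, hxe]
        ring
    rintro ⟨q, b⟩ _
    cases b
    · exact hy q
    · rw [hxe]; exact hy q

/-- **the combinatorial factor** -/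
theorem FF_iff (hP : Cls P) (h : nD P % 16 = 13) :
    FF (wt (prP P)) (em (prP P)) Finset.univ = 1 ↔ Kt P := by
  classical
  obtain ⟨r, hr⟩ := exists_r hP h
  have hw0 : ∑ b : Ix P, wt (prP P) b = 0 := by
    rw [sum_ix]
    refine Finset.sum_eq_zero fun p _ => ?_
    rw [wt_prP hP, wt_prP hP]
    exact CharTwo.add_self_eq_zero _
  have h1 := FF_even (wt (prP P)) (em (prP P)) (em_self (pf hP)) (em_symm (pf hP))
    (O := Finset.univ) (Finset.mem_univ r) hw0
  have h2 : ∑ a : Ix P, wt (prP P) a * QT.hr (em (prP P)) r Finset.univ a =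
      ∑ p : {p // p ∈ P}, wt (prP P) (p, false) *
        PS (em (prP P)) {(p, false), (p, true)} Finset.univ := by
    rw [sum_ix]
    refine Finset.sum_congr rfl fun p _ => ?_
    have h3 : wt (prP P) (p, true) = wt (prP P) (p, false) := by rw [wt_prP hP, wt_prP hP]
    rw [h3, PS_hr (em (prP P)) (em_self (pf hP)) (em_symm (pf hP)) (Finset.mem_univ r)
      (Finset.mem_univ _) (Finset.mem_univ _) (by simp)]
    unfold QT.hr
    ring
  have h1' : FF (wt (prP P)) (em (prP P)) Finset.univ = ∑ p : {p // p ∈ P},
      wt (prP P) (p, false) * PS (em (prP P)) {(p, false), (p, true)} Finset.univ := h1.trans h2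
  have h5 : ∑ p : {p // p ∈ P}, wt (prP P) (p, false) = 1 := by
    have h6 : ∀ p : {p // p ∈ P}, wt (prP P) (p, false) = (((p : ℕ) / 4 : ℕ) : ZMod 2) := by
      intro p
      rw [wt_wq (pf hP)]
      unfold wq
      rw [prP_nrm hP]
    rw [Finset.sum_congr rfl fun p _ => h6 p, ← Nat.cast_sum]
    have h7 : ∑ p : {p // p ∈ P}, (p : ℕ) / 4 = sq4 P := by
      unfold sq4
      rw [← Finset.sum_coe_sort P (fun p => p / 4)]
    rw [h7]
    have h8 := sq4_mod hP h
    have h9 : ((sq4 P : ℕ) : ZMod 2) = ((1 : ℕ) : ZMod 2) := by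
      rw [ZMod.natCast_eq_natCast_iff]
      show sq4 P % 2 = 1 % 2
      omega
    rw [h9]
    norm_num
  rw [h1']
  by_cases hK : Kt P
  · simp only [hK, iff_true]
    rw [← h5]
    refine Finset.sum_congr rfl fun p _ => ?_
    rw [(PS_iff hP p).2 hK, mul_one]
  · simp only [hK, iff_false]
    have h8 : ∀ p : {p // p ∈ P}, PS (em (prP P)) {(p, false), (p, true)} Finset.univ = 0 := by
      intro p
      have h9 := mt (PS_iff hP p).1 hK
      have : ∀ a : ZMod 2, a ≠ 1 → a = 0 := by decide
      exact this _ h9
    rw [Finset.sum_eq_zero fun p _ => by rw [h8 p, mul_zero]]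
    decide

end Pool.Agent.E8helper21.QT
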