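import Pool.Agent.E8helper21.QT.Gr

/-!
The kernel of the Laplacian in terms of subsets.
-/

set_option autoImplicit false
set_option linter.unusedSectionVars false

namespace Pool.Agent.E8helper21.QT

variable {P : Finset ℕ}

lemma sq_mul_iff {p : ℕ} [Fact p.Prime] {a b : ZMod p} (ha : a ≠ 0) (hb : b ≠ 0) :
    IsSquare (a * b) ↔ (IsSquare a ↔ IsSquare b) := by
  rw [← quadraticChar_one_iff_isSquare ha, ← quadraticChar_one_iff_isSquare hb,
    ← quadraticChar_one_iff_isSquare (mul_ne_zero ha hb), map_mul]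
  rcases quadraticChar_dichotomy ha with h | h <;> rcases quadraticChar_dichotomy hb with h' | h' <;>
    rw [h, h'] <;> norm_num

lemma prod_ne {p : ℕ} (hp : p.Prime) {J : Finset ℕ} (hJ : ∀ q ∈ J, q.Prime) (h : p ∉ J) :
    ((∏ q ∈ J, q : ℕ) : ZMod p) ≠ 0 := by
  rw [Ne, ZMod.natCast_eq_zero_iff, hp.prime.dvd_finsetProd_iff]
  rintro ⟨q, hq, h1⟩
  exact h (((Nat.prime_dvd_prime_iff_eq hp (hJ q hq)).1 h1) ▸ hq)

lemma sq_prod (hP : Cls P) {q : ℕ} (hq : q ∈ P) : ∀ J : Finset ℕ, J ⊆ P → q ∉ J →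
    (IsSquare (((∏ p ∈ J, p : ℕ)) : ZMod q) ↔ ∑ p ∈ J, ns p q = 0) := by
  classical
  haveI : Fact q.Prime := ⟨(hP q hq).1⟩
  intro J
  induction J using Finset.induction_on with
  | empty =>
    intro _ _
    simp
  | insert a J ha ih =>
    intro hJ hqJ
    have h1 := ih (fun x hx => hJ (Finset.mem_insert_of_mem hx))
      (fun h => hqJ (Finset.mem_insert_of_mem h))
    have ha0 : ((a : ℕ) : ZMod q) ≠ 0 := by
      have h2 := prod_ne (hP q hq).1 (J := {a}) (fun x hx => by
        rw [Finset.mem_singleton] at hx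
        rw [hx]
        exact (hP a (hJ (Finset.mem_insert_self _ _))).1) (by
        rw [Finset.mem_singleton]
        rintro rfl
        exact hqJ (Finset.mem_insert_self _ _))
      simpa using h2
    have hJ0 : ((∏ q ∈ J, q : ℕ) : ZMod q) ≠ 0 := prod_ne (hP q hq).1
      (fun x hx => (hP x (hJ (Finset.mem_insert_of_mem hx))).1)
      (fun h => hqJ (Finset.mem_insert_of_mem h))
    rw [Finset.prod_insert ha, Finset.sum_insert ha, Nat.cast_mul, sq_mul_iff ha0 hJ0, h1]
    have h3 : ns a q = if IsSquare ((a : ℕ) : ZMod q) then 0 else 1 := by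
      unfold ns
      congr
    rw [h3]
    generalize (∑ p ∈ J, ns p q) = s
    by_cases h4 : IsSquare ((a : ℕ) : ZMod q)
    · simp only [h4, if_true, true_iff, zero_add]
    · simp only [h4, if_false, false_iff]
      revert s
      decide

lemma row_T (y : ℕ → ZMod 2) {q : ℕ} (hq : q ∈ P) :
    ∑ p ∈ P, (if p = q then 0 else ns p q) * (y p + y q) =
      if y q = 1 then ∑ p ∈ P \ P.filter (fun p => y p = 1), ns p q
      else ∑ p ∈ P.filter (fun p => y p = 1), ns p q := by
  classical
  have hc : ∀ t : ZMod 2, t = 0 ∨ t = 1 := by decide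
  have h11 : (1 : ZMod 2) + 1 = 0 := by decide
  have h10 : (0 : ZMod 2) ≠ 1 := by decide
  split_ifs with h1
  · rw [← Finset.filter_not, Finset.sum_filter]
    refine Finset.sum_congr rfl fun p _ => ?_
    rcases hc (y p) with h2 | h2
    · rw [h2, h1, zero_add, mul_one, if_pos h10, if_neg]
      rintro rfl
      rw [h1] at h2
      exact h10 h2.symm
    · rw [h2, h1, h11, mul_zero, if_neg (by simp)]
  · have h0 : y q = 0 := (hc (y q)).resolve_right h1
    rw [Finset.sum_filter]
    refine Finset.sum_congr rfl fun p _ => ?_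
    rcases hc (y p) with h2 | h2
    · rw [h2, h0, add_zero, mul_zero, if_neg h10]
    · rw [h2, h0, add_zero, mul_one, if_pos rfl, if_neg]
      rintro rfl
      rw [h0] at h2
      exact h10 h2

/-- the kernel of the Laplacian in terms of subsets -/
theorem Kt_iff (hP : Cls P) : Kt P ↔ ∀ T ⊆ P,
    (∀ q ∈ P \ T, IsSquare ((∏ p ∈ T, p : ℕ) : ZMod q)) →
    (∀ q ∈ T, IsSquare ((∏ p ∈ P \ T, p : ℕ) : ZMod q)) → T = ∅ ∨ T = P := by
  classical
  have hc : ∀ t : ZMod 2, t = 0 ∨ t = 1 := by decide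
  have h10 : (0 : ZMod 2) ≠ 1 := by decide
  constructor
  · intro hK T hT h1 h2
    set y : ℕ → ZMod 2 := fun p => if p ∈ T then 1 else 0 with hy
    have hTf : P.filter (fun p => y p = 1) = T := by
      ext p
      rw [Finset.mem_filter]
      constructor
      · rintro ⟨-, h3⟩
        by_contra h4
        rw [hy] at h3
        simp only [if_neg h4] at h3
        exact h10 h3
      · intro h3
        refine ⟨hT h3, ?_⟩
        rw [hy]
        simp only [if_pos h3]
    have h3 := hK (fun p => y p) (fun q => by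
      rw [Finset.sum_congr rfl (g := fun p : {p // p ∈ P} =>
        (fun p : ℕ => (if p = (q : ℕ) then 0 else ns p q) * (y p + y q)) p) (fun p _ => by
          simp only [Subtype.ext_iff])]
      rw [Finset.sum_coe_sort P (fun p : ℕ => (if p = (q : ℕ) then 0 else ns p q) * (y p + y q)),
        row_T y q.2, hTf]
      by_cases hqT : (q : ℕ) ∈ T
      · rw [if_pos (by rw [hy]; simp only [if_pos hqT])]
        exact (sq_prod hP q.2 (P \ T) Finset.sdiff_subset
          (fun h => (Finset.mem_sdiff.1 h).2 hqT)).1 (h2 q hqT)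
      · rw [if_neg (by rw [hy]; simp only [if_neg hqT]; exact h10)]
        exact (sq_prod hP q.2 T hT hqT).1 (h1 q (Finset.mem_sdiff.2 ⟨q.2, hqT⟩)))
    by_cases hne : T = ∅
    · exact Or.inl hne
    · right
      obtain ⟨a, ha⟩ := Finset.nonempty_iff_ne_empty.2 hne
      refine le_antisymm hT fun b hb => ?_
      by_contra hbT
      have h4 := h3 ⟨a, hT ha⟩ ⟨b, hb⟩
      rw [hy] at h4
      simp only [if_pos ha, if_neg hbT] at h4
      exact h10 h4.symm
  · intro H y hyk
    set y' : ℕ → ZMod 2 := fun p => if h : p ∈ P then y ⟨p, h⟩ else 0 with hy'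
    have hyy : ∀ p : {p // p ∈ P}, y' p = y p := by
      intro p
      rw [hy']
      simp only [p.2, dif_pos]
    set T := P.filter (fun p => y' p = 1) with hT
    have hTP : T ⊆ P := Finset.filter_subset _ _
    have hrow : ∀ q ∈ P, (if y' q = 1 then ∑ p ∈ P \ T, ns p q else ∑ p ∈ T, ns p q) = 0 := by
      intro q hq
      rw [hT, ← row_T y' hq]
      refine Eq.trans ?_ (hyk ⟨q, hq⟩)
      rw [← Finset.sum_coe_sort P]
      refine Finset.sum_congr rfl fun p _ => ?_
      rw [hyy p, show y' q = y ⟨q, hq⟩ from hyy ⟨q, hq⟩]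
      simp only [Subtype.ext_iff]
    have hcase := H T hTP (fun q hq => by
        have hq' := Finset.mem_sdiff.1 hq
        have h1 := hrow q hq'.1
        have h2 : ¬ y' q = 1 := fun h => hq'.2 (Finset.mem_filter.2 ⟨hq'.1, h⟩)
        rw [if_neg h2] at h1
        exact (sq_prod hP hq'.1 T hTP hq'.2).2 h1) (fun q hq => by
        have hq' := Finset.mem_filter.1 hq
        have h1 := hrow q hq'.1
        rw [if_pos hq'.2] at h1
        exact (sq_prod hP hq'.1 (P \ T) Finset.sdiff_subset
          (fun h => (Finset.mem_sdiff.1 h).2 hq)).2 h1)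
    rcases hcase with h | h
    · have h0 : ∀ p : {p // p ∈ P}, y p = 0 := by
        intro p
        rw [← hyy p]
        refine (hc _).resolve_right fun h1 => ?_
        have : (p : ℕ) ∈ T := Finset.mem_filter.2 ⟨p.2, h1⟩
        rw [h] at this
        exact absurd this (Finset.notMem_empty _)
      intro p q
      rw [h0, h0]
    · have h0 : ∀ p : {p // p ∈ P}, y p = 1 := by
        intro p
        rw [← hyy p]
        have : (p : ℕ) ∈ T := by rw [h]; exact p.2
        exact (Finset.mem_filter.1 this).2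
      intro p q
      rw [h0, h0]

lemma ns_prod {J : Finset ℕ} (hJ : ∀ p ∈ J, p.Prime) (hne : J.Nonempty) :
    ¬ IsSquare ((((∏ p ∈ J, p : ℕ)) : ℤ) : ℚ) := by
  intro h
  rw [Rat.isSquare_intCast_iff] at h
  obtain ⟨r, hr⟩ := h
  obtain ⟨p, hp⟩ := hne
  have hpp := hJ p hp
  have hpi := Nat.prime_iff_prime_int.1 hpp
  have e1 : ((∏ q ∈ J, q : ℕ) : ℤ) = (p : ℤ) * ((∏ q ∈ J.erase p, q : ℕ) : ℤ) := by
    rw [← Finset.mul_prod_erase J (fun p => p) hp]
    push_cast
    rfl
  have h1 : (p : ℤ) ∣ r := by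
    have : (p : ℤ) ∣ r * r := by rw [← hr, e1]; exact dvd_mul_right _ _
    rcases hpi.dvd_or_dvd this with h | h <;> exact h
  obtain ⟨s, rfl⟩ := h1
  rw [e1] at hr
  have h2 : ((∏ q ∈ J.erase p, q : ℕ) : ℤ) = p * (s * s) := by
    apply mul_left_cancel₀ hpi.ne_zero
    rw [hr]
    ring
  have h3 : p ∣ ∏ q ∈ J.erase p, q := by
    have : (p : ℤ) ∣ ((∏ q ∈ J.erase p, q : ℕ) : ℤ) := ⟨_, h2⟩
    exact_mod_cast this
  have := prod_ne hpp (J := J.erase p) (fun x hx => hJ x (Finset.mem_of_mem_erase hx))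
    (Finset.notMem_erase p J)
  rw [Ne, ZMod.natCast_eq_zero_iff] at this
  exact this h3

end Pool.Agent.E8helper21.QT
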