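import Pool.Agent.E8helper21.QT.Sels
import Pool.Agent.Y700.Sel

/-!
The number of the Selmer cocycles of `y² = x³ - D x`.
-/

set_option autoImplicit false
set_option linter.unusedSectionVars false

namespace Pool.Agent.E8helper21.QT

open WeierstrassCurve
open scoped Classical
open Pool.Agent.W262.SH (QB Pt act IsCoc IsCob LocTriv shaCoc cob Sha)
open Pool.Agent.TH841.SH Pool.Agent.Y668
open Pool.Agent.Y700 (exists_SR)

/-- the number of the Selmer cocycles; the real condition is used for the second class -/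
theorem card_sel' {a b : ℤ} (hb : b ≠ 0) (hab : a ^ 2 - 4 * b ≠ 0) (h2a : 4 * a ^ 2 < 4 * (a ^ 2 - 4 * b))
    {S1 S2 : Set ℤ} (hf1 : S1.Finite) (hf2 : S2.Finite)
    (h1 : ∀ z : ℤ, Squarefree z → (∀ (p : ℕ) [Fact p.Prime], Pool.Agent.Y700.PC a b p z) → z ∈ S1)
    (h2 : ∀ z : ℤ, Squarefree z → 0 < z →
      (∀ (p : ℕ) [Fact p.Prime], Pool.Agent.Y700.PC (-2 * a) (a ^ 2 - 4 * b) p z) → z ∈ S2) :
    Finite (selCoc (Wt (a : ℚ) (b : ℚ))) ∧
      Nat.card (selCoc (Wt (a : ℚ) (b : ℚ))) ≤ S1.ncard * S2.ncard := by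
  have qb : (b : ℚ) ≠ 0 := by exact_mod_cast hb
  have hab' : a ^ 2 - 4 * b ≠ 0 := hab
  have qab : (a : ℚ) ^ 2 - 4 * (b : ℚ) ≠ 0 := by exact_mod_cast hab'
  obtain ⟨e1, e2, hp12, hR, hne⟩ := exists_roots QB (a : ℚ) (b : ℚ)
  obtain ⟨n1, n2, n12⟩ := hne qb qab
  refine card_selCoc hR n1 n2 n12 hf1 hf2 ?_ ?_
  · intro f hf z hz hse
    obtain ⟨s, hs⟩ := IsAlgClosed.exists_pow_nat_eq ((z : ℤ) : QB) (n := 2) (by norm_num)
    apply h1 z hz
    intro p _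
    obtain ⟨x, y, hy, hxy, hsq⟩ := loc_z1 (K := ℚ_[p]) (Ω := AlgebraicClosure ℚ_[p])
      two_ne_zero qb qab f hf.2.1 (hf.2.2.2.1 p) (exists_S p hb hab') z s hs (hse s hs)
    refine ⟨x, y, hy, ?_, hsq⟩
    rw [hxy, map_intCast, map_intCast]
  · intro f hf hX z hz hse
    obtain ⟨s, hs⟩ := IsAlgClosed.exists_pow_nat_eq ((z : ℤ) : QB) (n := 2) (by norm_num)
    have k1 : (-2 : ℚ) * (a : ℚ) = ((-2 * a : ℤ) : ℚ) := by push_cast; ring
    have k2 : (a : ℚ) ^ 2 - 4 * (b : ℚ) = ((a ^ 2 - 4 * b : ℤ) : ℚ) := by push_cast; ring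
    apply h2 z hz
    · obtain ⟨x, y, hy, hxy, r, hr⟩ := loc_z2 (K := ℝ) (Ω := AlgebraicClosure ℝ) two_ne_zero
        qb qab f hf.2.1 hX hf.2.2.2.2 (exists_SR hb hab') z s hs (hse s hs)
      rw [k1, k2, map_intCast, map_intCast] at hxy
      have habR : 4 * (a : ℝ) ^ 2 < 4 * ((a : ℝ) ^ 2 - 4 * b) := by exact_mod_cast h2a
      have hq : 0 < x ^ 2 + (-2 * a) * x + ((a : ℝ) ^ 2 - 4 * b) := by
        nlinarith [sq_nonneg (x - a)]
      have hx : 0 < x := by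
        have h3 : 0 < x * (x ^ 2 + (-2 * a) * x + ((a : ℝ) ^ 2 - 4 * b)) := by
          have h4 : 0 < y ^ 2 := by positivity
          have e : x * (x ^ 2 + (-2 * a) * x + ((a : ℝ) ^ 2 - 4 * b)) = y ^ 2 := by
            rw [hxy]; push_cast; ring
          rw [e]
          exact h4
        exact (pos_iff_pos_of_mul_pos h3).2 hq
      have h5 : 0 ≤ x * (z : ℝ) := by rw [hr]; exact mul_self_nonneg r
      have h6 : (0 : ℝ) ≤ z := by
        by_contra hneg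
        push Not at hneg
        have := mul_neg_of_pos_of_neg hx hneg
        linarith
      have h7 : z ≠ 0 := hz.ne_zero
      have h8 : 0 ≤ z := by exact_mod_cast h6
      omega
    · intro p _
      obtain ⟨x, y, hy, hxy, hsq⟩ := loc_z2 (K := ℚ_[p]) (Ω := AlgebraicClosure ℚ_[p]) two_ne_zero
        qb qab f hf.2.1 hX (hf.2.2.2.1 p) (exists_S p hb hab') z s hs (hse s hs)
      refine ⟨x, y, hy, ?_, hsq⟩
      rw [hxy]
      rw [k1, k2, map_intCast, map_intCast]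

variable {P : Finset ℕ}

/-- the algebraic side -/
theorem alg (hP : Cls P) (hD : nD P % 16 = 13) (hK : Kt P) :
    (∀ x : Sha (Wt ((0 : ℤ) : ℚ) ((-(nD P : ℤ) : ℤ) : ℚ)), x + x = 0 → x = 0) ∧
    Finite (Wt ((0 : ℤ) : ℚ) ((-(nD P : ℤ) : ℤ) : ℚ)).toAffine.Point := by
  have hD0 : 0 < nD P := by omega
  have hb : -(nD P : ℤ) ≠ 0 := by omega
  have hab : (0 : ℤ) ^ 2 - 4 * (-(nD P : ℤ)) ≠ 0 := by
    have : (0 : ℤ) ^ 2 - 4 * (-(nD P : ℤ)) = 4 * nD P := by ring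
    rw [this]
    omega
  have e4 : (0 : ℤ) ^ 2 - 4 * (-(nD P : ℤ)) = 4 * (nD P : ℤ) := by ring
  obtain ⟨hfin, hcard⟩ := card_sel' (a := 0) (b := -(nD P : ℤ)) hb hab (by
      rw [e4]
      have : (0 : ℤ) < nD P := by omega
      linarith) (S1 := {1, -(nD P : ℤ)}) (S2 := {1, (nD P : ℤ)}) (Set.toFinite _) (Set.toFinite _)
    (fun z hz hpc => by
      have := sel1 hP hD hK hz hpc
      simpa using this) (fun z hz hz0 hpc => by
      have := sel2 hP hD hK hz hz0 (fun p _ => by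
        have h5 := hpc p
        rw [e4, mul_zero] at h5
        exact h5)
      simpa using this)
  have hc4 : Nat.card (selCoc (Wt ((0 : ℤ) : ℚ) ((-(nD P : ℤ) : ℤ) : ℚ))) ≤ 4 := by
    refine hcard.trans ?_
    rw [Set.ncard_pair (by omega), Set.ncard_pair (by omega)]
  have hbQ : ((-(nD P : ℤ) : ℤ) : ℚ) ≠ 0 := by exact_mod_cast hb
  have habQ : ((0 : ℤ) : ℚ) ^ 2 - 4 * ((-(nD P : ℤ) : ℤ) : ℚ) ≠ 0 := by
    exact_mod_cast hab
  have hPne : P.Nonempty := by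
    rw [Finset.nonempty_iff_ne_empty]
    rintro rfl
    unfold nD at hD
    simp at hD
  have hDs : ¬ IsSquare (((nD P : ℕ) : ℤ) : ℚ) := ns_prod (fun p hp => (hP p hp).1) hPne
  have hsq : ¬ IsSquare (((0 : ℤ) : ℚ) ^ 2 - 4 * ((-(nD P : ℤ) : ℤ) : ℚ)) := by
    rintro ⟨r, hr⟩
    apply hDs
    refine ⟨r / 2, ?_⟩
    push_cast at hr ⊢
    linear_combination hr / 4
  have hbs : ¬ IsSquare ((-(nD P : ℤ) : ℤ) : ℚ) := by
    rintro ⟨r, hr⟩
    have h3 : ((-(nD P : ℤ) : ℤ) : ℚ) < 0 := by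
      have : (-(nD P : ℤ)) < 0 := by omega
      exact_mod_cast this
    nlinarith [mul_self_nonneg r]
  obtain ⟨c1, c2, -⟩ := Pool.Agent.Y700.count hbQ habQ hsq hbs hfin hc4
  exact ⟨c1, c2⟩

end Pool.Agent.E8helper21.QT
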