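import Pool.Agent.E8helper21.QT.PerQ

/-!
# The 2-adic valuation of the central value of `y² = x³ - D x`
-/

set_option autoImplicit false

open Complex Filter
open scoped PeriodPair Topology

namespace Pool.Agent.E8helper21.QT

open Pool.Agent.Y699
open Pool.Agent.TH936.CM
open H385 (ZI RQ im1 nrm)
open Pool.Agent.H304R3.HK (tc HC LH)
open Pool.Agent.W164.RC (tc_mul tc_star two2)
open Pool.Agent.H304R2.EC.A1 (prim prim_norm_odd norm_def')
open Pool.Agent.Y702.G (cubic)
open Pool.Agent.Y715.Z (v_odd)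

variable {L : PeriodPair} {Ω : ℂ} {P : Finset ℕ}

section

variable {Γ : Type} [LinearOrderedCommGroupWithZero Γ] {v : Valuation ℂ Γ} (h2 : v 2 < 1)

include h2

lemma v_rr : v rr = 1 := by
  have h1 := congrArg v rr_sq
  have h3 : v (1 - 2 * I) = 1 := by
    have e : (1 - 2 * I : ℂ) = 1 + (-(2 * I)) := by ring
    rw [e, Valuation.map_add_eq_of_lt_left, map_one]
    rw [map_one, Valuation.map_neg, map_mul, v_I, mul_one]
    exact h2
  rw [map_mul, h3, mul_one, map_pow, map_one] at h1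
  exact v_pow_one (by norm_num) h1

lemma v_conjI : v (1 - I) = v (1 + I) := by
  have e : (1 - I : ℂ) = -I * (1 + I) := by linear_combination I_sq
  rw [e, map_mul, Valuation.map_neg, v_I, one_mul]

lemma v_two2 : v (tc two2) = v (1 + I) ^ 3 := by
  rw [tc_two2]
  have e : (2 + 2 * I : ℂ) = -I * (1 + I) ^ 3 := by
    linear_combination (3 + 3 * I + I ^ 2 - 1) * I_sq + (I - I ^ 2) * 0
  rw [e, map_mul, Valuation.map_neg, v_I, one_mul, map_pow]

lemma v_kap (h : GLat L Ω) : v (QT.kap L Ω) * v (1 + I) = v Ω := by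
  have h0 : v (1 + I) ≠ 0 := v_pi_ne
  unfold QT.kap
  rw [map_div₀, map_mul, map_mul, map_mul, Valuation.map_neg, y0_val h2 h, v_two2 h2, v_rr h2,
    v_conjI h2, mul_one]
  field_simp

end

/-- **the valuation** -/
theorem val_conj (hP : Cls P) (h : nD P % 16 = 13) {A : ℝ} (hA : 0 < A)
    (hint : ∫ x in {x : ℝ | 0 < cubic (cv (nD P)) x}, 1 / Real.sqrt (cubic (cv (nD P)) x) = A)
    {Γ : Type} [LinearOrderedCommGroupWithZero Γ] (v : Valuation ℂ Γ) (h2 : v 2 < 1) :
    v ((starRingEnd ℂ) (LL hP 1) / ((A : ℂ) * 2 ^ P.card)) ≤ 1 ∧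
      (v ((starRingEnd ℂ) (LL hP 1) / ((A : ℂ) * 2 ^ P.card)) = 1 ↔ Kt P) := by
  classical
  obtain ⟨L, Ω, hG⟩ := exists_GL
  have hDpos : (0 : ℤ) < ((nD P : ℕ) : ℤ) := by
    have : nD P ≠ 0 := by omega
    omega
  obtain ⟨A', -, hint', hA4⟩ := perQ hG hDpos
  rw [hint] at hint'
  subst hint'
  obtain ⟨r, hr⟩ := exists_r hP h
  have hp := pf hP
  set V : Finset (Ix P) := Finset.univ with hV
  have hne : V.Nonempty := ⟨r, Finset.mem_univ _⟩
  have hfin := H385.he1_finite (DD_ne hp V)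
  letI := Fintype.ofFinite (RQ (DD (prP P) V))
  have hval := LH_val hp hne (Wt_eq hP h) (fun _ _ => by norm_num) hG
  have hLL : (starRingEnd ℂ) (LL hP 1) = QT.kap L Ω / tc (DD (prP P) V) *
      SF (gh L) Ω (prP P) V on1 := by
    rw [← hval]
    unfold LL Xc
    have e : (1 : ℂ) - 1 / 2 = 1 / 2 := by norm_num
    rw [e]
  have hrV : r ∈ V := Finset.mem_univ r
  have hcg := M_main (v := v) (V := V) hp hr h2 hG hrV (Wt_eq hP h) (et_eq hP h)
  have hOd : Pool.Agent.Y699.Od V on1 = V := by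
    unfold Pool.Agent.Y699.Od
    exact Finset.filter_true_of_mem fun _ _ => by norm_num
  have hcard : V.card = 2 * P.card := by
    rw [hV, Finset.card_univ, Fintype.card_prod, Fintype.card_bool, Fintype.card_coe, mul_comm]
  have hPc : 1 ≤ P.card := Finset.card_pos.2 ⟨r.1, r.1.2⟩
  have hcard2 : 2 ≤ V.card := by rw [hcard]; omega
  rw [hOd, TR_pos hcard2] at hcg
  have hpi : v (1 + I) ≠ 0 := v_pi_ne
  have hpi2 := v_pi_sq (v := v)
  have hΩ0 : v Ω ≠ 0 := (Valuation.ne_zero_iff _).2 hG.lat.ne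
  have hodd : v ((nD P : ℕ) : ℂ) = 1 := by
    have := v_odd h2 (n := ((nD P : ℕ) : ℤ)) (by omega)
    simpa using this
  have hvA : v (A : ℂ) = v Ω := by
    refine v_inj (n := 4) (by norm_num) ?_
    have h5 := congrArg v hA4
    rw [map_mul, map_pow, map_pow] at h5
    have h6 : v ((((nD P : ℕ) : ℤ)) : ℂ) = 1 := by
      have := v_odd h2 (n := ((nD P : ℕ) : ℤ)) (by omega)
      exact this
    rw [h6, mul_one] at h5
    exact h5
  have hvD : v (tc (DD (prP P) V)) = 1 := by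
    rw [DD_eq hP]
    have e : tc ((nD P : ℕ) : ZI) = ((nD P : ℕ) : ℂ) := by
      unfold tc; simp
    rw [e, hodd]
  have key : v ((starRingEnd ℂ) (LL hP 1) / ((A : ℂ) * 2 ^ P.card)) =
      v (SF (gh L) Ω (prP P) V on1 / (1 + I) ^ (V.card + 1)) := by
    rw [hLL, map_div₀, map_mul, map_div₀, map_mul, map_div₀, hvD, hvA, map_pow, map_pow, hcard,
      ← hpi2, div_one, ← v_kap h2 hG, ← pow_mul, pow_succ]
    have hk : v (QT.kap L Ω) ≠ 0 := (Valuation.ne_zero_iff _).2 (kap_ne hG)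
    field_simp
  rw [key]
  refine ⟨hcg.l, ?_⟩
  rw [← FF_iff hP h]
  constructor
  · intro h1
    by_contra hc
    have h3 : FF (wt (prP P)) (Pool.Agent.Y699.em (prP P)) V = 0 := by
      have : ∀ a : ZMod 2, a ≠ 1 → a = 0 := by decide
      exact this _ hc
    rw [h3, uu_zero] at hcg
    have h4 := hcg.lt
    rw [h1] at h4
    exact lt_irrefl _ h4
  · intro h1
    rw [h1, uu_one] at hcg
    have h4 := hcg.s
    have e : SF (gh L) Ω (prP P) V on1 / (1 + I) ^ (V.card + 1) =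
        (SF (gh L) Ω (prP P) V on1 / (1 + I) ^ (V.card + 1) - 1) + 1 := by ring
    rw [e, Valuation.map_add_eq_of_lt_right, map_one]
    rw [map_one]
    exact h4

/-- **the valuation of the central value** -/
theorem val_LL (hP : Cls P) (h : nD P % 16 = 13) {A : ℝ} (hA : 0 < A)
    (hint : ∫ x in {x : ℝ | 0 < cubic (cv (nD P)) x}, 1 / Real.sqrt (cubic (cv (nD P)) x) = A)
    {Γ : Type} [LinearOrderedCommGroupWithZero Γ] (v : Valuation ℂ Γ) (h2 : v 2 < 1) :
    v (LL hP 1 / ((A : ℂ) * 2 ^ P.card)) ≤ 1 ∧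
      (v (LL hP 1 / ((A : ℂ) * 2 ^ P.card)) = 1 ↔ Kt P) := by
  have h1 := val_conj hP h hA hint (v.comap (starRingEnd ℂ)) (by
    rw [Valuation.comap_apply, map_ofNat]; exact h2)
  rw [Valuation.comap_apply, map_div₀, Complex.conj_conj, map_mul, Complex.conj_ofReal, map_pow,
    map_ofNat] at h1
  exact h1

end Pool.Agent.E8helper21.QT
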