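import Pool.Agent.E8helper21.QT.PerA
import Pool.Agent.E8helper21.QT.Gr
import Pool.Agent.Y715.Z.Val

/-!
# The real period of `y² = x³ - D x`, and the valuation of the central value
-/

set_option autoImplicit false

open Complex Filter
open scoped PeriodPair Topology

namespace Pool.Agent.E8helper21.QT

open Pool.Agent.Y699
open Pool.Agent.TH936.CM
open H385 (ZI RQ im1 nrm)
open Pool.Agent.H304R3.HK (tc HC LH)
open Pool.Agent.W164.RC (tc_mul tc_star two2)
open Pool.Agent.H304R2.EC.A1 (prim prim_norm_odd norm_def')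
open Pool.Agent.Y702.G (cubic)
open Pool.Agent.Y715.Z (g2_congr)

variable {L : PeriodPair} {Ω : ℂ}

theorem perQ (h : GLat L Ω) {D : ℤ} (hD : 0 < D) : ∃ A : ℝ, 0 < A ∧
    ∫ x in {x : ℝ | 0 < cubic (cv D) x}, 1 / Real.sqrt (cubic (cv D) x) = A ∧
    (A : ℂ) ^ 4 * (D : ℂ) = Ω ^ 4 := by
  have hDc : (D : ℂ) ≠ 0 := by exact_mod_cast hD.ne'
  obtain ⟨r, hr⟩ := IsAlgClosed.exists_pow_nat_eq (D : ℂ)⁻¹ (n := 4) (by norm_num)
  have hr0 : r ≠ 0 := by
    rintro rfl
    rw [zero_pow (by norm_num)] at hr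
    exact inv_ne_zero hDc hr.symm
  have hΩ := h.lat.ne
  have hrΩ : r * Ω ≠ 0 := mul_ne_zero hr0 hΩ
  have hg : (mkL I Ω I_ne hΩ).g₂ = 4 := by
    rw [← h.g2]
    apply g2_congr
    apply SetLike.ext
    intro z
    rw [mem_lat (mkL_isLat' hΩ), mem_lat h.lat]
  set Λ := mkL I (r * Ω) I_ne hrΩ with hΛ
  have hL : IsLat Λ RG (r * Ω) := mkL_isLat' hrΩ
  have hg' : Λ.g₂ = 4 * (D : ℂ) := by
    unfold PeriodPair.g₂ at hg ⊢
    rw [hΛ, G_eq I_ne _ (k := 4) (by norm_num)]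
    rw [G_eq I_ne _ (k := 4) (by norm_num)] at hg
    have e1 : ((r * Ω) ^ 4)⁻¹ = (r ^ 4)⁻¹ * (Ω ^ 4)⁻¹ := by rw [mul_pow, mul_inv]
    rw [e1, hr, inv_inv]
    linear_combination (D : ℂ) * hg
  have hg3 : Λ.g₃ = 0 := by
    unfold PeriodPair.g₃
    rw [G6 hL, mul_zero]
  have hc4 : ((cv D).c₄ : ℂ) / 12 = 4 * D := by
    unfold cv WeierstrassCurve.c₄ WeierstrassCurve.b₂ WeierstrassCurve.b₄
    push_cast
    ring
  have hc6 : ((cv D).c₆ : ℂ) / 216 = 0 := by
    unfold cv WeierstrassCurve.c₆ WeierstrassCurve.b₂ WeierstrassCurve.b₄ WeierstrassCurve.b₆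
    push_cast
    ring
  have hΔ : 0 < (cv D).Δ := by
    rw [cv_disc]
    positivity
  obtain ⟨A, B, hA, hB, hlat⟩ := latPos Λ (4 * (D : ℝ)) 0 (by rw [hg']; push_cast; rfl)
    (by rw [hg3]; push_cast; rfl) (by
      have : (0 : ℝ) < D := by exact_mod_cast hD
      have h2 : (0 : ℝ) < (4 * (D : ℝ)) ^ 3 := by positivity
      linarith)
  have hint := perPosA (W := cv D) hΔ (by rw [hg', hc4]) (by rw [hg3, hc6]) hA hB hlat
  -- the lattice is a square
  have hIm : ∀ w ∈ Λ.lattice, I * w ∈ Λ.lattice := by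
    intro w hw
    have := lat_mul hL im1 hw
    rwa [tc_im1] at this
  have hAm : (A : ℂ) ∈ Λ.lattice := (hlat _).2 ⟨1, 0, by push_cast; ring⟩
  have hBm : (B : ℂ) * I ∈ Λ.lattice := (hlat _).2 ⟨0, 1, by push_cast; ring⟩
  have hAB : A = B := by
    obtain ⟨m, n, h1⟩ := (hlat _).1 (hIm _ hAm)
    obtain ⟨m', n', h2⟩ := (hlat _).1 (hIm _ hBm)
    have h3 := congrArg Complex.im h1
    have h4 := congrArg Complex.re h2
    simp at h3 h4
    have h5 : (0 : ℝ) < n := by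
      by_contra hc
      push Not at hc
      have : (n : ℝ) * B ≤ 0 := mul_nonpos_of_nonpos_of_nonneg hc hB.le
      linarith
    have h6 : (1 : ℝ) ≤ n := by
      have : (1 : ℤ) ≤ n := by
        have : (0 : ℤ) < n := by exact_mod_cast h5
        omega
      exact_mod_cast this
    have h7 : (m' : ℝ) < 0 := by
      by_contra hc
      push Not at hc
      have : 0 ≤ (m' : ℝ) * A := mul_nonneg hc hA.le
      linarith
    have h8 : (m' : ℝ) ≤ -1 := by
      have : m' ≤ (-1 : ℤ) := by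
        have : m' < (0 : ℤ) := by exact_mod_cast h7
        omega
      exact_mod_cast this
    nlinarith
  subst hAB
  obtain ⟨a, ha⟩ := (mem_lat hL).1 hAm
  obtain ⟨m, n, hmn⟩ := (hlat _).1 ((mem_lat hL).2 ⟨1, rfl⟩)
  rw [tc_one, mul_one] at hmn
  have hAc : (A : ℂ) ≠ 0 := by exact_mod_cast hA.ne'
  have h1 : tc a * tc ⟨m, n⟩ = 1 := by
    have e1 : tc ⟨m, n⟩ = (m : ℂ) + n * I := rfl
    apply mul_left_cancel₀ hAc
    rw [e1]
    linear_combination (-(tc a)) * hmn - ha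
  have h2 : a.norm = 1 := by
    have h3 : a * ⟨m, n⟩ = 1 := by
      apply tc_inj
      rw [tc_mul, h1, tc_one]
    have := IsUnit.of_mul_eq_one _ h3
    obtain ⟨u, hu⟩ := this
    rw [← hu]
    exact Pool.Agent.W164.RC.unit_norm u
  refine ⟨A, hA, hint, ?_⟩
  have h3 := Val4.four h2
  have h4 := congrArg tc h3
  rw [tc_pow, tc_one] at h4
  rw [ha, mul_pow, mul_pow, hr, h4]
  field_simp

end Pool.Agent.E8helper21.QT
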