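import Pool.Agent.E8helper21.QT.Sels
import Pool.Agent.Z894.LG
import Pool.Agent.Z488.Coc
import Pool.Agent.Y210.Z702.LOT
import Pool.Agent.Z290.COB
import Pool.Agent.Y545.Z702.Tor
import Pool.Agent.Z864.LQ.Lq

/-!
A kernel vector gives a nontrivial element of `Ш[2]` if there are finitely many points.
-/

set_option autoImplicit false
set_option linter.unusedSectionVars false

namespace Pool.Agent.E8helper21.QT

open Pool.Agent.TH841.SH.D
open Pool.Agent.Z702 (WZ LocI coc S_COC S_LOT S_COB S_TOR S_LQ)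

/-- a nontrivial element of `Ш[2]` from an everywhere locally trivial class -/
theorem sha_ex' {a b d : ℤ} (hb : b ≠ 0)
    (hab : a ^ 2 - 4 * b ≠ 0) (nb : ¬ IsSquare (b : ℚ)) (nab : ¬ IsSquare ((a : ℚ) ^ 2 - 4 * b))
    (hd : d ≠ 0) (n1 : ¬ IsSquare (d : ℚ)) (n2 : ¬ IsSquare ((d : ℚ) * ((a : ℚ) ^ 2 - 4 * b)))
    (hl : ∀ (p : ℕ) [Fact p.Prime], LocI ℚ_[p] a b d) (hr : LocI ℝ a b d)
    (hf : Finite (WZ a b).toAffine.Point) : ∃ x : Sha (WZ a b), x ≠ 0 ∧ x + x = 0 := by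
  have h1 : S_COC := Pool.Agent.Z488.t_COC
  have h2 : S_LOT := Pool.Agent.Y210.Z702.t_LOT
  have h3 : S_COB := Pool.Agent.Z290.COBf.t_COB
  have h4 : S_TOR := Pool.Agent.Y545.Z702.t_TOR
  have hc : coc hb d ∈ shaCoc (WZ a b) := ⟨(h1 a b hb d).1,
    fun p _ => h2 a b hb d hab hd ℚ_[p] (hl p), h2 a b hb d hab hd ℝ hr⟩
  let N : AddSubgroup (shaCoc (WZ a b)) := (cob (WZ a b)).addSubgroupOf (shaCoc (WZ a b))
  let y : shaCoc (WZ a b) := ⟨coc hb d, hc⟩
  refine ⟨(QuotientAddGroup.mk y : shaCoc (WZ a b) ⧸ N), ?_, ?_⟩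
  · intro h0
    have h0' : (QuotientAddGroup.mk y : shaCoc (WZ a b) ⧸ N) = 0 := h0
    rw [QuotientAddGroup.eq_zero_iff, AddSubgroup.mem_addSubgroupOf] at h0'
    rcases h3 a b hb d hab hd h0' with h | h | h
    · exact n1 h
    · exact n2 h
    · rcases h4 a b d hb hab nb nab hf h with h | h
      · exact n1 h
      · exact n2 h
  · have h5 : (QuotientAddGroup.mk (y + y) : shaCoc (WZ a b) ⧸ N) = 0 := by
      rw [QuotientAddGroup.eq_zero_iff, AddSubgroup.mem_addSubgroupOf]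
      have h6 : ((y + y : shaCoc (WZ a b)) : Coch (WZ a b)) = 0 := (h1 a b hb d).2
      rw [h6]
      exact cob_zero _
    exact h5

variable {P : Finset ℕ}

lemma int_sq_of {p : ℕ} [Fact p.Prime] {n : ℤ} {D d : ℤ} (h : IsSquare (n : ℚ_[p]))
    (e : ∃ m : ℤ, d * (4 * D) = n * m ^ 2) :
    IsSquare ((d : ℚ_[p]) * (((0 : ℤ) : ℚ_[p]) ^ 2 - 4 * ((-D : ℤ) : ℚ_[p]))) := by
  obtain ⟨r, hr⟩ := h
  obtain ⟨m, hm⟩ := e
  refine ⟨r * m, ?_⟩
  have h1 : ((d * (4 * D) : ℤ) : ℚ_[p]) = ((n * m ^ 2 : ℤ) : ℚ_[p]) := by rw [hm]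
  push_cast at h1 ⊢
  rw [hr] at h1
  linear_combination h1

/-- the local conditions -/
theorem locals (hP : Cls P) (hD : nD P % 16 = 13) {T : Finset ℕ} (hT : T ⊆ P)
    (h1 : ∀ q ∈ P \ T, IsSquare ((∏ p ∈ T, p : ℕ) : ZMod q))
    (h2 : ∀ q ∈ T, IsSquare ((∏ p ∈ P \ T, p : ℕ) : ZMod q)) :
    (∀ (l : ℕ) [Fact l.Prime], LocI ℚ_[l] 0 (-(nD P : ℤ)) ((∏ p ∈ T, p : ℕ) : ℤ)) ∧
    LocI ℝ 0 (-(nD P : ℤ)) ((∏ p ∈ T, p : ℕ) : ℤ) := by
  have hprime : ∀ p ∈ P, p.Prime := fun p hp => (hP p hp).1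
  have hd0 : 0 < ∏ p ∈ T, p := Finset.prod_pos fun p hp => (hprime p (hT hp)).pos
  have hD0 : 0 < nD P := by omega
  have hsplit := nD_split hT
  have hq := Pool.Agent.Z864.LQ.t_LQ 0 (-(nD P : ℤ)) ((∏ p ∈ T, p : ℕ) : ℤ) (by omega) (by
    have : (0 : ℤ) ^ 2 - 4 * (-(nD P : ℤ)) = 4 * nD P := by ring
    rw [this]
    omega) (by omega)
  obtain ⟨q1, q2⟩ := hq
  refine ⟨fun l hl => ?_, q2 (by exact_mod_cast hd0)⟩
  have h4T := nD_mod4 hP T hT
  by_cases l2 : l = 2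
  · subst l2
    refine q1 2 ?_
    by_cases h8 : (∏ p ∈ T, p) % 8 = 1
    · left
      exact padic_sq2' (by omega)
    · right
      refine int_sq_of (n := ((∏ p ∈ T, p : ℕ) : ℤ) * (nD P : ℤ)) (padic_sq2' ?_) ⟨2, by ring⟩
      have h5 : (∏ p ∈ T, p) % 8 = 5 := by omega
      have h6 : nD P % 8 = 5 := by omega
      have h7 : ((∏ p ∈ T, p) * nD P) % 8 = 1 := by rw [Nat.mul_mod, h5, h6]
      have h8 : (((∏ p ∈ T, p) * nD P : ℕ) : ℤ) % 8 = 1 := by exact_mod_cast h7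
      rw [← Nat.cast_mul]
      exact h8
  by_cases lT : l ∈ T
  · refine q1 l (Or.inr ?_)
    have hne : ((∏ p ∈ P \ T, p : ℕ) : ZMod l) ≠ 0 := prod_ne hl.out
      (fun x hx => hprime x (Finset.mem_sdiff.1 hx).1) (fun h => (Finset.mem_sdiff.1 h).2 lT)
    refine int_sq_of (n := ((∏ p ∈ P \ T, p : ℕ) : ℤ)) (padic_sq' l2 (by
      intro h3
      apply hne
      rw [ZMod.natCast_eq_zero_iff]
      exact_mod_cast h3) (by simpa using h2 l lT)) ⟨2 * ((∏ p ∈ T, p : ℕ) : ℤ), ?_⟩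
    rw [hsplit]
    push_cast
    ring
  have hTne : ((∏ p ∈ T, p : ℕ) : ZMod l) ≠ 0 := prod_ne hl.out
    (fun x hx => hprime x (hT hx)) lT
  have hTn : ¬ (l : ℤ) ∣ ((∏ p ∈ T, p : ℕ) : ℤ) := by
    intro h3
    apply hTne
    rw [ZMod.natCast_eq_zero_iff]
    exact_mod_cast h3
  by_cases lP : l ∈ P
  · refine q1 l (Or.inl (padic_sq' l2 hTn ?_))
    simpa using h1 l (Finset.mem_sdiff.2 ⟨lP, lT⟩)
  · by_cases hs : IsSquare (((∏ p ∈ T, p : ℕ)) : ZMod l)
    · exact q1 l (Or.inl (padic_sq' l2 hTn (by simpa using hs)))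
    · have hDne : ((nD P : ℕ) : ZMod l) ≠ 0 := prod_ne hl.out hprime lP
      by_cases hDs : IsSquare ((nD P : ℕ) : ZMod l)
      · refine Pool.Agent.Z894.LG.aux l 0 (-(nD P : ℤ)) _ l2 ?_ ?_ (by omega) ?_
        · push_cast
          exact neg_ne_zero.2 hDne
        · have e1 : ((0 : ℤ) : ZMod l) ^ 2 - 4 * ((-(nD P : ℤ) : ℤ) : ZMod l) =
              2 ^ 2 * ((nD P : ℕ) : ZMod l) := by
            push_cast
            ring
          have h20 : (2 : ZMod l) ≠ 0 := by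
            intro h
            have : ((2 : ℕ) : ZMod l) = 0 := by exact_mod_cast h
            rw [ZMod.natCast_eq_zero_iff] at this
            exact l2 ((Nat.prime_dvd_prime_iff_eq hl.out Nat.prime_two).1 this)
          rw [e1, map_mul, quadraticChar_sq_one' h20, one_mul]
          exact (quadraticChar_one_iff_isSquare hDne).2 hDs
        · rw [Int.cast_natCast, quadraticChar_neg_one_iff_not_isSquare]
          exact hs
      · refine q1 l (Or.inr ?_)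
        refine int_sq_of (n := ((∏ p ∈ T, p : ℕ) : ℤ) * (nD P : ℤ)) (padic_sq' l2 ?_ ?_)
          ⟨2, by ring⟩
        · intro h3
          rcases (Nat.prime_iff_prime_int.1 hl.out).dvd_or_dvd h3 with h4 | h4
          · exact hTn h4
          · apply hDne
            rw [ZMod.natCast_eq_zero_iff]
            exact_mod_cast h4
        · rw [Int.cast_mul, Int.cast_natCast, Int.cast_natCast, sq_mul_iff hTne hDne]
          exact ⟨fun h => absurd h hs, fun h => absurd h hDs⟩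

/-- **the converse** -/
theorem conv (hP : Cls P) (hD : nD P % 16 = 13)
    (hf : Finite (WZ 0 (-(nD P : ℤ))).toAffine.Point)
    (hsh : ∀ x : Sha (WZ 0 (-(nD P : ℤ))), x + x = 0 → x = 0) : Kt P := by
  classical
  rw [Kt_iff hP]
  intro T hT h1 h2
  by_contra hc
  push Not at hc
  obtain ⟨hTe, hTP⟩ := hc
  obtain ⟨l1, l2⟩ := locals hP hD hT h1 h2
  have hprime : ∀ p ∈ P, p.Prime := fun p hp => (hP p hp).1
  have hd0 : 0 < ∏ p ∈ T, p := Finset.prod_pos fun p hp => (hprime p (hT hp)).pos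
  have hD0 : 0 < nD P := by omega
  have hsplit := nD_split hT
  have hne1 : T.Nonempty := hTe
  have hPne : P.Nonempty := hne1.mono hT
  have hne2 : (P \ T).Nonempty := by
    rw [Finset.nonempty_iff_ne_empty, Ne, Finset.sdiff_eq_empty_iff_subset]
    intro h
    exact hTP (Finset.Subset.antisymm hT h)
  have hDs : ¬ IsSquare (((nD P : ℕ) : ℤ) : ℚ) := ns_prod hprime hPne
  have e4 : ∀ d : ℚ, d * (((0 : ℤ) : ℚ) ^ 2 - 4 * ((-(nD P : ℤ) : ℤ) : ℚ)) = 4 * (d * (nD P : ℕ)) := by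
    intro d
    push_cast
    ring
  obtain ⟨x, hx0, hx2⟩ := sha_ex' (a := 0) (b := -(nD P : ℤ)) (d := ((∏ p ∈ T, p : ℕ) : ℤ))
    (by omega) (by
      have : (0 : ℤ) ^ 2 - 4 * (-(nD P : ℤ)) = 4 * nD P := by ring
      rw [this]
      omega) (by
      rintro ⟨r, hr⟩
      have h3 : ((-(nD P : ℤ) : ℤ) : ℚ) < 0 := by
        have : (-(nD P : ℤ)) < 0 := by omega
        exact_mod_cast this
      nlinarith [mul_self_nonneg r]) (by
      intro h
      have := e4 1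
      rw [one_mul, one_mul] at this
      rw [this] at h
      obtain ⟨r, hr⟩ := h
      apply hDs
      refine ⟨r / 2, ?_⟩
      push_cast
      linear_combination hr / 4) (by omega) (ns_prod (fun p hp => hprime p (hT hp)) hne1) (by
      intro h
      rw [e4] at h
      obtain ⟨r, hr⟩ := h
      have hdq : (((∏ p ∈ T, p : ℕ) : ℤ) : ℚ) ≠ 0 := by
        have : ((∏ p ∈ T, p : ℕ) : ℤ) ≠ 0 := by omega
        exact_mod_cast this
      apply ns_prod (J := P \ T) (fun p hp => hprime p (Finset.mem_sdiff.1 hp).1) hne2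
      refine ⟨r / (2 * (((∏ p ∈ T, p : ℕ) : ℤ) : ℚ)), ?_⟩
      have h5 : (((nD P : ℕ)) : ℚ) = (((∏ p ∈ T, p : ℕ) : ℤ) : ℚ) *
          (((∏ p ∈ P \ T, p : ℕ) : ℤ) : ℚ) := by
        rw [hsplit]
        push_cast
        rfl
      rw [h5] at hr
      field_simp
      linear_combination hr) l1 l2 hf
  exact hx0 (hsh x hx2)

end Pool.Agent.E8helper21.QT
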