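import Pool.Agent.E8helper21.QT.Fam
import Pool.Agent.W97.MT.Defs

/-!
The equation is minimal.
-/

set_option autoImplicit false
set_option linter.unusedSectionVars false

namespace Pool.Agent.E8helper21.QT

open WeierstrassCurve

theorem min_cv {D : ℤ} (hD : Squarefree D) (h2 : ¬ (2 : ℤ) ∣ D) :
    Pool.Agent.W97.MT.IsGloballyMinimal (cv D) := by
  have hD0 : D ≠ 0 := hD.ne_zero
  have hΔ := cv_disc D
  refine ⟨by rw [hΔ]; exact mul_ne_zero (by norm_num) (pow_ne_zero 3 hD0), fun W' C hC => ?_⟩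
  have h1 : ((W'.Δ : ℤ) : ℚ) = ((C.u⁻¹ : ℚˣ) : ℚ) ^ 12 * ((cv D).Δ : ℤ) := by
    have h3 := congrArg WeierstrassCurve.Δ hC
    rw [WeierstrassCurve.variableChange_Δ] at h3
    have h4 : ((cv D).map (Int.castRingHom ℚ)).Δ = (((cv D).Δ : ℤ) : ℚ) := by
      rw [WeierstrassCurve.map_Δ]; rfl
    have h5 : (W'.map (Int.castRingHom ℚ)).Δ = ((W'.Δ : ℤ) : ℚ) := by
      rw [WeierstrassCurve.map_Δ]; rfl
    rw [← h5, ← h4]
    exact h3.symm
  set u : ℚ := (C.u : ℚ) with hu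
  have hu0 : u ≠ 0 := C.u.ne_zero
  have h6 : ((W'.Δ : ℤ) : ℚ) * u ^ 12 = ((cv D).Δ : ℤ) := by
    rw [h1]
    have : ((C.u⁻¹ : ℚˣ) : ℚ) = u⁻¹ := by rw [hu]; simp
    rw [this]
    field_simp
  have h7 : W'.Δ * u.num ^ 12 = (cv D).Δ * (u.den : ℤ) ^ 12 := by
    have h8 : ((W'.Δ : ℤ) : ℚ) * (u.num : ℚ) ^ 12 = ((cv D).Δ : ℤ) * (u.den : ℚ) ^ 12 := by
      rw [← h6]
      have h9 : (u.num : ℚ) = u * u.den := (Rat.mul_den_eq_num u).symm
      rw [h9]
      ring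
    exact_mod_cast h8
  have hcop : IsCoprime (u.num ^ 12) ((u.den : ℤ) ^ 12) := by
    apply IsCoprime.pow
    rw [Int.isCoprime_iff_gcd_eq_one]
    exact u.reduced
  have hdvd : u.num ^ 12 ∣ (cv D).Δ := by
    refine hcop.dvd_of_dvd_mul_right ?_
    exact ⟨W'.Δ, by rw [← h7]; ring⟩
  have hone : u.num.natAbs = 1 := by
    by_contra hne
    obtain ⟨p, hp, hpu⟩ := Nat.exists_prime_and_dvd hne
    have hpi := Nat.prime_iff_prime_int.1 hp
    have h9 : (p : ℤ) ^ 12 ∣ 64 * D ^ 3 := by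
      rw [← hΔ]
      exact (pow_dvd_pow_of_dvd (Int.natCast_dvd.2 hpu) 12).trans hdvd
    by_cases hp2 : p = 2
    · subst hp2
      have h10 : (2 : ℤ) ^ 6 ∣ D ^ 3 := by
        have h11 : (2 : ℤ) ^ 6 * 2 ^ 6 ∣ 2 ^ 6 * D ^ 3 := by
          have e1 : (2 : ℤ) ^ 6 * 2 ^ 6 = ((2 : ℕ) : ℤ) ^ 12 := by norm_num
          have e2 : (2 : ℤ) ^ 6 * D ^ 3 = 64 * D ^ 3 := by norm_num
          rw [e1, e2]
          exact h9
        exact (mul_dvd_mul_iff_left (by norm_num)).1 h11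
      exact h2 (Int.prime_two.dvd_of_dvd_pow ((dvd_pow_self (2 : ℤ) (by norm_num)).trans h10))
    · have hcop2 : IsCoprime ((p : ℤ) ^ 12) 64 := by
        apply IsCoprime.pow_left
        rw [Int.isCoprime_iff_gcd_eq_one]
        have : Nat.Coprime p (2 ^ 6) := by
          apply Nat.Coprime.pow_right
          exact (Nat.coprime_primes hp Nat.prime_two).2 hp2
        exact this
      have h10 : (p : ℤ) ^ 12 ∣ D ^ 3 := hcop2.dvd_of_dvd_mul_left h9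
      have h11 : ((p : ℤ) ^ 4) ^ 3 ∣ D ^ 3 := by
        rw [← pow_mul]
        exact h10
      have h12 : (p : ℤ) ^ 4 ∣ D := (Int.pow_dvd_pow_iff (by norm_num)).1 h11
      have h13 : (p : ℤ) * p ∣ D := (by
        rw [← sq]
        exact (pow_dvd_pow (p : ℤ) (by norm_num : 2 ≤ 4)).trans h12)
      exact hpi.not_unit (hD _ h13)
  have h14 : |W'.Δ| = |(cv D).Δ| * (u.den : ℤ) ^ 12 := by
    have h15 := congrArg abs h7
    rw [abs_mul, abs_mul, abs_pow, Int.abs_eq_natAbs u.num, hone] at h15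
    rw [Nat.cast_one, one_pow, mul_one] at h15
    rw [h15, abs_of_nonneg (by positivity : (0 : ℤ) ≤ (u.den : ℤ) ^ 12)]
  rw [h14]
  have h16 : (1 : ℤ) ≤ (u.den : ℤ) ^ 12 := by
    have : 0 < u.den := u.den_pos
    exact one_le_pow₀ (by omega)
  nlinarith [abs_nonneg (cv D).Δ]

end Pool.Agent.E8helper21.QT
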