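import Pool.Agent.E8helper21.QT.Cong

/-!
The main congruence for the quartic central values of even weight: valuations.
-/

set_option autoImplicit false
set_option linter.unusedSectionVars false

open Filter Complex
open scoped Topology PeriodPair
open H667R3 hiding sq
open Pool.Agent.TH936.CM Pool.Agent.W192.HK

namespace Pool.Agent.E8helper21.QT

open Pool.Agent.Y699
open H385 (ZI RQ im1 nrm)
open Pool.Agent.H304R3.HK (tc)
open Pool.Agent.W164.RC (tc_mul tc_star two2 prim_iff_dvd unit_cases)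
open Pool.Agent.H304R2.EC.A1 (prim prim_mul prim_cancel prim_one prim_norm_odd prim_star eq_one_of_prim
  norm_def' re_mul' im_mul' eq_of_dvd prim_ne_zero)

variable {L : PeriodPair} {Ω : ℂ} {ι : Type} [Fintype ι] [DecidableEq ι] {pr : ι → ZI}

variable {Γ : Type*} [LinearOrderedCommGroupWithZero Γ] {v : Valuation ℂ Γ} (h2 : v 2 < 1)
  (h : GLat L Ω)

lemma Cg.zero_r {x y : ℂ} (hx : Cg v x 0) (hy : v y ≤ 1) : Cg v (x * y) 0 := by
  have := hx.mul (Cg.refl hy)
  rwa [zero_mul] at this

include h2 in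
lemma df_le (hp : PF pr) {e : ι → ℕ} {i : ι} (he : 1 ≤ e i) (a : ZI) :
    v (df pr e i a) ≤ v (1 + I) := by
  have h1 := (df_cg h2 hp he a).l
  have h3 : df pr e i a = df pr e i a / (1 + I) * (1 + I) := by
    rw [div_mul_cancel₀ _ one_I_ne]
  rw [h3, map_mul]
  exact mul_le_of_le_one_left' h1

include h in
lemma OT_of (hp : PF pr) {V : Finset ι} {r : ι} (hr : r ∈ V) {t : ZI}
    (ht : q4 (pr r) (two2 * t) = 1) : OT L (zq Ω (DD pr V) t) := by
  apply zq_OT h (DD_prim hp V)
  intro hd
  have h1 : pr r ∣ two2 * t := ((dvd_DD hr).trans hd).mul_left _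
  rw [q4_zero h1] at ht
  exact absurd ht (by decide)

include h2 h in
lemma rel_le (hp : PF pr) {V : Finset ι} {r : ι} (hr : r ∈ V) (hw : wq (pr r) % 2 = 1)
    {e : ι → ℕ} (he : ∀ i ∈ V.erase r, 1 ≤ e i) (hW : Wt pr V e % 4 = 2)
    [Fintype (RQ (DD pr V))] {f : ℂ → ℂ} (hf : Fn L f) (hv : ∀ z, OT L z → v (f z) ≤ 1) :
    v (∑ S ∈ (V.erase r).powerset, (-1) ^ S.card * SF f Ω pr V (es pr r e S)) ≤
      v (1 + I) ^ (V.card - 1) := by
  classical
  rw [rel_ex hp hr hw he hW h hf]
  refine Valuation.map_sum_le v fun q _ => ?_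
  split_ifs with hq
  · rw [map_mul, map_prod]
    refine (mul_le_of_le_one_right' (hv _ (OT_of h hp hr hq))).trans ?_
    rw [← Finset.card_erase_of_mem hr]
    exact Finset.prod_le_pow_card _ _ _ fun i hi => df_le h2 hp (he i hi) _
  · rw [map_zero]
    exact zero_le

lemma step_le {P : Finset (Finset ι)} (h0 : ∅ ∈ P) {X : Finset ι → ℂ} {c : Γ}
    (hs : v (∑ S ∈ P, (-1) ^ S.card * X S) ≤ c) (ht : ∀ S ∈ P.erase ∅, v (X S) ≤ c) :
    v (X ∅) ≤ c := by
  have h1 : X ∅ = ∑ S ∈ P, (-1) ^ S.card * X S - ∑ S ∈ P.erase ∅, (-1) ^ S.card * X S := by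
    rw [← Finset.add_sum_erase _ _ h0, Finset.card_empty, pow_zero, one_mul, add_sub_cancel_right]
  rw [h1]
  refine v.map_sub_le hs (Valuation.map_sum_le v fun S hS => ?_)
  rw [map_mul, map_pow, Valuation.map_neg, map_one, one_pow, one_mul]
  exact ht S hS

include h2 in
lemma step_cg {P : Finset (Finset ι)} (h0 : ∅ ∈ P) {X : Finset ι → ℂ} {T : Finset ι → ZMod 2}
    (hs : v (∑ S ∈ P, (-1) ^ S.card * X S) < 1) (ht : ∀ S ∈ P.erase ∅, Cg v (X S) (uu (T S)))
    (hT : ∑ S ∈ P, T S = 0) : Cg v (X ∅) (uu (T ∅)) := by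
  have c1 : Cg v (∑ S ∈ P, (-1) ^ S.card * X S) 0 := Cg.zero hs
  have c2 : Cg v (∑ S ∈ P.erase ∅, (-1) ^ S.card * X S) (∑ S ∈ P.erase ∅, uu (T S)) :=
    Cg.sum _ fun S hS => cg_sign h2 _ (ht S hS)
  have c3 := c1.sub c2
  rw [← Finset.add_sum_erase _ _ h0, add_sub_cancel_right, Finset.card_empty, pow_zero, one_mul,
    zero_sub] at c3
  rw [← Finset.add_sum_erase _ _ h0] at hT
  have e5 : ∑ S ∈ P.erase ∅, T S = T ∅ := by
    have : T ∅ + T ∅ = 0 := CharTwo.add_self_eq_zero _
    linear_combination hT - this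
  have c5 := (uu_sum h2 (P.erase ∅) T).symm
  rw [e5] at c5
  exact c3.trans (c5.neg.trans (uu_neg' h2 _))

/-- the bound for the first sums -/
theorem P_le (hp : PF pr) {r : ι} (hw : wq (pr r) % 2 = 1) (h2 : v 2 < 1) (h : GLat L Ω) :
    ∀ V, r ∈ V → ∀ e, Wt pr V e % 4 = 2 → ∀ [Fintype (RQ (DD pr V))],
      v (SF (ph L) Ω pr V e) ≤ v (1 + I) ^ (V.card - 1) := by
  classical
  refine ind_e hw ?_ ?_ ?_
  · intro e hW _
    have hr : r ∈ ({r} : Finset ι) := Finset.mem_singleton_self r
    have her : ({r} : Finset ι).erase r = ∅ := by simp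
    have h1 := rel_le (v := v) h2 h hp hr hw (e := e) (by rw [her]; simp) hW (fn_ph h)
      (fun z hz => ph_le h2 h hz)
    rw [her, Finset.powerset_empty, Finset.sum_singleton, es_empty, Finset.card_empty, pow_zero,
      one_mul] at h1
    exact h1
  · intro V hr e hW i hi hei ih _
    have hiV := Finset.mem_of_mem_erase hi
    have hir : i ≠ r := (Finset.mem_erase.1 hi).1
    have hfin := H385.he1_finite (DD_ne hp (V.erase i))
    letI := Fintype.ofFinite (RQ (DD pr (V.erase i)))
    have h1 : v (SF (ph L) Ω pr (V.erase i) e) ≤ v (1 + I) ^ ((V.erase i).card - 1) := ih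
    have hc : 1 ≤ (V.erase i).card := Finset.card_pos.2 ⟨r, Finset.mem_erase.2 ⟨hir.symm, hr⟩⟩
    have hcV : V.card = (V.erase i).card + 1 := by
      rw [Finset.card_erase_of_mem hiV]
      have := Finset.card_pos.2 ⟨r, hr⟩
      omega
    rw [P_erase h hp hiV hei, map_mul]
    have h3 : v (tc (pr i) ^ 2 - tc (c4 pr (V.erase i) e (pr i))) ≤ v (1 + I) := by
      have c1 := (fac4_cg (v := v) h2 hp (e := e) (Finset.notMem_erase i V)).l
      have e1 : tc (pr i) ^ 2 - tc (c4 pr (V.erase i) e (pr i)) =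
          (tc (pr i) - tc (c4 pr (V.erase i) e (pr i))) / (1 + I) * (1 + I) +
            tc (pr i) * (tc (pr i) - 1) := by
        rw [div_mul_cancel₀ _ one_I_ne]
        ring
      rw [e1]
      refine v.map_add_le ?_ ?_
      · rw [map_mul]
        exact mul_le_of_le_one_left' c1
      · obtain ⟨t, ht⟩ := (prim_iff_dvd (pr i)).1 (hp.pp i).prm
        have h4 := congrArg tc ht
        rw [tc_sub, tc_one, tc_mul, two2_two, tc_mul, tc_pi1] at h4
        rw [h4, map_mul, map_mul, map_mul]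
        calc v (tc (pr i)) * (v (1 + I) * v (tc 2) * v (tc t)) ≤ 1 * (v (1 + I) * 1 * 1) :=
              mul_le_mul' (tc_le h2 _) (mul_le_mul' (mul_le_mul' le_rfl (tc_le h2 _)) (tc_le h2 _))
          _ = v (1 + I) := by rw [one_mul, mul_one, mul_one]
    have e2 : V.card - 1 = (V.erase i).card - 1 + 1 := by omega
    rw [e2, pow_succ (v (1 + I)), mul_comm]
    exact mul_le_mul' h1 h3
  · intro V hr hc e hW he ih _
    have h1 := rel_le (v := v) h2 h hp hr hw he hW (fn_ph h) (fun z hz => ph_le h2 h hz)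
    have h3 := step_le (Finset.empty_mem_powerset _) h1 (fun S hS => ih S hS)
    rwa [es_empty] at h3

include h2 in
lemma even_sum' (hp : PF pr) {V : Finset ι} {r : ι} (hr : r ∈ V) (hc : 2 ≤ V.card)
    [Fintype (RQ (DD pr V))] :
    v (∑ q : RQ (DD pr V), (open Classical in (if q4 (pr r) (two2 * q.out) = 1 then
        (∏ i ∈ V.erase r, uu (dd pr i (two2 * q.out))) else 0))) ≤ v 2 := by
  classical
  have h1 := even_sum (v := v) h2 hp hr hc
  rw [← sum_unit_mul (pi1_isUnit (DD_prim hp V))] at h1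
  have key : ∀ i ∈ V, ∀ q : RQ (DD pr V), q4 (pr i) (2 *
      (Ideal.Quotient.mk (Ideal.span {DD pr V}) pi1 * q).out) = q4 (pr i) (two2 * q.out) := by
    intro i hi q
    apply q4_per (hp.pp i)
    have e1 := out_mul (DD pr V) pi1 q
    have e3 : 2 * (Ideal.Quotient.mk (Ideal.span {DD pr V}) pi1 * q).out - two2 * q.out =
        2 * ((Ideal.Quotient.mk (Ideal.span {DD pr V}) pi1 * q).out - pi1 * q.out) := by
      rw [two2_two]; ring
    rw [e3]
    exact ((dvd_DD hi).trans e1).mul_left _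
  have e5 : ∑ q : RQ (DD pr V), (if q4 (pr r) (2 *
      (Ideal.Quotient.mk (Ideal.span {DD pr V}) pi1 * q).out) = 1 then
        (∏ i ∈ V.erase r, uu (dd pr i (2 *
          (Ideal.Quotient.mk (Ideal.span {DD pr V}) pi1 * q).out))) else 0) =
      ∑ q : RQ (DD pr V), (if q4 (pr r) (two2 * q.out) = 1 then
        (∏ i ∈ V.erase r, uu (dd pr i (two2 * q.out))) else 0) := by
    refine Finset.sum_congr rfl fun q _ => ?_
    rw [key r hr q]
    have e6 : ∀ i ∈ V.erase r, uu (dd pr i (2 *
        (Ideal.Quotient.mk (Ideal.span {DD pr V}) pi1 * q).out)) =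
        uu (dd pr i (two2 * q.out)) := by
      intro i hi
      unfold dd
      rw [key i (Finset.mem_of_mem_erase hi) q]
    rw [Finset.prod_congr rfl e6]
  rw [e5] at h1
  exact h1

include h2 h in
/-- the relation -/
lemma rel_cg' (hp : PF pr) {V : Finset ι} {r : ι} (hr : r ∈ V) (hw : wq (pr r) % 2 = 1)
    {e : ι → ℕ} (he : ∀ i ∈ V.erase r, 1 ≤ e i) (hW : Wt pr V e % 4 = 2) (hc : 2 ≤ V.card)
    [Fintype (RQ (DD pr V))] :
    v (∑ S ∈ (V.erase r).powerset, (-1) ^ S.card * (SF (gh L) Ω pr V (es pr r e S) /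
      (1 + I) ^ (V.card - 1))) < 1 := by
  classical
  have h1I : (1 + I : ℂ) ≠ 0 := one_I_ne
  have e1 : ∑ S ∈ (V.erase r).powerset, (-1) ^ S.card * (SF (gh L) Ω pr V (es pr r e S) /
      (1 + I) ^ (V.card - 1)) = ∑ q : RQ (DD pr V), (if q4 (pr r) (two2 * q.out) = 1 then
        (∏ i ∈ V.erase r, (df pr e i (two2 * q.out) / (1 + I))) *
          gh L (zq Ω (DD pr V) q.out) else 0) := by
    have h1 := rel_ex hp hr hw he hW h (fn_gh h)
    have e2 : ∑ S ∈ (V.erase r).powerset, (-1) ^ S.card * (SF (gh L) Ω pr V (es pr r e S) /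
        (1 + I) ^ (V.card - 1)) = (∑ S ∈ (V.erase r).powerset, (-1) ^ S.card *
          SF (gh L) Ω pr V (es pr r e S)) / (1 + I) ^ (V.card - 1) := by
      rw [Finset.sum_div]
      exact Finset.sum_congr rfl fun S _ => by ring
    rw [e2, h1, Finset.sum_div]
    refine Finset.sum_congr rfl fun q _ => ?_
    split_ifs
    · rw [Finset.prod_div_distrib, Finset.prod_const, Finset.card_erase_of_mem hr]
      ring
    · rw [zero_div]
  rw [e1]
  have c1 : Cg v (∑ q : RQ (DD pr V), (if q4 (pr r) (two2 * q.out) = 1 then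
        (∏ i ∈ V.erase r, (df pr e i (two2 * q.out) / (1 + I))) *
          gh L (zq Ω (DD pr V) q.out) else 0))
      (∑ q : RQ (DD pr V), (if q4 (pr r) (two2 * q.out) = 1 then
        (∏ i ∈ V.erase r, uu (dd pr i (two2 * q.out))) else 0)) := by
    refine Cg.sum _ fun q _ => ?_
    split_ifs with hq
    · have c2 := (Cg.prod (V.erase r) (f := fun i => df pr e i (two2 * q.out) / (1 + I))
        (g := fun i => uu (dd pr i (two2 * q.out))) (v := v)
        (fun i hi => df_cg h2 hp (he i hi) (two2 * q.out))).mul (gh_cg h2 h (OT_of h hp hr hq))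
      rwa [mul_one] at c2
    · exact Cg.refl (by rw [map_zero]; exact zero_le)
  have c3 := even_sum' (v := v) h2 hp hr hc
  exact (c1.trans (Cg.zero (lt_of_le_of_lt c3 h2))).lt

include h2 h in
/-- the case of one prime -/
lemma M_single (hp : PF pr) {r : ι} (hw : wq (pr r) % 2 = 1) {e : ι → ℕ}
    (hW : Wt pr {r} e % 4 = 2)
    [Fintype (RQ (DD pr {r}))] : Cg v (SF (gh L) Ω pr {r} e) 1 := by
  classical
  have hr : r ∈ ({r} : Finset ι) := Finset.mem_singleton_self r
  have her : ({r} : Finset ι).erase r = ∅ := by simp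
  have h1 := rel_ex hp hr hw (e := e) (by rw [her]; simp) hW h (fn_gh h)
  rw [her, Finset.powerset_empty, Finset.sum_singleton, es_empty, Finset.card_empty, pow_zero,
    one_mul] at h1
  simp only [Finset.prod_empty, one_mul] at h1
  rw [h1]
  have c1 : Cg v (∑ q : RQ (DD pr {r}), (if q4 (pr r) (two2 * q.out) = 1 then
      gh L (zq Ω (DD pr {r}) q.out) else 0))
      (∑ q : RQ (DD pr {r}), (if q4 (pr r) (two2 * q.out) = 1 then 1 else 0)) := by
    refine Cg.sum _ fun q _ => ?_
    split_ifs with hq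
    · exact gh_cg h2 h (OT_of h hp hr hq)
    · exact Cg.refl (by rw [map_zero]; exact zero_le)
  have hDr : DD pr {r} = pr r := by unfold DD; exact Finset.prod_singleton _ _
  have h3 := orbit_sum' (D := DD pr {r}) (dvd_DD hr) (hp.pp r) (not_dvd_two2 (hp.pp r)) hw
    (G := fun a => if pr r ∣ a then 0 else 1)
    (by
      intro a b hab
      have h4 : pr r ∣ a - b := (dvd_DD hr).trans hab
      have h5 : pr r ∣ a ↔ pr r ∣ b := by
        constructor
        · intro h'; have := dvd_sub h' h4; rwa [sub_sub_cancel] at this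
        · intro h'; have := dvd_add h4 h'; rwa [sub_add_cancel] at this
      simp only [h5])
    (by
      intro a
      have h5 : pr r ∣ im1 * a ↔ pr r ∣ a := qr_unit_mul (hp.pp r) im1_norm a
      simp only [h5])
    (by
      intro a ha
      simp only [if_pos ha])
  have h4 : ∑ q : RQ (DD pr {r}), (if q4 (pr r) (two2 * q.out) = 1 then
      (if pr r ∣ q.out then (0 : ℂ) else 1) else 0) =
      ∑ q : RQ (DD pr {r}), (if q4 (pr r) (two2 * q.out) = 1 then 1 else 0) := by
    refine Finset.sum_congr rfl fun q _ => ?_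
    by_cases hq : q4 (pr r) (two2 * q.out) = 1
    · rw [if_pos hq, if_pos hq, if_neg]
      intro hd
      rw [q4_zero (hd.mul_left two2)] at hq
      exact absurd hq (by decide)
    · rw [if_neg hq, if_neg hq]
  have h5 : ∑ q : RQ (DD pr {r}), (if pr r ∣ q.out then (0 : ℂ) else 1) =
      (Fintype.card (RQ (DD pr {r})) : ℂ) - 1 := by
    have h6 : ∀ q : RQ (DD pr {r}), (if pr r ∣ q.out then (0 : ℂ) else 1) =
        1 - (if q = 0 then 1 else 0) := by
      intro q
      have h7 : pr r ∣ q.out ↔ q = 0 := by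
        rw [← Ideal.mem_span_singleton, ← hDr, ← Ideal.Quotient.eq_zero_iff_mem,
          Ideal.Quotient.mk_out]
      by_cases hq : q = 0
      · rw [if_pos (h7.2 hq), if_pos hq, sub_self]
      · rw [if_neg (fun h' => hq (h7.1 h')), if_neg hq, sub_zero]
    rw [Finset.sum_congr rfl fun q _ => h6 q, Finset.sum_sub_distrib, Finset.sum_ite_eq']
    simp
  have hcard : Fintype.card (RQ (DD pr {r})) = nrm (pr r) := by
    rw [← Nat.card_eq_fintype_card, H385.H10.card_RQ, hDr]
  have hm := (hp.pp r).nrm_mod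
  have h6 : (1 / 4 : ℂ) * ((nrm (pr r) : ℂ) - 1) = (wq (pr r) : ℂ) := by
    have h7 : nrm (pr r) = 4 * wq (pr r) + 1 := by unfold wq; omega
    rw [h7]; push_cast; ring
  rw [h4, h5, hcard, h6] at h3
  rw [← h3] at c1
  exact c1.trans (cg_nat_odd h2 hw)

lemma Od_empty (hp : PF pr) {r : ι} (hw : wq (pr r) % 2 = 1) {e : ι → ℕ}
    (hW : Wt pr {r} e % 4 = 2) : Pool.Agent.Y699.Od {r} e = ∅ := by
  have h5 := Od_wt' hp hW
  unfold Pool.Agent.Y699.Od at h5 ⊢
  by_cases h7 : e r % 2 = 1
  · rw [Finset.filter_singleton, if_pos h7, Finset.sum_singleton, wt_odd hp hw] at h5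
    exact absurd h5 (by decide)
  · rw [Finset.filter_singleton, if_neg h7]

/-- the first congruence -/
theorem M_cg (hp : PF pr) {r : ι} (hw : wq (pr r) % 2 = 1) (h2 : v 2 < 1) (h : GLat L Ω) :
    ∀ V, r ∈ V → ∀ e, Wt pr V e % 4 = 2 → ∀ [Fintype (RQ (DD pr V))],
      Cg v (SF (gh L) Ω pr V e / (1 + I) ^ (V.card - 1)) (uu (if V.card = 1 then 1 else 0)) := by
  classical
  refine ind_e hw ?_ ?_ ?_
  · intro e hW _
    rw [Finset.card_singleton, if_pos rfl, Nat.sub_self, pow_zero, div_one, uu_one]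
    exact M_single h2 h hp hw hW
  · intro V hr e hW i hi hei ih _
    have hiV := Finset.mem_of_mem_erase hi
    have hir : i ≠ r := (Finset.mem_erase.1 hi).1
    have hfin := H385.he1_finite (DD_ne hp (V.erase i))
    letI := Fintype.ofFinite (RQ (DD pr (V.erase i)))
    have c1 : Cg v (SF (gh L) Ω pr (V.erase i) e / (1 + I) ^ ((V.erase i).card - 1))
      (uu (if (V.erase i).card = 1 then 1 else 0)) := ih
    have hrV : r ∈ V.erase i := Finset.mem_erase.2 ⟨hir.symm, hr⟩
    have hc : 1 ≤ (V.erase i).card := Finset.card_pos.2 ⟨r, hrV⟩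
    have hcV : V.card = (V.erase i).card + 1 := by
      rw [Finset.card_erase_of_mem hiV]
      have := Finset.card_pos.2 ⟨r, hr⟩
      omega
    have c2 := fac4_cg (v := v) h2 hp (e := e) (Finset.notMem_erase i V)
    have c3 := c1.mul c2
    rw [← uu_mul] at c3
    have e0 : (if (V.erase i).card = 1 then (1 : ZMod 2) else 0) *
        ∑ u ∈ Pool.Agent.Y699.Od (V.erase i) e, em pr u i = 0 := by
      by_cases h1 : (V.erase i).card = 1
      · obtain ⟨a, ha⟩ := Finset.card_eq_one.1 h1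
        have har : a = r := by rw [ha, Finset.mem_singleton] at hrV; exact hrV.symm
        subst har
        have hW' : Wt pr {a} e % 4 = 2 := by
          rw [← ha, Wt_erase hiV hei]; exact hW
        rw [ha, Od_empty hp hw hW', Finset.sum_empty, mul_zero]
      · rw [if_neg h1, zero_mul]
    rw [e0] at c3
    rw [if_neg (by omega)]
    have e3 : SF (gh L) Ω pr (V.erase i) e / (1 + I) ^ ((V.erase i).card - 1) *
        ((tc (pr i) - tc (c4 pr (V.erase i) e (pr i))) / (1 + I)) =
        SF (gh L) Ω pr V e / (1 + I) ^ (V.card - 1) := by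
      rw [M_erase h hp hiV hei hW]
      have e4 : V.card - 1 = ((V.erase i).card - 1) + 1 := by omega
      have h1I : (1 + I : ℂ) ≠ 0 := one_I_ne
      rw [e4, pow_succ]
      field_simp
    rw [e3] at c3
    exact c3
  · intro V hr hc e hW he ih _
    have h1 := rel_cg' (v := v) h2 h hp hr hw he hW hc
    have h3 := step_cg h2 (Finset.empty_mem_powerset _) h1 (T := fun _ => if V.card = 1 then 1 else 0)
      (fun S hS => ih S hS) (by simp [show V.card ≠ 1 by omega])
    rwa [es_empty] at h3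

include h2 in
/-- the second factor -/
lemma W_cg (hp : PF pr) (i : ι) :
    Cg v ((tc (pr i) - tc (pr i) ^ 2) / (1 + I) ^ 3) (uu (wt pr i)) := by
  obtain ⟨t, ht⟩ := (prim_iff_dvd (pr i)).1 (hp.pp i).prm
  have h4 := congrArg tc ht
  rw [tc_sub, tc_one, tc_mul, tc_two2] at h4
  have h1I : (1 + I : ℂ) ≠ 0 := one_I_ne
  have e1 : (tc (pr i) - tc (pr i) ^ 2) / (1 + I) ^ 3 = tc (pr i) * (I * tc t) := by
    rw [div_eq_iff (pow_ne_zero 3 h1I)]
    linear_combination (-tc (pr i)) * h4 + (-(2 + 3 * I + I ^ 2) * tc (pr i) * tc t) * I_sq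
  have c1 : Cg v (tc (pr i)) 1 := by
    apply (tc_par h2 _).2
    obtain ⟨a1, a2⟩ := (hp.pp i).prm
    omega
  have c2 : Cg v I 1 := by
    refine ⟨by rw [v_I], by rw [map_one], ?_⟩
    have e : (I - 1 : ℂ) = I * (1 + I) := by linear_combination -I_sq
    rw [e, map_mul, v_I, one_mul]
    exact v_pi_lt h2
  have c3 : Cg v (tc t) (uu (wt pr i)) := by
    have h5 : (pr i).norm % 8 = 5 ↔ (t.re + t.im) % 2 = 1 := by
      have e2 : pr i = 1 + two2 * t := by linear_combination ht
      have r1 : (pr i).re = 1 + 2 * t.re - 2 * t.im := by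
        rw [e2]
        simp only [Zsqrtd.re_add, re_mul', Zsqrtd.re_one, two2]
        ring
      have r2 : (pr i).im = 2 * t.re + 2 * t.im := by
        rw [e2]
        simp only [Zsqrtd.im_add, im_mul', Zsqrtd.im_one, two2]
        ring
      rw [norm_def', r1, r2]
      have e3 : (1 + 2 * t.re - 2 * t.im) ^ 2 + (2 * t.re + 2 * t.im) ^ 2 =
          1 + 4 * (t.re - t.im) + 8 * (t.re ^ 2 + t.im ^ 2) := by ring
      rw [e3]
      omega
    unfold wt
    by_cases h6 : (pr i).norm % 8 = 5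
    · rw [if_pos h6, uu_one]
      exact (tc_par h2 t).2 (h5.1 h6)
    · rw [if_neg h6, uu_zero]
      refine (tc_par h2 t).1 ?_
      have := mt h5.2 h6
      omega
  rw [e1]
  have := c1.mul (c2.mul c3)
  rwa [one_mul, one_mul] at this

lemma Od_sub (V : Finset ι) (e : ι → ℕ) : Pool.Agent.Y699.Od V e ⊆ V := Finset.filter_subset _ _

lemma Od_erase {V : Finset ι} {i : ι} {e : ι → ℕ} (hei : e i = 0) :
    Pool.Agent.Y699.Od (V.erase i) e = Pool.Agent.Y699.Od V e := by
  unfold Pool.Agent.Y699.Od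
  ext j
  rw [Finset.mem_filter, Finset.mem_filter, Finset.mem_erase]
  constructor
  · rintro ⟨⟨a1, a2⟩, a3⟩; exact ⟨a2, a3⟩
  · rintro ⟨a2, a3⟩
    refine ⟨⟨?_, a2⟩, a3⟩
    rintro rfl
    rw [hei] at a3
    exact absurd a3 (by norm_num)

/-- the recursion of the targets -/
lemma TR_erase (hp : PF pr) {V : Finset ι} {r : ι} (hw : wq (pr r) % 2 = 1) {i : ι}
    (hiV : i ∈ V) (hrV : r ∈ V.erase i) {e : ι → ℕ} (hei : e i = 0) (hW : Wt pr V e % 4 = 2) :
    (∑ u ∈ Pool.Agent.Y699.Od (V.erase i) e, em pr u i) *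
      TR pr (V.erase i) (Pool.Agent.Y699.Od (V.erase i) e) +
      wt pr i * (if (V.erase i).card = 1 then 1 else 0) =
      TR pr V (Pool.Agent.Y699.Od V e) := by
  have hc : 1 ≤ (V.erase i).card := Finset.card_pos.2 ⟨r, hrV⟩
  have hcV : V.card = (V.erase i).card + 1 := by
    rw [Finset.card_erase_of_mem hiV]
    have : 0 < V.card := Finset.card_pos.2 ⟨i, hiV⟩
    omega
  have hir : i ≠ r := fun h => (Finset.mem_erase.1 hrV).1 h.symm
  rw [Od_erase hei]
  set O := Pool.Agent.Y699.Od V e with hO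
  have hsub : O ⊆ V.erase i := by rw [hO, ← Od_erase hei]; exact Od_sub _ _
  have hiO : i ∉ O := fun h => (Finset.mem_erase.1 (hsub h)).1 rfl
  have hprod : ∏ j ∈ V \ O, ∑ u ∈ O, em pr u j =
      (∑ u ∈ O, em pr u i) * ∏ j ∈ (V.erase i) \ O, ∑ u ∈ O, em pr u j := by
    have e2 : V \ O = insert i ((V.erase i) \ O) := by
      ext j
      rw [Finset.mem_insert, Finset.mem_sdiff, Finset.mem_sdiff, Finset.mem_erase]
      constructor
      · rintro ⟨a1, a2⟩
        by_cases hji : j = i
        · exact Or.inl hji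
        · exact Or.inr ⟨⟨hji, a1⟩, a2⟩
      · rintro (rfl | ⟨⟨a1, a2⟩, a3⟩)
        · exact ⟨hiV, hiO⟩
        · exact ⟨a2, a3⟩
    rw [e2, Finset.prod_insert (by simp)]
  rcases Nat.lt_or_ge (V.erase i).card 2 with h3 | h3
  · -- one prime left
    have h4 : (V.erase i).card = 1 := by omega
    unfold TR
    rw [if_pos (by omega : (V.erase i).card ≤ 1), if_pos h4, mul_zero, zero_add, mul_one,
      if_neg (by omega), if_pos (by omega)]
    obtain ⟨a, ha⟩ := Finset.card_eq_one.1 h4
    have har : a = r := by rw [ha, Finset.mem_singleton] at hrV; exact hrV.symm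
    subst har
    rw [← Finset.mul_prod_erase V _ hiV, ha, Finset.prod_singleton, wt_odd hp hw, mul_one]
  · rw [if_neg (by omega), mul_zero, add_zero]
    rcases Nat.lt_or_ge (V.erase i).card 3 with h5 | h5
    · -- two primes left
      have h4 : (V.erase i).card = 2 := by omega
      unfold TR
      rw [if_neg (by omega : ¬ (V.erase i).card ≤ 1), if_pos h4, if_neg (by omega),
        if_neg (by omega), hprod]
      by_cases h6 : O = V.erase i
      · rw [h6, Finset.sdiff_self, Finset.prod_empty, mul_one, FF_pair _ _ h4]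
        ring
      · have h7 : O.card < 2 := by
          rw [← h4]
          exact Finset.card_lt_card (Finset.ssubset_iff_subset_ne.2 ⟨hsub, h6⟩)
        rw [FF_small _ _ h7, zero_mul]
        rcases O.eq_empty_or_nonempty with h8 | ⟨a, ha⟩
        · rw [h8, Finset.sum_empty, zero_mul]
        · have h9 : O = {a} := by
            have h11 : O.card = 1 := by
              have := Finset.card_pos.2 ⟨a, ha⟩
              omega
            obtain ⟨b, hb⟩ := Finset.card_eq_one.1 h11
            rw [hb, Finset.mem_singleton] at ha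
            rw [hb, ha]
          have h10 := Od_wt' hp hW
          rw [← hO, h9, Finset.sum_singleton] at h10
          rw [Finset.prod_eq_zero (hsub ha) h10, mul_zero]
    · unfold TR
      rw [if_neg (by omega : ¬ (V.erase i).card ≤ 1), if_neg (by omega : ¬ (V.erase i).card = 2),
        if_neg (by omega), if_neg (by omega), hprod]
      ring

/-- **the main congruence** -/
theorem R_cg (hp : PF pr) {r : ι} (hw : wq (pr r) % 2 = 1) (h2 : v 2 < 1) (h : GLat L Ω) :
    ∀ V, r ∈ V → ∀ e, Wt pr V e % 4 = 2 → ∀ [Fintype (RQ (DD pr V))],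
      Cg v (SF (Rf L) Ω pr V e * (1 + I) / (1 + I) ^ (V.card - 1))
        (uu (TR pr V (Pool.Agent.Y699.Od V e))) := by
  classical
  have h1I : (1 + I : ℂ) ≠ 0 := one_I_ne
  refine ind_e hw ?_ ?_ ?_
  · intro e hW _
    have hr : r ∈ ({r} : Finset ι) := Finset.mem_singleton_self r
    have her : ({r} : Finset ι).erase r = ∅ := by simp
    have h1 := rel_le (v := v) h2 h hp hr hw (e := e) (by rw [her]; simp) hW (fn_Rf h)
      (fun z hz => Rf_le h2 h hz)
    rw [her, Finset.powerset_empty, Finset.sum_singleton, es_empty, Finset.card_empty, pow_zero,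
      one_mul, Finset.card_singleton, Nat.sub_self, pow_zero] at h1
    rw [Finset.card_singleton, Nat.sub_self, pow_zero, div_one]
    unfold TR
    rw [Finset.card_singleton, if_pos le_rfl, uu_zero]
    apply Cg.zero
    rw [map_mul]
    exact lt_of_le_of_lt (mul_le_of_le_one_left' h1) (v_pi_lt h2)
  · intro V hr e hW i hi hei ih _
    have hiV := Finset.mem_of_mem_erase hi
    have hir : i ≠ r := (Finset.mem_erase.1 hi).1
    have hfin := H385.he1_finite (DD_ne hp (V.erase i))
    letI := Fintype.ofFinite (RQ (DD pr (V.erase i)))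
    have c1 : Cg v (SF (Rf L) Ω pr (V.erase i) e * (1 + I) / (1 + I) ^ ((V.erase i).card - 1))
        (uu (TR pr (V.erase i) (Pool.Agent.Y699.Od (V.erase i) e))) := ih
    have hrV : r ∈ V.erase i := Finset.mem_erase.2 ⟨hir.symm, hr⟩
    have hc : 1 ≤ (V.erase i).card := Finset.card_pos.2 ⟨r, hrV⟩
    have hcV : V.card = (V.erase i).card + 1 := by
      rw [Finset.card_erase_of_mem hiV]
      have := Finset.card_pos.2 ⟨r, hr⟩
      omega
    have hW' : Wt pr (V.erase i) e % 4 = 2 := by rw [Wt_erase hiV hei]; exact hW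
    have c2 := fac4_cg (v := v) h2 hp (e := e) (Finset.notMem_erase i V)
    have c3 := M_cg (v := v) hp hw h2 h (V.erase i) hrV e hW'
    have c4' := W_cg (v := v) h2 hp i
    have c5 : Cg v ((1 + I) ^ 2 * (SF (Rf L) Ω pr (V.erase i) e * (1 + I) /
        (1 + I) ^ ((V.erase i).card - 1))) 0 := by
      apply Cg.zero
      rw [map_mul, map_pow]
      refine lt_of_le_of_lt (mul_le_of_le_one_right' c1.l) ?_
      exact pow_lt_one' (v_pi_lt h2) (by norm_num)
    have c6 := (c2.mul c1).add (c4'.mul (c3.sub c5))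
    rw [sub_zero, ← uu_mul, ← uu_mul] at c6
    have c7 := c6.trans (uu_add h2 _ _).symm
    rw [TR_erase hp hw hiV hrV hei hW] at c7
    have e3 : (tc (pr i) - tc (c4 pr (V.erase i) e (pr i))) / (1 + I) *
        (SF (Rf L) Ω pr (V.erase i) e * (1 + I) / (1 + I) ^ ((V.erase i).card - 1)) +
        (tc (pr i) - tc (pr i) ^ 2) / (1 + I) ^ 3 *
        (SF (gh L) Ω pr (V.erase i) e / (1 + I) ^ ((V.erase i).card - 1) -
          (1 + I) ^ 2 * (SF (Rf L) Ω pr (V.erase i) e * (1 + I) /
            (1 + I) ^ ((V.erase i).card - 1))) =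
        SF (Rf L) Ω pr V e * (1 + I) / (1 + I) ^ (V.card - 1) := by
      rw [R_erase h hp hiV hei hW]
      have e4 : V.card - 1 = ((V.erase i).card - 1) + 1 := by omega
      rw [e4, pow_succ (1 + I) ((V.erase i).card - 1)]
      field_simp
    rw [e3] at c7
    exact c7
  · intro V hr hc e hW he ih _
    have h1 := rel_le (v := v) h2 h hp hr hw he hW (fn_Rf h) (fun z hz => Rf_le h2 h hz)
    have h3 : v (∑ S ∈ (V.erase r).powerset, (-1) ^ S.card *
        (SF (Rf L) Ω pr V (es pr r e S) * (1 + I) / (1 + I) ^ (V.card - 1))) < 1 := by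
      have e2 : ∑ S ∈ (V.erase r).powerset, (-1) ^ S.card *
          (SF (Rf L) Ω pr V (es pr r e S) * (1 + I) / (1 + I) ^ (V.card - 1)) =
          (∑ S ∈ (V.erase r).powerset, (-1) ^ S.card * SF (Rf L) Ω pr V (es pr r e S)) /
            (1 + I) ^ (V.card - 1) * (1 + I) := by
        rw [Finset.sum_div, Finset.sum_mul]
        exact Finset.sum_congr rfl fun S _ => by ring
      rw [e2, map_mul, map_div₀, map_pow]
      refine lt_of_le_of_lt (mul_le_of_le_one_left' ?_) (v_pi_lt h2)
      exact div_le_one_of_le₀ h1 zero_le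
    have h4 := step_cg h2 (Finset.empty_mem_powerset _) h3
      (T := fun S => TR pr V (Pool.Agent.Y699.Od V (es pr r e S)))
      (fun S hS => ih S hS) (sum_TR hp hr hw hc he hW)
    rwa [es_empty] at h4

lemma Ce_I : Ce I = (1 + I) ^ 3 := by
  unfold Ce
  have h1I : (1 + I : ℂ) ≠ 0 := one_I_ne
  have e : (I + I) / (1 + I) = 1 + I := by
    rw [div_eq_iff h1I]
    linear_combination (-1) * I_sq
  rw [e]
  linear_combination (-2 - I) * I_sq

/-- **the central value** -/
theorem M_main (hp : PF pr) {r : ι} (hw : wq (pr r) % 2 = 1) (h2 : v 2 < 1) (h : GLat L Ω)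
    {V : Finset ι} (hr : r ∈ V) {e : ι → ℕ} (hW : Wt pr V e % 4 = 2) (he : et pr V e = I)
    [Fintype (RQ (DD pr V))] :
    Cg v (SF (gh L) Ω pr V e / (1 + I) ^ (V.card + 1))
      (uu (TR pr V (Pool.Agent.Y699.Od V e))) := by
  have h1I : (1 + I : ℂ) ≠ 0 := one_I_ne
  have c1 := R_cg (v := v) hp hw h2 h V hr e hW
  have h1 := P_le (v := v) hp hw h2 h V hr e hW
  have c2 : Cg v ((1 + I) * (SF (ph L) Ω pr V e / (1 + I) ^ (V.card - 1))) 0 := by
    apply Cg.zero
    rw [map_mul, map_div₀, map_pow]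
    refine lt_of_le_of_lt (mul_le_of_le_one_right' ?_) (v_pi_lt h2)
    exact div_le_one_of_le₀ h1 zero_le
  have c3 := c2.add c1
  rw [zero_add] at c3
  have hcard : 1 ≤ V.card := Finset.card_pos.2 ⟨r, hr⟩
  have e3 : (1 + I) * (SF (ph L) Ω pr V e / (1 + I) ^ (V.card - 1)) +
      SF (Rf L) Ω pr V e * (1 + I) / (1 + I) ^ (V.card - 1) =
      SF (gh L) Ω pr V e / (1 + I) ^ (V.card + 1) := by
    rw [M_eq h hp V e, he, Ce_I]
    have e4 : V.card + 1 = (V.card - 1) + 2 := by omega
    rw [e4, pow_add]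
    field_simp
  rw [e3] at c3
  exact c3

end Pool.Agent.E8helper21.QT
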