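import Pool.Agent.Y699.Qj

/-!
The Jacobi sums without hypothesis, and the residue fields of the primes of degree one.
-/

set_option autoImplicit false
set_option linter.unusedSectionVars false

open NumberField
open H385 (ZI RQ im1 nrm)

namespace Pool.Agent.E8helper21.QT

open Pool.Agent.Y699
open Pool.Agent.W164.RC (tc_mul tc_star two2 prim_iff_dvd unit_norm unit_cases Ip Ip_spec Ip_exists
  Ip_one Ip_three dg aD_roots)
open Pool.Agent.H304R2.EC.A1 (prim prim_mul prim_cancel prim_one prim_norm_odd prim_star eq_one_of_prim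
  norm_def' re_mul' im_mul' eq_of_dvd prim_ne_zero exists_prim)
open Pool.Agent.H304R3.HK (tc)

/-- the field of Gaussian numbers -/
abbrev GF : Type := FractionRing ZI

noncomputable instance : CharZero GF := by
  have : FaithfulSMul ℤ GF := inferInstance
  infer_instance

lemma gf_fin : Module.Finite ℚ GF := by
  refine ⟨⟨{1, algebraMap ZI GF im1}, ?_⟩⟩
  rw [eq_top_iff]
  intro x _
  obtain ⟨a, b, hb, rfl⟩ := IsFractionRing.div_surjective (A := ZI) x
  have hb0 : b ≠ 0 := nonZeroDivisors.ne_zero hb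
  have hn : (b.norm : ZI) = b * star b := (Zsqrtd.norm_eq_mul_conj b)
  have hn0 : b.norm ≠ 0 := by
    intro h
    rw [h] at hn
    have h1 : b * star b = 0 := by rw [← hn]; simp
    rcases mul_eq_zero.1 h1 with h2 | h2
    · exact hb0 h2
    · exact hb0 (star_eq_zero.1 h2)
  have hbb : algebraMap ZI GF b ≠ 0 := by
    rw [Ne, IsFractionRing.to_map_eq_zero_iff]
    exact hb0
  have hnn : (b.norm : GF) ≠ 0 := by exact_mod_cast hn0
  set c : ZI := a * star b with hc
  have h1 : algebraMap ZI GF a / algebraMap ZI GF b =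
      ((c.re : ℚ) / (b.norm : ℚ)) • (1 : GF) + ((c.im : ℚ) / (b.norm : ℚ)) • algebraMap ZI GF im1 := by
    have h2 : c = (c.re : ZI) + (c.im : ZI) * im1 := by
      ext
      · simp [im1]
      · simp [im1]
    have h3 : algebraMap ZI GF c = (c.re : GF) + (c.im : GF) * algebraMap ZI GF im1 := by
      conv_lhs => rw [h2]
      rw [map_add, map_mul, map_intCast, map_intCast]
    have h4 := congrArg (algebraMap ZI GF) hn
    rw [map_intCast, map_mul] at h4
    have h5 : algebraMap ZI GF c = algebraMap ZI GF a * algebraMap ZI GF (star b) := by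
      rw [hc, map_mul]
    rw [Rat.smul_def, Rat.smul_def, div_eq_iff hbb]
    push_cast
    have h6 : algebraMap ZI GF a * (b.norm : GF) =
        ((c.re : GF) + (c.im : GF) * algebraMap ZI GF im1) * algebraMap ZI GF b := by
      rw [← h3, h4, h5]
      ring
    field_simp
    linear_combination h6
  rw [h1]
  refine Submodule.add_mem _ (Submodule.smul_mem _ _ (Submodule.subset_span ?_))
    (Submodule.smul_mem _ _ (Submodule.subset_span ?_))
  · simp
  · simp

noncomputable instance : NumberField GF where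
  to_charZero := inferInstance
  to_finiteDimensional := gf_fin

noncomputable def eGF : ZI ≃+* 𝓞 GF := by
  haveI : Algebra.IsIntegral ℤ ZI := by
    constructor
    intro x
    refine ⟨Polynomial.X ^ 2 - Polynomial.C (2 * x.re) * Polynomial.X + Polynomial.C (x.norm), ?_, ?_⟩
    · monicity!
    · simp only [Polynomial.eval₂_add, Polynomial.eval₂_sub, Polynomial.eval₂_mul,
        Polynomial.eval₂_pow, Polynomial.eval₂_X, Polynomial.eval₂_C]
      have h1 : (algebraMap ℤ ZI) x.norm = x * star x := Zsqrtd.norm_eq_mul_conj x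
      have h2 : (algebraMap ℤ ZI) (2 * x.re) = x + star x := by
        ext
        · simp
          ring
        · simp
      rw [h1, h2]
      ring
  haveI : IsIntegralClosure ZI ℤ GF := IsIntegralClosure.of_isIntegrallyClosed ZI ℤ GF
  exact (NumberField.RingOfIntegers.equiv (K := GF) ZI).symm

theorem JJ_all : JJ := JJ_of eGF


/-- the sum of the quadratic characters -/
lemma base_zmod {p : ℕ} [Fact p.Prime] (h1 : p % 4 = 1) {z : ZI} (hz : z ∈ Ip p) :
    ∑ x : ZMod p, quadraticChar (ZMod p) (x ^ 3 - x) = -2 * z.re := by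
  have hp : p.Prime := Fact.out
  have h2 : p ≠ 2 := by omega
  obtain ⟨α, β, hs, -, ha, hb⟩ := aD_roots hp h2 hz
  have hd : dg p = 1 := by unfold dg; rw [if_pos h1]
  rw [hd, pow_one] at ha hb
  rw [ha, hb] at hs
  have e2 : tc z + tc (star z) = ((2 * z.re : ℤ) : ℂ) := by
    rw [tc_star]
    have h5 := Complex.add_conj (tc z)
    rw [h5]
    have h6 : (tc z).re = z.re := by
      simp [tc, GaussianInt.toComplex_def']
    rw [h6]
    push_cast
    ring
  rw [e2, Int.cast_inj] at hs
  rw [H385.aD_one, Pool.Agent.H304R2.EC.Pts.aE_eq_SS h2] at hs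
  have h3 : Pool.Agent.H304R2.EC.Pts.SS (1 : ZMod p) =
      ∑ x : ZMod p, quadraticChar (ZMod p) (x ^ 3 - x) := by
    unfold Pool.Agent.H304R2.EC.Pts.SS
    refine Finset.sum_congr rfl fun x _ => ?_
    congr 1
    ring
  rw [← h3]
  linarith

/-- the residue field -/
theorem exists_res {p : ℕ} [Fact p.Prime] (h1 : p % 4 = 1) {z : ZI} (hz : z ∈ Ip p) :
    ∃ ρ : ZI →+* ZMod p, Res z (ZMod p) ρ := by
  have hp : p.Prime := Fact.out
  obtain ⟨hprm, hpr, hn, hdvd⟩ := Ip_spec hp hz
  have hd : dg p = 1 := by unfold dg; rw [if_pos h1]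
  rw [hd, pow_one] at hn
  have hnorm : z.re ^ 2 + z.im ^ 2 = p := by
    rw [← norm_def', ← nrm_cast, hn]
  have hnZ : (z.re : ZMod p) ^ 2 + (z.im : ZMod p) ^ 2 = 0 := by
    have := congrArg (Int.cast : ℤ → ZMod p) hnorm
    push_cast at this
    rw [this, ZMod.natCast_self]
  have hb : (z.im : ZMod p) ≠ 0 := by
    intro h0
    rw [h0] at hnZ
    have h3 : (z.re : ZMod p) = 0 := by
      have : (z.re : ZMod p) ^ 2 = 0 := by linear_combination hnZ
      exact pow_eq_zero_iff (two_ne_zero) |>.1 this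
    rw [ZMod.intCast_zmod_eq_zero_iff_dvd] at h0 h3
    obtain ⟨c, hc⟩ := h0
    obtain ⟨d, hd⟩ := h3
    rw [hc, hd] at hnorm
    have h4 : (p : ℤ) * ((p : ℤ) * (d ^ 2 + c ^ 2)) = p * 1 := by linear_combination hnorm
    have hp0 : (p : ℤ) ≠ 0 := by exact_mod_cast hp.ne_zero
    have h5 := mul_left_cancel₀ hp0 h4
    have h6 : (p : ℤ) ∣ 1 := ⟨_, h5.symm⟩
    have h7 := Int.le_of_dvd one_pos h6
    have := hp.two_le
    omega
  set r : ZMod p := -(z.re : ZMod p) / z.im with hr
  have hrr : r * r = ((-1 : ℤ) : ZMod p) := by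
    rw [hr]
    push_cast
    field_simp
    linear_combination hnZ
  set ρ : ZI →+* ZMod p := Zsqrtd.lift ⟨r, hrr⟩ with hρ
  have hρa : ∀ a : ZI, ρ a = (a.re : ZMod p) + (a.im : ZMod p) * r := by
    intro a
    rw [hρ, Zsqrtd.lift_apply_apply]
  have hρz : ρ z = 0 := by
    rw [hρa, hr]
    field_simp
    ring
  refine ⟨ρ, ⟨hpr, hprm⟩, ?_, ?_, ?_⟩
  · intro x
    refine ⟨((x.val : ℕ) : ZI), ?_⟩
    rw [map_natCast, ZMod.natCast_zmod_val]
  · intro a
    have hmax : (Ideal.span {z}).IsMaximal :=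
      PrincipalIdealRing.isMaximal_of_irreducible hpr.irreducible
    have hle : Ideal.span {z} ≤ RingHom.ker ρ := by
      rw [Ideal.span_singleton_le_iff_mem]
      exact hρz
    have hne : RingHom.ker ρ ≠ ⊤ := RingHom.ker_ne_top ρ
    have heq := hmax.eq_of_le hne hle
    rw [← Ideal.mem_span_singleton, heq]
    rfl
  · rw [ZMod.card, hn]

/-- the sum over the twist, split primes -/
theorem sum_split {p : ℕ} [Fact p.Prime] (h1 : p % 4 = 1) {z : ZI} (hz : z ∈ Ip p) {D : ℤ}
    (hD : ¬ (p : ℤ) ∣ D) :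
    ((-∑ x : ZMod p, quadraticChar (ZMod p) (x ^ 3 - (D : ZMod p) * x) : ℤ) : ZI) =
      star (q4 z (D : ZI)) * z + q4 z (D : ZI) * star z := by
  classical
  obtain ⟨ρ, h⟩ := exists_res h1 hz
  have hJ := h.J_eq (by convert base_zmod h1 hz)
  have hD0 : (D : ZMod p) ≠ 0 := by
    rwa [Ne, ZMod.intCast_zmod_eq_zero_iff_dvd]
  have h2 := h.sum_twist hD0
  have e2 : h.chi (D : ZMod p) = q4 z (D : ZI) := by
    rw [← h.chi_map, map_intCast ρ]
  rw [hJ, e2] at h2
  have e3 : (∑ x : ZMod p, quadraticChar (ZMod p) (x ^ 3 - (D : ZMod p) * x) : ℤ) =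
      ∑ x : ZMod p, quadraticChar (ZMod p) (x ^ 3 - (D : ZMod p) * x) := rfl
  rw [Int.cast_neg]
  have h3 : ((∑ x : ZMod p, quadraticChar (ZMod p) (x ^ 3 - (D : ZMod p) * x) : ℤ) : ZI) =
      star (q4 z (D : ZI)) * -z + q4 z (D : ZI) * star (-z) := by
    rw [← h2]
  rw [h3, star_neg]
  ring

/-- the sum over the twist, inert primes -/
theorem sum_inert {p : ℕ} [Fact p.Prime] (h3 : p % 4 = 3) (D : ZMod p) :
    ∑ x : ZMod p, quadraticChar (ZMod p) (x ^ 3 - D * x) = 0 := by
  have h1 : ∑ x : ZMod p, quadraticChar (ZMod p) (x ^ 3 - D * x) =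
      -∑ x : ZMod p, quadraticChar (ZMod p) (x ^ 3 - D * x) := by
    conv_lhs => rw [← Equiv.sum_comp (Equiv.neg (ZMod p))]
    rw [← Finset.sum_neg_distrib]
    refine Finset.sum_congr rfl fun x _ => ?_
    have e1 : (Equiv.neg (ZMod p)) x ^ 3 - D * (Equiv.neg (ZMod p)) x =
        (-1) * (x ^ 3 - D * x) := by
      rw [Equiv.neg_apply]
      ring
    rw [e1, map_mul]
    have h4 : quadraticChar (ZMod p) (-1) = -1 := by
      rw [quadraticChar_neg_one_iff_not_isSquare, ZMod.exists_sq_eq_neg_one_iff]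
      simp [h3]
    rw [h4]
    ring
  omega

end Pool.Agent.E8helper21.QT
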