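import Pool.Agent.Y699.Qe
import Pool.Agent.E8helper21.QT.Jg
import Pool.Agent.E8helper21.QT.Cong2

/-!
The family of the rational twists: the primary primes above the prime factors, the character and the
Euler product over the rational numbers.
-/

set_option autoImplicit false
set_option linter.unusedSectionVars false

open Complex

namespace Pool.Agent.E8helper21.QT

open Pool.Agent.Y699
open H385 (ZI RQ im1 nrm)
open Pool.Agent.W164.RC (tc_mul tc_star two2 prim_iff_dvd unit_norm unit_cases Ip Ip_spec Ip_exists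
  Ip_one Ip_three dg aD_roots local_poly local_two ep_hecke)
open Pool.Agent.H304R2.EC.A1 (prim prim_mul prim_cancel prim_one prim_norm_odd prim_star eq_one_of_prim
  norm_def' re_mul' im_mul' eq_of_dvd prim_ne_zero exists_prim)
open Pool.Agent.H304R3.HK (tc HC LH bH psi psi_apply uh_psi goodH bb ee UH tc_star_mul tc_ne_zero)

/-- the primary prime element above `p` -/
noncomputable def gp (p : ℕ) : ZI :=
  if h : p.Prime ∧ p % 4 = 1 then (Ip_one h.1 h.2).choose else 0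

lemma gp_spec {p : ℕ} (hp : p.Prime) (h1 : p % 4 = 1) : gp p ≠ star (gp p) ∧ prim (gp p) ∧
    gp p * star (gp p) = (p : ZI) ∧ nrm (gp p) = p ∧ Ip p = {gp p, star (gp p)} := by
  unfold gp
  rw [dif_pos ⟨hp, h1⟩]
  exact (Ip_one hp h1).choose_spec

/-- the class of the sets of primes -/
def Cls (P : Finset ℕ) : Prop := ∀ p ∈ P, p.Prime ∧ p % 4 = 1

/-- the index type -/
abbrev Ix (P : Finset ℕ) : Type := {p // p ∈ P} × Bool

/-- the primes -/
noncomputable def prP (P : Finset ℕ) (i : Ix P) : ZI := if i.2 then star (gp i.1) else gp i.1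

variable {P : Finset ℕ}

lemma prP_mem (hP : Cls P) (i : Ix P) : prP P i ∈ Ip (i.1 : ℕ) := by
  obtain ⟨h1, h2⟩ := hP i.1 i.1.2
  obtain ⟨-, -, -, -, h3⟩ := gp_spec h1 h2
  rw [h3]
  unfold prP
  split_ifs <;> simp

lemma prP_nrm (hP : Cls P) (i : Ix P) : nrm (prP P i) = (i.1 : ℕ) := by
  obtain ⟨h1, h2⟩ := hP i.1 i.1.2
  obtain ⟨-, -, -, h3, -⟩ := gp_spec h1 h2
  unfold prP
  split_ifs
  · rw [nrm_star, h3]
  · exact h3

lemma pf (hP : Cls P) : PF (prP P) := by
  refine ⟨fun i => PP_ip (hP i.1 i.1.2).1 (prP_mem hP i), ?_⟩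
  rintro ⟨⟨p, hp⟩, b⟩ ⟨⟨q, hq⟩, c⟩ h
  have h1 := prP_nrm hP (⟨p, hp⟩, b)
  have h2 := prP_nrm hP (⟨q, hq⟩, c)
  rw [h, h2] at h1
  have h3 : q = p := h1
  subst h3
  obtain ⟨h4, -⟩ := gp_spec (hP q hq).1 (hP q hq).2
  unfold prP at h
  simp only at h
  cases b <;> cases c <;> simp only [if_true, if_false, Bool.false_eq_true] at h ⊢
  · exact absurd h h4
  · exact absurd h.symm h4

lemma prod_ix {M : Type*} [CommMonoid M] (f : Ix P → M) :
    ∏ i, f i = ∏ p : {p // p ∈ P}, (f (p, true) * f (p, false)) := by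
  rw [Fintype.prod_prod_type]
  refine Finset.prod_congr rfl fun p _ => ?_
  rw [Fintype.prod_bool]

lemma sum_ix {M : Type*} [AddCommMonoid M] (f : Ix P → M) :
    ∑ i, f i = ∑ p : {p // p ∈ P}, (f (p, true) + f (p, false)) := by
  rw [Fintype.sum_prod_type]
  refine Finset.sum_congr rfl fun p _ => ?_
  rw [Fintype.sum_bool]

/-- the product -/
def nD (P : Finset ℕ) : ℕ := ∏ p ∈ P, p

lemma DD_eq (hP : Cls P) : DD (prP P) Finset.univ = ((nD P : ℕ) : ZI) := by
  unfold DD nD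
  rw [prod_ix, Nat.cast_prod, ← Finset.prod_coe_sort P (fun p => ((p : ℕ) : ZI))]
  refine Finset.prod_congr rfl fun p _ => ?_
  obtain ⟨-, -, h3, -, -⟩ := gp_spec (hP p p.2).1 (hP p p.2).2
  rw [← h3]
  unfold prP
  simp only [if_true, if_false, Bool.false_eq_true]
  ring

/-- the sum of the quarters -/
def sq4 (P : Finset ℕ) : ℕ := ∑ p ∈ P, p / 4

lemma sum_wq (hP : Cls P) : ∑ i : Ix P, wq (prP P i) = 2 * sq4 P := by
  unfold sq4
  rw [sum_ix, ← Finset.sum_coe_sort P (fun p => p / 4), Finset.mul_sum]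
  refine Finset.sum_congr rfl fun p _ => ?_
  unfold wq
  rw [prP_nrm hP, prP_nrm hP]
  ring

lemma prod_mod16 (hP : Cls P) : nD P % 16 = (1 + 4 * sq4 P) % 16 := by
  classical
  unfold nD sq4
  induction P using Finset.induction_on with
  | empty => simp
  | insert a S ha ih =>
    have h1 := ih (fun p hp => hP p (Finset.mem_insert_of_mem hp))
    have h2 := (hP a (Finset.mem_insert_self _ _)).2
    rw [Finset.prod_insert ha, Finset.sum_insert ha, Nat.mul_mod, h1]
    obtain ⟨k, hk⟩ : ∃ k, a = 4 * k + 1 := ⟨a / 4, by omega⟩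
    have hk4 : (4 * k + 1) / 4 = k := by omega
    rw [hk, hk4, ← Nat.mul_mod]
    set t := ∑ p ∈ S, p / 4
    have e : (4 * k + 1) * (1 + 4 * t) = (1 + 4 * (k + t)) + 16 * (k * t) := by ring
    rw [e, Nat.add_mul_mod_self_left]

/-- the condition modulo `16` -/
lemma sq4_mod (hP : Cls P) (h : nD P % 16 = 13) : sq4 P % 4 = 3 := by
  have := prod_mod16 hP
  omega

lemma Wt_eq (hP : Cls P) (h : nD P % 16 = 13) : Wt (prP P) Finset.univ on1 % 4 = 2 := by
  rw [Wt_on1, sum_wq hP]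
  have := sq4_mod hP h
  omega

lemma exists_r (hP : Cls P) (h : nD P % 16 = 13) : ∃ r : Ix P, wq (prP P r) % 2 = 1 := by
  by_contra hc
  push Not at hc
  have h1 := sum_wq hP
  have h2 := sq4_mod hP h
  have h3 : ∀ p : {p // p ∈ P}, (p : ℕ) / 4 % 2 = 0 := by
    intro p
    have h4 := hc (p, false)
    unfold wq at h4
    rw [prP_nrm hP] at h4
    simp only at h4
    omega
  have h5 : sq4 P % 2 = 0 := by
    unfold sq4
    rw [← Finset.sum_coe_sort P (fun p => p / 4)]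
    refine Finset.sum_nat_mod _ _ _ ▸ ?_
    rw [Finset.sum_congr rfl fun p _ => h3 p, Finset.sum_const_zero, Nat.zero_mod]
  omega

lemma star_pi1 : star pi1 = im1 ^ 3 * pi1 := by decide

lemma c4_prod (hP : Cls P) (z : ZI) : c4 (prP P) Finset.univ on1 z =
    ∏ p : {p // p ∈ P}, (q4 (star (gp p)) z * q4 (gp p) z) := by
  rw [c4_one_exp (pf hP), prod_ix]
  refine Finset.prod_congr rfl fun p _ => ?_
  unfold prP
  simp

lemma gp_pp (hP : Cls P) (p : {p // p ∈ P}) : PP (gp p) := by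
  have := (pf hP).pp (p, false)
  unfold prP at this
  simpa using this

lemma c4_star (hP : Cls P) (z : ZI) :
    c4 (prP P) Finset.univ on1 (star z) = star (c4 (prP P) Finset.univ on1 z) := by
  rw [c4_prod hP, c4_prod hP, star_prod]
  refine Finset.prod_congr rfl fun p _ => ?_
  have h1 := q4_star (gp_pp hP p) z
  have h2 := q4_star (gp_pp hP p).star z
  rw [star_star] at h2
  rw [h1, h2, star_mul]

lemma c4_rat (hP : Cls P) {n : ℤ} (h : ∀ p ∈ P, ¬ (p : ℤ) ∣ n) :
    c4 (prP P) Finset.univ on1 (n : ZI) = 1 := by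
  rw [c4_prod hP]
  refine Finset.prod_eq_one fun p _ => ?_
  have h1 := q4_star (gp_pp hP p) (n : ZI)
  rw [star_intCast] at h1
  rw [h1, mul_comm]
  apply unit_star_mul
  apply q4_norm (gp_pp hP p)
  obtain ⟨-, -, h3, -, -⟩ := gp_spec (hP p p.2).1 (hP p p.2).2
  exact q4_int_not_dvd (hP p p.2).1 (gp_pp hP p) ⟨_, h3.symm⟩ (h p p.2)

lemma c4_pi_val (hP : Cls P) : c4 (prP P) Finset.univ on1 pi1 = im1 ^ sq4 P := by
  rw [c4_prod hP]
  unfold sq4
  rw [← Finset.sum_coe_sort P (fun p => p / 4), ← Finset.prod_pow_eq_pow_sum]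
  refine Finset.prod_congr rfl fun p _ => ?_
  have hpp := gp_pp hP p
  have h1 := q4_star hpp (star pi1)
  rw [star_star] at h1
  have h2 : (im1 ^ 3 : ZI).norm = 1 := by decide
  have h3 := q4_norm hpp (pi1_ndvd hpp)
  have h4 : nrm (gp p) = (p : ℕ) := (gp_spec (hP p p.2).1 (hP p p.2).2).2.2.2.1
  rw [h1, star_pi1, q4_mul hpp, star_mul, q4_unit hpp h2, h4]
  have h5 := unit_star_mul h3
  have h6 : star ((im1 ^ 3 : ZI) ^ ((p : ℕ) / 4)) = im1 ^ ((p : ℕ) / 4) := by
    rw [star_pow]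
    congr 1
  rw [h6]
  linear_combination (im1 ^ ((p : ℕ) / 4)) * h5

lemma et_eq (hP : Cls P) (h : nD P % 16 = 13) : et (prP P) Finset.univ on1 = I := by
  unfold et
  rw [c4_pi_val hP, unit_pow_mod im1_norm (n := 3) (by rw [sq4_mod hP h])]
  have e : star ((im1 : ZI) ^ 3) = im1 := by decide
  rw [e, tc_im1]

/-- reciprocity for the product -/
theorem c4_rec' {ι : Type} [DecidableEq ι] {pr : ι → ZI} (J : JJ) (hp : PF pr) {V : Finset ι}
    (hW : (∑ i ∈ V, wq (pr i)) % 2 = 0) {z : ZI}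
    (hz : PP z) (hzD : ¬ z ∣ DD pr V) : q4 z (DD pr V) = c4 pr V on1 z := by
  rw [c4_one_exp hp]
  have hne : ∀ i ∈ V, z ≠ pr i := by
    intro i hi h
    exact hzD (h ▸ dvd_DD hi)
  have e2 : q4 z (DD pr V) = ∏ i ∈ V, q4 z (pr i) := by
    unfold DD
    exact q4_prod hz V pr
  rw [e2]
  have e3 : ∏ i ∈ V, q4 z (pr i) = (∏ i ∈ V, q4 (pr i) z) * (-1) ^ (wq z * ∑ i ∈ V, wq (pr i)) := by
    rw [Finset.mul_sum, ← Finset.prod_pow_eq_pow_sum, ← Finset.prod_mul_distrib]
    exact Finset.prod_congr rfl fun i hi => q4_rec J hz (hp.pp i) (hne i hi)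
  rw [e3]
  have e4 : (-1 : ZI) ^ (wq z * ∑ i ∈ V, wq (pr i)) = 1 := by
    apply Even.neg_one_pow
    exact (Nat.even_iff.2 hW).mul_left _
  rw [e4, mul_one]

/-- the curve -/
def cv (D : ℤ) : WeierstrassCurve ℤ := ⟨0, 0, 0, -D, 0⟩

/-- the number of the affine points modulo `p` -/
noncomputable def ptsC (D : ℤ) (p : ℕ) : ℕ :=
  Nat.card {Q : ZMod p × ZMod p // ((cv D).map (Int.castRingHom (ZMod p))).toAffine.Equation Q.1 Q.2}

/-- the trace -/
noncomputable def aC (D : ℤ) (p : ℕ) : ℤ := p - ptsC D p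

lemma aC_eq {p : ℕ} [Fact p.Prime] (h2 : p ≠ 2) (D : ℤ) :
    aC D p = -∑ x : ZMod p, quadraticChar (ZMod p) (x ^ 3 - (D : ZMod p) * x) := by
  classical
  have h1 := Pool.Agent.H82R3.EK.card_points (k := ZMod p) (by rwa [ZMod.ringChar_zmod_n])
    (fun x => x ^ 3 - (D : ZMod p) * x)
  unfold aC ptsC
  have h3 : Nat.card {Q : ZMod p × ZMod p //
      ((cv D).map (Int.castRingHom (ZMod p))).toAffine.Equation Q.1 Q.2} =
      Nat.card {x : ZMod p × ZMod p // x.2 ^ 2 = x.1 ^ 3 - (D : ZMod p) * x.1} := by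
    refine Nat.card_congr (Equiv.subtypeEquivRight fun x => ?_)
    rw [WeierstrassCurve.Affine.equation_iff]
    unfold cv
    simp only [WeierstrassCurve.map, map_zero, zero_mul, add_zero, map_neg, eq_intCast]
    constructor <;> intro h <;> linear_combination h
  rw [h3, h1, ZMod.card]
  ring

lemma aC_bad {p : ℕ} [Fact p.Prime] (h2 : p ≠ 2) {D : ℤ} (hD : (p : ℤ) ∣ D) : aC D p = 0 := by
  rw [aC_eq h2, neg_eq_zero]
  have h1 : (D : ZMod p) = 0 := by rwa [ZMod.intCast_zmod_eq_zero_iff_dvd]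
  rw [h1]
  have h3 : ∀ x : ZMod p, quadraticChar (ZMod p) (x ^ 3 - 0 * x) = quadraticChar (ZMod p) x := by
    intro x
    rw [zero_mul, sub_zero, pow_succ, map_mul]
    by_cases hx : x = 0
    · rw [hx]; simp
    · rw [map_pow, quadraticChar_sq_one hx, one_mul]
  rw [Finset.sum_congr rfl fun x _ => h3 x]
  exact quadraticChar_sum_zero (by rwa [ZMod.ringChar_zmod_n])

lemma aC_two {D : ℤ} (hD : D % 2 = 1) : aC D 2 = 0 := by
  unfold aC ptsC
  have h1 : (D : ZMod 2) = 1 := by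
    have : ((D : ℤ) : ZMod 2) = ((1 : ℤ) : ZMod 2) := by
      rw [ZMod.intCast_eq_intCast_iff_dvd_sub]
      omega
    simpa using this
  have h3 : Nat.card {Q : ZMod 2 × ZMod 2 //
      ((cv D).map (Int.castRingHom (ZMod 2))).toAffine.Equation Q.1 Q.2} =
      Nat.card {x : ZMod 2 × ZMod 2 // x.2 ^ 2 = x.1 ^ 3 - x.1} := by
    refine Nat.card_congr (Equiv.subtypeEquivRight fun x => ?_)
    rw [WeierstrassCurve.Affine.equation_iff]
    unfold cv
    simp only [WeierstrassCurve.map, map_zero, zero_mul, add_zero, map_neg, eq_intCast, h1]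
    constructor <;> intro h <;> linear_combination h
  have h4 : Nat.card {x : ZMod 2 × ZMod 2 // x.2 ^ 2 = x.1 ^ 3 - x.1} = 2 := by
    rw [Nat.card_eq_fintype_card]
    decide
  rw [h3, h4]
  norm_num

lemma cv_disc (D : ℤ) : (cv D).Δ = 64 * D ^ 3 := by
  unfold cv WeierstrassCurve.Δ WeierstrassCurve.b₂ WeierstrassCurve.b₄ WeierstrassCurve.b₆
    WeierstrassCurve.b₈
  ring

/-- the character -/
noncomputable def Xc (hP : Cls P) : ZI →* ℂ := XX4 (pf hP) Finset.univ on1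

lemma Xc_HC (hP : Cls P) (h : nD P % 16 = 13) : HC (cnd (prP P) Finset.univ) (Xc hP) :=
  XX4_HC2 (pf hP) (Wt_eq hP h) (fun _ _ => by norm_num)

lemma Xc_pi1 (hP : Cls P) : Xc hP pi1 = 0 := by
  unfold Xc
  rw [XX4_apply, un_even (by decide), tc_zero, zero_mul]

lemma Xc_prim (hP : Cls P) {z : ZI} (hz : prim z) :
    Xc hP z = (starRingEnd ℂ) (tc (c4 (prP P) Finset.univ on1 z)) := XX4_prim _ _ _ hz

lemma dvd_nD {p : ℕ} (hp : p.Prime) (hP : Cls P) : p ∣ nD P ↔ p ∈ P := by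
  unfold nD
  constructor
  · intro h
    obtain ⟨q, hq, hpq⟩ := (hp.prime.dvd_finsetProd_iff _).1 h
    rwa [(Nat.prime_dvd_prime_iff_eq hp (hP q hq).1).1 hpq]
  · exact fun h => Finset.dvd_prod_of_mem _ h

lemma tc_unit {x : ZI} (hx : x.norm = 1) : tc x * (starRingEnd ℂ) (tc x) = 1 := by
  rw [← tc_star, ← tc_mul, unit_star_mul hx, tc_one]

/-- the Euler factor -/
theorem factor_eq (hP : Cls P) (h : nD P % 16 = 13) {p : ℕ} (hp : p.Prime) (h2 : p ≠ 2) (s : ℂ) :
    ∏ z ∈ Ip p, (1 - Xc hP z * tc z * ((nrm z : ℕ) : ℂ) ^ (-s)) =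
      1 - (aC (nD P) p : ℂ) * ((p : ℕ) : ℂ) ^ (-s) +
        (if ((p : ℕ) : ℤ) ∣ (cv (nD P)).Δ then 0 else ((p : ℕ) : ℂ) ^ (1 - 2 * s)) := by
  haveI := Fact.mk hp
  have hp0 : (p : ℂ) ≠ 0 := by exact_mod_cast hp.ne_zero
  have hΔ : ((p : ℕ) : ℤ) ∣ (cv (nD P)).Δ ↔ p ∈ P := by
    rw [cv_disc, ← dvd_nD hp hP]
    have hpp : Prime (p : ℤ) := Nat.prime_iff_prime_int.1 hp
    constructor
    · intro h3
      rcases hpp.dvd_or_dvd h3 with h4 | h4
      · exfalso
        have h5 : (p : ℤ) ∣ 2 ^ 6 := by norm_num; exact h4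
        have h6 := hpp.dvd_of_dvd_pow h5
        have h7 : p ∣ 2 := by exact_mod_cast h6
        exact h2 ((Nat.prime_dvd_prime_iff_eq hp Nat.prime_two).1 h7)
      · have h5 := hpp.dvd_of_dvd_pow h4
        exact_mod_cast h5
    · intro h3
      have h4 : (p : ℤ) ∣ (nD P : ℤ) := by exact_mod_cast h3
      exact (dvd_pow h4 (by norm_num)).mul_left _
  have e6 : ((p : ℕ) : ℂ) ^ (1 - 2 * s) = (p : ℂ) * (((p : ℕ) : ℂ) ^ (-s)) ^ 2 := by
    have e7 : (1 - 2 * s : ℂ) = 1 + (-s + -s) := by ring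
    rw [e7, Complex.cpow_add _ _ hp0, Complex.cpow_add _ _ hp0, Complex.cpow_one]
    ring
  have h4 : p % 4 = 1 ∨ p % 4 = 3 := by
    rcases hp.eq_two_or_odd with h5 | h5
    · exact absurd h5 h2
    · omega
  rcases h4 with h4 | h4
  · obtain ⟨g1, g2, g3, g4, g5⟩ := gp_spec hp h4
    have hz : gp p ∈ Ip p := by rw [g5]; simp
    rw [g5, Finset.prod_pair g1, nrm_star, g4, Xc_prim hP g2, Xc_prim hP (prim_star g2), c4_star hP,
      tc_star, tc_star, Complex.conj_conj]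
    set c := tc (c4 (prP P) Finset.univ on1 (gp p)) with hc
    have h5 : tc (gp p) * (starRingEnd ℂ) (tc (gp p)) = (p : ℂ) := by
      rw [← tc_star, ← tc_mul, g3]
      unfold tc
      simp
    by_cases hb : p ∈ P
    · have hc0 : c = 0 := by
        have h6 : c4 (prP P) Finset.univ on1 (gp p) = 0 := by
          refine c4_zero _ (Finset.mem_univ ((⟨p, hb⟩, false) : Ix P)) ?_
          unfold prP
          simp
        rw [hc, h6, tc_zero]
      rw [if_pos (hΔ.2 hb), hc0, aC_bad h2 (by exact_mod_cast (dvd_nD hp hP).2 hb)]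
      simp
    · rw [if_neg (fun h6 => hb (hΔ.1 h6)), e6]
      have hDp : ¬ (p : ℤ) ∣ ((nD P : ℕ) : ℤ) := by
        intro h6
        exact hb ((dvd_nD hp hP).1 (by exact_mod_cast h6))
      have hzD : ¬ gp p ∣ DD (prP P) Finset.univ := by
        rw [DD_eq hP]
        have := q4_int_not_dvd hp (PP_ip hp hz) ⟨_, g3.symm⟩ hDp
        simpa using this
      have hrec := c4_rec' JJ_all (pf hP) (V := Finset.univ) (by rw [sum_wq hP]; omega)
        (PP_ip hp hz) hzD
      have h7 := sum_split h4 hz hDp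
      rw [← aC_eq h2] at h7
      have h8 : (((nD P : ℕ) : ℤ) : ZI) = DD (prP P) Finset.univ := by
        rw [DD_eq hP]; push_cast; rfl
      rw [h8, hrec] at h7
      have h9 := congrArg tc h7
      rw [tc_int, tc_add, tc_mul, tc_mul, tc_star, tc_star, ← hc] at h9
      have h10 : c * (starRingEnd ℂ) c = 1 := by
        rw [hc]
        apply tc_unit
        rw [← hrec]
        exact q4_norm (PP_ip hp hz) hzD
      rw [h9]
      linear_combination (((p : ℂ) ^ (-s)) ^ 2 * c * (starRingEnd ℂ) c) * h5 +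
        (((p : ℂ) ^ (-s)) ^ 2 * p) * h10
  · have hb : p ∉ P := fun hb => by
      have := (hP p hb).2
      omega
    have hz : -(p : ZI) ∈ Ip p := by rw [Ip_three h4]; simp
    have hprm := (Ip_spec hp hz).1
    have hc : c4 (prP P) Finset.univ on1 (-(p : ZI)) = 1 := by
      have h5 := c4_rat hP (n := -(p : ℤ)) (by
        intro q hq h6
        rw [dvd_neg] at h6
        have h7 : q ∣ p := by exact_mod_cast h6
        rw [(Nat.prime_dvd_prime_iff_eq (hP q hq).1 hp).1 h7] at hq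
        exact hb hq)
      push_cast at h5
      exact h5
    rw [Ip_three h4, Finset.prod_singleton, if_neg (fun h6 => hb (hΔ.1 h6)), e6,
      aC_eq h2, sum_inert h4, Xc_prim hP hprm, hc, tc_one, map_one, nrm_inert]
    have e8 : tc (-(p : ZI)) = -(p : ℂ) := by
      unfold tc; simp
    rw [e8]
    push_cast
    rw [Complex.natCast_mul_natCast_cpow]
    ring

/-- **the Euler product** -/
theorem euler (hP : Cls P) (h : nD P % 16 = 13) {s : ℂ} (hs : 3 / 2 < s.re) :
    HasProd (fun p : Nat.Primes => (1 - (aC (nD P) p : ℂ) * ((p : ℕ) : ℂ) ^ (-s) +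
      (if ((p : ℕ) : ℤ) ∣ (cv (nD P)).Δ then 0 else ((p : ℕ) : ℂ) ^ (1 - 2 * s)))⁻¹)
      (LH (Xc hP) (s - 1 / 2)) := by
  obtain ⟨A, hA, hgood⟩ := goodH
  have H := Xc_HC hP h
  have hre : 1 < (s - 1 / 2).re := by
    have : (s - 1 / 2).re = s.re - 1 / 2 := by simp
    rw [this]; linarith
  have h1 := ep_hecke (uh_psi _ _ H) (s - 1 / 2) _ ((hgood _ _ H).2.1 _ hre)
  refine h1.congr_fun fun p => ?_
  by_cases hp2 : (p : ℕ) = 2
  · have e1 : (1 - bb (psi (Xc hP)) (p : ℕ) * (((p : ℕ) : ℂ) ^ (-(s - 1 / 2))) +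
        ee (psi (Xc hP)) (p : ℕ) * (((p : ℕ) : ℂ) ^ (-(s - 1 / 2))) ^ 2) = 1 := by
      rw [hp2, local_two (uh_psi _ _ H)]
      have h4 : psi (Xc hP) ⟨1, 1⟩ = 0 := by
        rw [psi_apply _ (by decide)]
        have h5 : Xc hP ⟨1, 1⟩ = 0 := Xc_pi1 hP
        rw [h5, zero_mul]
      rw [h4, zero_mul, sub_zero]
    rw [e1, hp2, aC_two (by have := h; push_cast; omega), if_pos]
    · simp
    · rw [cv_disc]
      exact ⟨32 * (nD P) ^ 3, by push_cast; ring⟩
  · rw [local_poly (uh_psi _ _ H) p.2 hp2, ← factor_eq hP h p.2 hp2 s]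
    congr 1
    refine Finset.prod_congr rfl fun z hz => ?_
    rw [gpsi_term hz]

/-- the L-function -/
noncomputable def LL (hP : Cls P) (s : ℂ) : ℂ := LH (Xc hP) (s - 1 / 2)

theorem LL_diff (hP : Cls P) (h : nD P % 16 = 13) : Differentiable ℂ (LL hP) := by
  obtain ⟨A, hA, hgood⟩ := goodH
  have h1 := (hgood _ _ (Xc_HC hP h)).1
  exact h1.comp (differentiable_id.sub_const _)

end Pool.Agent.E8helper21.QT
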