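import Pool.Agent.E8helper21.QT.Pad
import Pool.Agent.E8helper21.QT.Fam
import Pool.Agent.Y809.BSD14.Tam1

/-!
The Tamagawa numbers of `y² = x³ - D x`.
-/

set_option autoImplicit false
set_option linter.unusedSectionVars false

namespace Pool.Agent.E8helper21.QT

open scoped Classical
open WeierstrassCurve
open Pool.Agent.Y700 (PtP SingRed E0 tam)

lemma cv_eqn {D : ℤ} {p : ℕ} [Fact p.Prime] {x y : ℚ_[p]} :
    ((cv D).map (Int.castRingHom ℚ_[p])).toAffine.Equation x y ↔ y ^ 2 = x ^ 3 - D * x := by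
  rw [Affine.equation_iff]
  show y ^ 2 + ((0 : ℤ) : ℚ_[p]) * x * y + ((0 : ℤ) : ℚ_[p]) * y =
    x ^ 3 + ((0 : ℤ) : ℚ_[p]) * x ^ 2 + ((-D : ℤ) : ℚ_[p]) * x + ((0 : ℤ) : ℚ_[p]) ↔ _
  push_cast
  constructor <;> intro h <;> linear_combination h

lemma cv_sing {D : ℤ} {p : ℕ} [Fact p.Prime] {x y : ℚ_[p]} :
    SingRed (cv D) p x y ↔ ‖x‖ ≤ 1 ∧ ‖y‖ ≤ 1 ∧ ‖3 * x ^ 2 - D‖ < 1 ∧ ‖2 * y‖ < 1 := by
  unfold SingRed
  have e1 : (((cv D).a₁ : ℤ) : ℚ_[p]) * y - (3 * x ^ 2 + 2 * (((cv D).a₂ : ℤ) : ℚ_[p]) * x +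
      (((cv D).a₄ : ℤ) : ℚ_[p])) = -(3 * x ^ 2 - D) := by
    show ((0 : ℤ) : ℚ_[p]) * y - (3 * x ^ 2 + 2 * ((0 : ℤ) : ℚ_[p]) * x + ((-D : ℤ) : ℚ_[p])) = _
    push_cast
    ring
  have e2 : 2 * y + (((cv D).a₁ : ℤ) : ℚ_[p]) * x + (((cv D).a₃ : ℤ) : ℚ_[p]) = 2 * y := by
    show 2 * y + ((0 : ℤ) : ℚ_[p]) * x + ((0 : ℤ) : ℚ_[p]) = _
    push_cast
    ring
  rw [e1, e2, norm_neg]

lemma cv_ns {D : ℤ} (hD : D ≠ 0) {p : ℕ} [Fact p.Prime] {x y : ℚ_[p]}
    (h : ((cv D).map (Int.castRingHom ℚ_[p])).toAffine.Equation x y) :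
    ((cv D).map (Int.castRingHom ℚ_[p])).toAffine.Nonsingular x y := by
  rw [← Affine.equation_iff_nonsingular_of_Δ_ne_zero]
  · exact h
  · show ((cv D).map (Int.castRingHom ℚ_[p])).Δ ≠ 0
    rw [WeierstrassCurve.map_Δ, cv_disc]
    have : ((Int.castRingHom ℚ_[p]) (64 * D ^ 3)) = 64 * (D : ℚ_[p]) ^ 3 := by
      rw [map_mul, map_pow]
      simp
    rw [this]
    exact mul_ne_zero (by norm_num) (pow_ne_zero 3 (by exact_mod_cast hD))

/-- the relations on a line -/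
lemma rel {D : ℤ} {p : ℕ} [Fact p.Prime] {x₁ y₁ x₂ y₂ : ℚ_[p]}
    (h₁ : ((cv D).map (Int.castRingHom ℚ_[p])).toAffine.Nonsingular x₁ y₁)
    (h₂ : ((cv D).map (Int.castRingHom ℚ_[p])).toAffine.Nonsingular x₂ y₂) :
    (Affine.Point.some x₁ y₁ h₁ : PtP (cv D) p) + Affine.Point.some x₂ y₂ h₂ = 0 ∨
    ∃ (l c x₃ y₃ : ℚ_[p]) (h₃ : ((cv D).map (Int.castRingHom ℚ_[p])).toAffine.Nonsingular x₃ y₃),
      (Affine.Point.some x₁ y₁ h₁ : PtP (cv D) p) + Affine.Point.some x₂ y₂ h₂ =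
        Affine.Point.some x₃ y₃ h₃ ∧ y₁ = l * x₁ + c ∧ y₂ = l * x₂ + c ∧ -y₃ = l * x₃ + c ∧
      x₁ + x₂ + x₃ = l ^ 2 ∧ x₁ * x₂ + x₁ * x₃ + x₂ * x₃ = -(2 * l * c) - D := by
  by_cases hxy : x₁ = x₂ ∧ y₁ = ((cv D).map (Int.castRingHom ℚ_[p])).toAffine.negY x₂ y₂
  · left
    exact Affine.Point.add_of_Y_eq hxy.1 hxy.2
  · right
    obtain ⟨r1, r2, r3⟩ := Pool.Agent.Y809.BSD14.line_rel h₁.1 h₂.1 hxy
    have q1 : ((cv D).map (Int.castRingHom ℚ_[p])).a₁ = 0 := by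
      show ((0 : ℤ) : ℚ_[p]) = 0
      push_cast; rfl
    have q2 : ((cv D).map (Int.castRingHom ℚ_[p])).a₂ = 0 := by
      show ((0 : ℤ) : ℚ_[p]) = 0
      push_cast; rfl
    have q3 : ((cv D).map (Int.castRingHom ℚ_[p])).a₃ = 0 := by
      show ((0 : ℤ) : ℚ_[p]) = 0
      push_cast; rfl
    have q4 : ((cv D).map (Int.castRingHom ℚ_[p])).a₄ = -(D : ℚ_[p]) := by
      show ((-D : ℤ) : ℚ_[p]) = -(D : ℚ_[p])
      push_cast; rfl
    refine ⟨_, _, _, _, Affine.nonsingular_add h₁ h₂ hxy, Affine.Point.add_some hxy,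
      by ring, r1, ?_, ?_, ?_⟩
    · simp only [Affine.addY, Affine.negAddY, Affine.negY]
      have q1' : ((cv D).map (Int.castRingHom ℚ_[p])).toAffine.a₁ = 0 := q1
      have q3' : ((cv D).map (Int.castRingHom ℚ_[p])).toAffine.a₃ = 0 := q3
      rw [q1', q3']
      ring
    · rw [r2]
      have q1' : ((cv D).map (Int.castRingHom ℚ_[p])).toAffine.a₁ = 0 := q1
      have q2' : ((cv D).map (Int.castRingHom ℚ_[p])).toAffine.a₂ = 0 := q2
      rw [q1', q2']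
      ring
    · rw [r3]
      have q1' : ((cv D).map (Int.castRingHom ℚ_[p])).toAffine.a₁ = 0 := q1
      have q3' : ((cv D).map (Int.castRingHom ℚ_[p])).toAffine.a₃ = 0 := q3
      have q4' : ((cv D).map (Int.castRingHom ℚ_[p])).toAffine.a₄ = -(D : ℚ_[p]) := q4
      rw [q1', q3', q4']
      ring

lemma mem_E0 {D : ℤ} {p : ℕ} [Fact p.Prime] {x y : ℚ_[p]}
    (h : ((cv D).map (Int.castRingHom ℚ_[p])).toAffine.Nonsingular x y) :
    (Affine.Point.some x y h : PtP (cv D) p) ∈ E0 (cv D) p ↔ ¬ SingRed (cv D) p x y := by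
  rw [Pool.Agent.Y809.BSD14.t_E0]
  constructor
  · intro h1
    exact h1 x y h rfl
  · intro h1 x' y' h' he
    obtain ⟨rfl, rfl⟩ := Affine.Point.some.inj he
    exact h1

lemma norm_lt_inv {p : ℕ} [Fact p.Prime] {x : ℚ_[p]} (h : ‖x‖ < 1) : ‖x‖ ≤ (p : ℝ)⁻¹ := by
  obtain ⟨X, rfl⟩ : ∃ X : ℤ_[p], (X : ℚ_[p]) = x := ⟨⟨x, h.le⟩, rfl⟩
  have h1 : ‖X‖ < 1 := h
  obtain ⟨Y, rfl⟩ := (PadicInt.norm_lt_one_iff_dvd X).1 h1
  push_cast
  rw [norm_mul, Padic.norm_p]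
  have h2 : ‖(Y : ℚ_[p])‖ ≤ 1 := PadicInt.norm_le_one Y
  have h3 : (0 : ℝ) ≤ (p : ℝ)⁻¹ := by positivity
  nlinarith

/-- the primes that divide `D` -/
theorem tam_p {D : ℤ} {p : ℕ} [hp : Fact p.Prime] (h2 : p ≠ 2) (h3 : p ≠ 3) (hD : (p : ℤ) ∣ D)
    (hD2 : ¬ (p : ℤ) ^ 2 ∣ D) : tam (cv D) p = 2 := by
  have hD0 : D ≠ 0 := by
    rintro rfl
    exact hD2 (dvd_zero _)
  have hDn : ‖(D : ℚ_[p])‖ < 1 := Padic.norm_intCast_lt_one_iff.2 hD
  have hDn2 : (p : ℝ)⁻¹ ≤ ‖(D : ℚ_[p])‖ := by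
    obtain ⟨c, rfl⟩ := hD
    have hc : ¬ (p : ℤ) ∣ c := by
      rintro ⟨d, rfl⟩
      exact hD2 ⟨d, by ring⟩
    push_cast
    rw [norm_mul, Padic.norm_p]
    have h4 : ‖(c : ℚ_[p])‖ = 1 := by
      refine le_antisymm (Padic.norm_int_le_one c) (not_lt.1 fun h => hc ?_)
      exact Padic.norm_intCast_lt_one_iff.1 h
    rw [h4, mul_one]
  have h3n : ‖(3 : ℚ_[p])‖ = 1 := by
    have h4 : ‖((3 : ℤ) : ℚ_[p])‖ = 1 := by
      refine le_antisymm (Padic.norm_int_le_one 3) (not_lt.1 fun h => h3 ?_)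
      have h5 := Padic.norm_intCast_lt_one_iff.1 h
      have h6 : p ∣ 3 := by exact_mod_cast h5
      exact (Nat.prime_dvd_prime_iff_eq hp.out Nat.prime_three).1 h6
    exact_mod_cast h4
  have hT0 : ((cv D).map (Int.castRingHom ℚ_[p])).toAffine.Nonsingular 0 0 := by
    refine cv_ns hD0 (cv_eqn.2 (by ring))
  set T : PtP (cv D) p := Affine.Point.some 0 0 hT0 with hT
  have hTs : T ∉ E0 (cv D) p := by
    rw [hT, mem_E0, not_not, cv_sing]
    refine ⟨by simp, by simp, ?_, by simp⟩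
    have : (3 * (0 : ℚ_[p]) ^ 2 - D) = -(D : ℚ_[p]) := by ring
    rw [this, norm_neg]
    exact hDn
  have hTT : T + T = 0 := by
    refine Affine.Point.add_of_Y_eq rfl ?_
    simp only [Affine.negY]
    show (0 : ℚ_[p]) = -0 - ((0 : ℤ) : ℚ_[p]) * 0 - ((0 : ℤ) : ℚ_[p])
    push_cast
    ring
  unfold tam
  rw [AddSubgroup.index_eq_two_iff]
  refine ⟨T, fun P => ?_⟩
  by_cases hP : P ∈ E0 (cv D) p
  · right
    refine ⟨hP, fun h => hTs ?_⟩
    have e : T = (P + T) - P := by abel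
    rw [e]
    exact AddSubgroup.sub_mem _ h hP
  · left
    refine ⟨?_, hP⟩
    rcases P with _ | ⟨x, y, h⟩
    · exact absurd (AddSubgroup.zero_mem _) hP
    · rw [mem_E0, not_not, cv_sing] at hP
      obtain ⟨hx, hy, hs, -⟩ := hP
      have hx1 : ‖x‖ < 1 := by
        have e1 : ‖3 * x ^ 2‖ < 1 := by
          have : 3 * x ^ 2 = (3 * x ^ 2 - D) + D := by ring
          rw [this]
          exact lt_of_le_of_lt (IsUltrametricDist.norm_add_le_max _ _) (max_lt hs hDn)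
        rw [norm_mul, h3n, one_mul, norm_pow] at e1
        by_contra h5
        push Not at h5
        nlinarith
      rcases rel h hT0 with h5 | ⟨l, c, x₃, y₃, h₃, h5, r1, r2, r3, r4, r5⟩
      · rw [h5]
        exact AddSubgroup.zero_mem _
      · rw [h5, mem_E0, cv_sing]
        rintro ⟨hx3, -, hs3, -⟩
        have hc : c = 0 := by linear_combination -r2
        have e2 : x * x₃ = -D := by
          rw [hc] at r5
          linear_combination r5
        have hx3' : ‖x₃‖ < 1 := by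
          have e1 : ‖3 * x₃ ^ 2‖ < 1 := by
            have : 3 * x₃ ^ 2 = (3 * x₃ ^ 2 - D) + D := by ring
            rw [this]
            exact lt_of_le_of_lt (IsUltrametricDist.norm_add_le_max _ _) (max_lt hs3 hDn)
          rw [norm_mul, h3n, one_mul, norm_pow] at e1
          by_contra h5
          push Not at h5
          nlinarith
        have h6 := norm_lt_inv hx1
        have h7 : ‖x‖ * ‖x₃‖ = ‖(D : ℚ_[p])‖ := by rw [← norm_mul, e2, norm_neg]
        have h8 : (0 : ℝ) < (p : ℝ)⁻¹ := by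
          have := hp.out.pos
          positivity
        have h9 := norm_nonneg x₃
        nlinarith

section two

lemma odd_pad {x : ℤ_[2]} (h : ¬ ‖x‖ < 1) : ∃ a : ℤ_[2], x = 1 + 2 * a := by
  have h1 : ¬ ((2 : ℕ) : ℤ_[2]) ∣ x := fun h' => h ((PadicInt.norm_lt_one_iff_dvd x).2 h')
  have h3 : PadicInt.toZMod (p := 2) (x - 1) = 0 := by
    rw [map_sub, map_one]
    have h4 : PadicInt.toZMod (p := 2) x ≠ 0 := fun h' => h1 (dvd_zmod.1 h')
    revert h4
    generalize PadicInt.toZMod (p := 2) x = t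
    revert t
    decide
  obtain ⟨m', hm'⟩ := dvd_zmod.1 h3
  refine ⟨m', ?_⟩
  push_cast at hm'
  linear_combination hm'

lemma even_pad {x : ℤ_[2]} (h : ‖x‖ < 1) : ∃ a : ℤ_[2], x = 2 * a := by
  obtain ⟨a, ha⟩ := (PadicInt.norm_lt_one_iff_dvd x).1 h
  exact ⟨a, by simpa using ha⟩

lemma coe2 : ((2 : ℤ_[2]) : ℚ_[2]) = 2 := rfl

lemma even_norm {a : ℤ_[2]} : ‖2 * a‖ < 1 := by
  rw [PadicInt.norm_lt_one_iff_dvd]
  exact ⟨a, by push_cast; rfl⟩

lemma odd_norm {a : ℤ_[2]} : ¬ ‖1 + 2 * a‖ < 1 := by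
  rw [PadicInt.norm_lt_one_iff_dvd]
  rintro ⟨b, hb⟩
  push_cast at hb
  have h1 : (2 : ℤ_[2]) ∣ 1 := ⟨b - a, by linear_combination hb⟩
  have h2 := PadicInt.prime_p (p := 2)
  apply h2.not_unit
  exact isUnit_of_dvd_one (by simpa using h1)

/-- the points with singular reduction at two -/
lemma sing_two {D : ℤ} (hD : D % 8 = 5) {x y : ℚ_[2]} (he : y ^ 2 = x ^ 3 - D * x)
    (h : SingRed (cv D) 2 x y) : ∃ a b : ℤ_[2], x = 1 + 2 * a ∧ y = 2 * (1 + 2 * b) := by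
  rw [cv_sing] at h
  obtain ⟨hx, hy, hs, -⟩ := h
  obtain ⟨X, rfl⟩ : ∃ X : ℤ_[2], (X : ℚ_[2]) = x := ⟨⟨x, hx⟩, rfl⟩
  obtain ⟨Y, rfl⟩ : ∃ Y : ℤ_[2], (Y : ℚ_[2]) = y := ⟨⟨y, hy⟩, rfl⟩
  have he' : Y ^ 2 = X ^ 3 - D * X := by
    apply PadicInt.ext
    push_cast
    exact he
  have hs' : ‖3 * X ^ 2 - (D : ℤ_[2])‖ < 1 := by
    have : ((3 * X ^ 2 - (D : ℤ_[2]) : ℤ_[2]) : ℚ_[2]) = 3 * (X : ℚ_[2]) ^ 2 - D := by
      push_cast; rfl
    rw [PadicInt.norm_def, this]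
    exact hs
  obtain ⟨k, hk⟩ : ∃ k : ℤ, D = 1 + 2 * k := ⟨D / 2, by omega⟩
  have hXo : ¬ ‖X‖ < 1 := by
    intro h1
    obtain ⟨a, rfl⟩ := even_pad h1
    have : 3 * (2 * a) ^ 2 - (D : ℤ_[2]) = 1 + 2 * (6 * a ^ 2 - 1 - k) := by
      rw [hk]; push_cast; ring
    rw [this] at hs'
    exact odd_norm hs'
  obtain ⟨a, rfl⟩ := odd_pad hXo
  have hYe : ‖Y‖ < 1 := by
    by_contra h1
    obtain ⟨b, rfl⟩ := odd_pad h1
    have e1 : (1 + 2 * (2 * b + 2 * b ^ 2 - 3 * a - 6 * a ^ 2 - 4 * a ^ 3 + (k : ℤ_[2]) *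
        (1 + 2 * a) + a) : ℤ_[2]) = 0 := by
      have h2 := he'
      rw [hk] at h2
      push_cast at h2
      linear_combination h2
    have h3 : ‖(0 : ℤ_[2])‖ < 1 := by simp
    rw [← e1] at h3
    exact odd_norm h3
  obtain ⟨b, rfl⟩ := even_pad hYe
  have hbo : ¬ ‖b‖ < 1 := by
    intro h1
    obtain ⟨c, rfl⟩ := even_pad h1
    set φ : ℤ_[2] →+* ZMod (2 ^ 3) := PadicInt.toZModPow 3 with hφ
    have h2 := congrArg φ he'
    simp only [map_mul, map_pow, map_add, map_sub, map_intCast, map_ofNat, map_one] at h2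
    have hDz : ((D : ℤ) : ZMod (2 ^ 3)) = 5 := by
      have : ((D : ℤ) : ZMod (2 ^ 3)) = ((5 : ℤ) : ZMod (2 ^ 3)) := by
        rw [ZMod.intCast_eq_intCast_iff]
        show D % (2 ^ 3 : ℕ) = 5 % (2 ^ 3 : ℕ)
        norm_num
        omega
      rw [this]
      norm_num
    rw [hDz] at h2
    have key : ∀ a c : ZMod (2 ^ 3), (2 * (2 * c)) ^ 2 = (1 + 2 * a) ^ 3 - 5 * (1 + 2 * a) →
        False := by decide
    exact key _ _ h2
  obtain ⟨c, rfl⟩ := odd_pad hbo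
  refine ⟨a, c, ?_, ?_⟩
  · push_cast; rfl
  · push_cast; rfl

theorem tam_two {D : ℤ} (hD : D % 16 = 13) : tam (cv D) 2 = 2 := by
  have hD0 : D ≠ 0 := by omega
  have hD8 : D % 8 = 5 := by omega
  obtain ⟨k, hk⟩ : ∃ k : ℤ, D = 5 + 8 * k := ⟨D / 8, by omega⟩
  -- a point with singular reduction
  obtain ⟨x0, y0, h0, hs0⟩ : ∃ (x y : ℚ_[2])
      (h : ((cv D).map (Int.castRingHom ℚ_[2])).toAffine.Nonsingular x y),
      SingRed (cv D) 2 x y := by
    have hex : ∃ (x : ℤ) (y : ℚ_[2]), x % 2 = 1 ∧ y ^ 2 = (x : ℚ_[2]) ^ 3 - D * x ∧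
        ‖y‖ < 1 := by
      have h4 : ∀ (x n : ℤ), x ^ 3 - D * x = 4 * n → n % 8 = 1 → ∃ y : ℚ_[2],
          y ^ 2 = (x : ℚ_[2]) ^ 3 - D * x ∧ ‖y‖ < 1 := by
        intro x n h1 h2
        obtain ⟨s, hs⟩ := padic_sq2' h2
        have e1 : (2 * s) ^ 2 = (x : ℚ_[2]) ^ 3 - D * x := by
          have : ((x ^ 3 - D * x : ℤ) : ℚ_[2]) = ((4 * n : ℤ) : ℚ_[2]) := by rw [h1]
          push_cast at this
          rw [this, hs]
          ring
        refine ⟨2 * s, e1, ?_⟩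
        have h5 : ‖s‖ ≤ 1 := by
          have h6 : ‖s * s‖ ≤ 1 := by
            rw [← hs]
            exact Padic.norm_int_le_one n
          rw [norm_mul] at h6
          by_contra h7
          push Not at h7
          nlinarith
        have h6 : ‖(2 : ℚ_[2])‖ < 1 := by
          have := Padic.norm_p_lt_one (p := 2)
          exact_mod_cast this
        rw [norm_mul]
        have := norm_nonneg s
        nlinarith [norm_nonneg (2 : ℚ_[2])]
      by_cases h32 : D % 32 = 13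
      · obtain ⟨y, h5, h6⟩ := h4 9 (9 * ((81 - D) / 4)) (by omega) (by omega)
        exact ⟨9, y, by norm_num, h5, h6⟩
      · obtain ⟨y, h5, h6⟩ := h4 1 ((1 - D) / 4) (by omega) (by omega)
        exact ⟨1, y, by norm_num, h5, h6⟩
    obtain ⟨x, y, hx2, hxy, hy⟩ := hex
    refine ⟨x, y, cv_ns hD0 (cv_eqn.2 hxy), ?_⟩
    rw [cv_sing]
    refine ⟨Padic.norm_int_le_one x, hy.le, ?_, ?_⟩
    · have : (3 * (x : ℚ_[2]) ^ 2 - D) = ((3 * x ^ 2 - D : ℤ) : ℚ_[2]) := by push_cast; ring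
      rw [this, Padic.norm_intCast_lt_one_iff]
      obtain ⟨m, hm⟩ : ∃ m : ℤ, x = 1 + 2 * m := ⟨x / 2, by omega⟩
      refine ⟨-1 + 6 * m + 6 * m ^ 2 - 4 * k, ?_⟩
      rw [hm, hk]
      push_cast
      ring
    · rw [norm_mul]
      have h6 : ‖(2 : ℚ_[2])‖ < 1 := by
        have := Padic.norm_p_lt_one (p := 2)
        exact_mod_cast this
      have := norm_nonneg y
      nlinarith [norm_nonneg (2 : ℚ_[2])]
  set T : PtP (cv D) 2 := Affine.Point.some x0 y0 h0 with hT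
  have hTs : T ∉ E0 (cv D) 2 := by
    rw [hT, mem_E0, not_not]
    exact hs0
  unfold tam
  rw [AddSubgroup.index_eq_two_iff]
  refine ⟨T, fun P => ?_⟩
  by_cases hP : P ∈ E0 (cv D) 2
  · right
    refine ⟨hP, fun h => hTs ?_⟩
    have e : T = (P + T) - P := by abel
    rw [e]
    exact AddSubgroup.sub_mem _ h hP
  · left
    refine ⟨?_, hP⟩
    rcases P with _ | ⟨x, y, h⟩
    · exact absurd (AddSubgroup.zero_mem _) hP
    · rw [mem_E0, not_not] at hP
      rcases rel h h0 with h5 | ⟨l, c, x₃, y₃, h₃, h5, r1, r2, r3, r4, r5⟩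
      · rw [h5]
        exact AddSubgroup.zero_mem _
      · rw [h5, mem_E0]
        intro hs3
        obtain ⟨a1, b1, ex1, ey1⟩ := sing_two hD8 (cv_eqn.1 h.1) hP
        obtain ⟨a2, b2, ex2, ey2⟩ := sing_two hD8 (cv_eqn.1 h0.1) hs0
        obtain ⟨a3, b3, ex3, ey3⟩ := sing_two hD8 (cv_eqn.1 h₃.1) hs3
        -- integrality of the slope
        have hl2 : l ^ 2 = (((1 + 2 * (a1 + a2 + a3 + 1) : ℤ_[2])) : ℚ_[2]) := by
          rw [← r4, ex1, ex2, ex3]
          simp only [PadicInt.coe_add, PadicInt.coe_mul, PadicInt.coe_one, coe2]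
          ring
        have hl1 : ‖l‖ ≤ 1 := by
          have h6 : ‖l ^ 2‖ ≤ 1 := by
            rw [hl2]
            exact PadicInt.norm_le_one _
          rw [norm_pow] at h6
          by_contra h7
          push Not at h7
          nlinarith
        obtain ⟨L, rfl⟩ : ∃ L : ℤ_[2], (L : ℚ_[2]) = l := ⟨⟨l, hl1⟩, rfl⟩
        have hc : c = (((2 * (1 + 2 * b1) - L * (1 + 2 * a1) : ℤ_[2])) : ℚ_[2]) := by
          have : c = y - L * x := by linear_combination -r1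
          rw [this, ex1, ey1]
          simp only [PadicInt.coe_add, PadicInt.coe_mul, PadicInt.coe_one, coe2, PadicInt.coe_sub]
        set C : ℤ_[2] := 2 * (1 + 2 * b1) - L * (1 + 2 * a1) with hC
        rw [hc] at r1 r2 r3 r5
        rw [ex2, ey2] at r2
        rw [ex3, ey3] at r3
        rw [ex1, ex2, ex3] at r5 r4
        rw [ex1, ey1] at r1
        have s1 : 2 * (1 + 2 * b1) = L * (1 + 2 * a1) + C := by
          apply PadicInt.ext
          simp only [PadicInt.coe_add, PadicInt.coe_mul, PadicInt.coe_one, coe2, PadicInt.coe_sub,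
            PadicInt.coe_neg, PadicInt.coe_pow, PadicInt.coe_intCast]
          exact r1
        have s2 : 2 * (1 + 2 * b2) = L * (1 + 2 * a2) + C := by
          apply PadicInt.ext
          simp only [PadicInt.coe_add, PadicInt.coe_mul, PadicInt.coe_one, coe2, PadicInt.coe_sub,
            PadicInt.coe_neg, PadicInt.coe_pow, PadicInt.coe_intCast]
          exact r2
        have s3 : -(2 * (1 + 2 * b3)) = L * (1 + 2 * a3) + C := by
          apply PadicInt.ext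
          simp only [PadicInt.coe_add, PadicInt.coe_mul, PadicInt.coe_one, coe2, PadicInt.coe_sub,
            PadicInt.coe_neg, PadicInt.coe_pow, PadicInt.coe_intCast]
          exact r3
        have s4 : (1 + 2 * a1) + (1 + 2 * a2) + (1 + 2 * a3) = L ^ 2 := by
          apply PadicInt.ext
          simp only [PadicInt.coe_add, PadicInt.coe_mul, PadicInt.coe_one, coe2, PadicInt.coe_sub,
            PadicInt.coe_neg, PadicInt.coe_pow, PadicInt.coe_intCast]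
          exact r4
        have s5 : (1 + 2 * a1) * (1 + 2 * a2) + (1 + 2 * a1) * (1 + 2 * a3) +
            (1 + 2 * a2) * (1 + 2 * a3) = -(2 * L * C) - D := by
          apply PadicInt.ext
          simp only [PadicInt.coe_add, PadicInt.coe_mul, PadicInt.coe_one, coe2, PadicInt.coe_sub,
            PadicInt.coe_neg, PadicInt.coe_pow, PadicInt.coe_intCast]
          exact r5
        set φ : ℤ_[2] →+* ZMod (2 ^ 2) := PadicInt.toZModPow 2 with hφ
        have hDz : ((D : ℤ) : ZMod (2 ^ 2)) = 1 := by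
          have : ((D : ℤ) : ZMod (2 ^ 2)) = ((1 : ℤ) : ZMod (2 ^ 2)) := by
            rw [ZMod.intCast_eq_intCast_iff]
            show D % (2 ^ 2 : ℕ) = 1 % (2 ^ 2 : ℕ)
            norm_num
            omega
          rw [this]
          norm_num
        have t1 := congrArg φ s1
        have t2 := congrArg φ s2
        have t3 := congrArg φ s3
        have t4 := congrArg φ s4
        have t5 := congrArg φ s5
        simp only [map_mul, map_pow, map_add, map_sub, map_neg, map_intCast, map_ofNat,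
          map_one] at t1 t2 t3 t4 t5
        rw [hDz] at t5
        have k1 : ∀ b : ZMod (2 ^ 2), 2 * (1 + 2 * b) = 2 := by decide
        have k2 : -(2 : ZMod (2 ^ 2)) = 2 := by decide
        rw [k1] at t1 t2 t3
        rw [k2] at t3
        have k3 : ∀ u1 u2 u3 L C : ZMod (2 ^ 2), 2 = L * (1 + 2 * u1) + C →
            2 = L * (1 + 2 * u2) + C → 2 = L * (1 + 2 * u3) + C →
            (1 + 2 * u1) + (1 + 2 * u2) + (1 + 2 * u3) = L ^ 2 →
            (1 + 2 * u1) * (1 + 2 * u2) + (1 + 2 * u1) * (1 + 2 * u3) +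
              (1 + 2 * u2) * (1 + 2 * u3) = -(2 * L * C) - 1 → False := by decide
        exact k3 _ _ _ _ _ t1 t2 t3 t4 t5

end two

end Pool.Agent.E8helper21.QT
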