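import Pool.Agent.E8helper21.QT.Sel1
import Pool.Agent.E8helper21.QT.Conv
import Pool.Agent.E8helper21.QT.Tam
import Pool.Agent.E8helper21.QT.Mini
import Pool.Agent.E8helper21.QT.ValQ
import Pool.Agent.Y363.Z7.Tors
import Pool.Agent.Y715.Tu

/-!
Summary for the results file.
-/

set_option autoImplicit false
set_option linter.unusedSectionVars false

namespace Pool.Agent.E8helper21.QT

open WeierstrassCurve
open Pool.Agent.TH841.SH.D (Sha)
open Pool.Agent.Z702 (WZ)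
open Pool.Agent.Y668 (Wt)

/-- the class -/
def ClsD (D : ℕ) : Prop := Squarefree D ∧ D % 16 = 13 ∧ ∀ p : ℕ, p.Prime → p ∣ D → p % 4 = 1

variable {D : ℕ}

lemma nD_pf (h : ClsD D) : nD D.primeFactors = D := by
  unfold nD
  exact Nat.prod_primeFactors_of_squarefree h.1

lemma cls_pf (h : ClsD D) : Cls D.primeFactors := fun p hp =>
  ⟨Nat.prime_of_mem_primeFactors hp, h.2.2 p (Nat.prime_of_mem_primeFactors hp)
    (Nat.dvd_of_mem_primeFactors hp)⟩

lemma mod_pf (h : ClsD D) : nD D.primeFactors % 16 = 13 := by rw [nD_pf h]; exact h.2.1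

/-- no decomposition of the second kind -/
def Indec (D : ℕ) : Prop := ∀ d e : ℕ, D = d * e →
  (∀ p : ℕ, p.Prime → p ∣ e → IsSquare (d : ZMod p)) →
  (∀ p : ℕ, p.Prime → p ∣ d → IsSquare (e : ZMod p)) → d = 1 ∨ e = 1

theorem Kt_indec (h : ClsD D) : Kt D.primeFactors ↔ Indec D := by
  classical
  rw [Kt_iff (cls_pf h)]
  have hsq := h.1
  have hD0 : D ≠ 0 := hsq.ne_zero
  have hmem : ∀ q : ℕ, q ∈ D.primeFactors ↔ q.Prime ∧ q ∣ D := fun q => by
    rw [Nat.mem_primeFactors_of_ne_zero hD0]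
  have hpr : ∀ T ⊆ D.primeFactors, ∀ q : ℕ, q.Prime → (q ∣ ∏ p ∈ T, p ↔ q ∈ T) := by
    intro T hT q hq
    rw [hq.prime.dvd_finsetProd_iff]
    constructor
    · rintro ⟨p, hp, hqp⟩
      rwa [(Nat.prime_dvd_prime_iff_eq hq ((hmem p).1 (hT hp)).1).1 hqp]
    · intro hq'
      exact ⟨q, hq', dvd_rfl⟩
  constructor
  · intro hK d e hde h1 h2
    have hd : Squarefree d := hsq.squarefree_of_dvd ⟨e, hde⟩
    have he : Squarefree e := hsq.squarefree_of_dvd ⟨d, by rw [hde, mul_comm]⟩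
    have hcop : Nat.Coprime d e := Nat.coprime_of_squarefree_mul (hde ▸ hsq)
    have hdT : ∏ p ∈ d.primeFactors, p = d := Nat.prod_primeFactors_of_squarefree hd
    have heT : D.primeFactors \ d.primeFactors = e.primeFactors := by
      ext q
      rw [Finset.mem_sdiff, hmem, Nat.mem_primeFactors_of_ne_zero hd.ne_zero,
        Nat.mem_primeFactors_of_ne_zero he.ne_zero]
      constructor
      · rintro ⟨⟨h3, h4⟩, h5⟩
        refine ⟨h3, ?_⟩
        rw [hde] at h4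
        exact ((Nat.Prime.dvd_mul h3).1 h4).resolve_left fun h6 => h5 ⟨h3, h6⟩
      · rintro ⟨h3, h4⟩
        refine ⟨⟨h3, by rw [hde]; exact h4.mul_left d⟩, fun h5 => ?_⟩
        exact h3.one_lt.ne' (Nat.dvd_one.1 (hcop ▸ Nat.dvd_gcd h5.2 h4))
    have hT : d.primeFactors ⊆ D.primeFactors := Nat.primeFactors_mono ⟨e, hde⟩ hD0
    rcases hK d.primeFactors hT (fun q hq => by
        rw [hdT]
        rw [heT] at hq
        exact h1 q (Nat.prime_of_mem_primeFactors hq) (Nat.dvd_of_mem_primeFactors hq))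
      (fun q hq => by
        rw [heT, Nat.prod_primeFactors_of_squarefree he]
        exact h2 q (Nat.prime_of_mem_primeFactors hq) (Nat.dvd_of_mem_primeFactors hq)) with h3 | h3
    · left
      rw [← hdT, h3, Finset.prod_empty]
    · right
      have h4 : d = D := by
        rw [← hdT, h3, Nat.prod_primeFactors_of_squarefree hsq]
      rw [h4] at hde
      have : D * e = D * 1 := by rw [← hde, mul_one]
      exact Nat.eq_of_mul_eq_mul_left (Nat.pos_of_ne_zero hD0) this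
  · intro hI T hT h1 h2
    have hprod : (∏ p ∈ T, p) * ∏ p ∈ D.primeFactors \ T, p = D := by
      rw [← nD_split hT, nD_pf h]
    rcases hI _ _ hprod.symm (fun q hq hqe => by
        have hq' := (hpr (D.primeFactors \ T) Finset.sdiff_subset q hq).1 hqe
        exact h1 q hq') (fun q hq hqd => by
        have hq' := (hpr T hT q hq).1 hqd
        exact h2 q hq') with h3 | h3
    · left
      rw [Finset.eq_empty_iff_forall_notMem]
      intro q hq
      have hq' := ((hmem q).1 (hT hq)).1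
      have := (hpr T hT q hq').2 hq
      rw [h3] at this
      exact hq'.one_lt.ne' (Nat.dvd_one.1 this)
    · right
      refine Finset.Subset.antisymm hT fun q hq => ?_
      by_contra hqT
      have hq' := ((hmem q).1 hq).1
      have := (hpr (D.primeFactors \ T) Finset.sdiff_subset q hq').2 (Finset.mem_sdiff.2 ⟨hq, hqT⟩)
      rw [h3] at this
      exact hq'.one_lt.ne' (Nat.dvd_one.1 this)

/-- the curve over `ℚ` -/
abbrev EQ' (D : ℕ) : WeierstrassCurve ℚ := (cv (D : ℤ)).map (Int.castRingHom ℚ)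

lemma EQ_eq (D : ℕ) : EQ' D = WZ 0 (-(D : ℤ)) := by
  unfold EQ' cv WZ Wt
  simp only [WeierstrassCurve.map, eq_intCast, Int.cast_zero]

lemma vrid (D : ℕ) : Pool.Agent.Y700.VR (Wt ((0 : ℤ) : ℚ) ((-(D : ℤ) : ℤ) : ℚ)) (EQ' D) 1 0 0 0 := by
  have e : Wt ((0 : ℤ) : ℚ) ((-(D : ℤ) : ℤ) : ℚ) = EQ' D := (EQ_eq D).symm
  rw [e]
  refine ⟨one_ne_zero, ?_, ?_, ?_, ?_, ?_⟩ <;> ring

lemma disc_ne (h : ClsD D) : (EQ' D).Δ ≠ 0 := by
  rw [WeierstrassCurve.map_Δ, cv_disc]
  have : (D : ℤ) ≠ 0 := by exact_mod_cast h.1.ne_zero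
  have h2 : (64 * (D : ℤ) ^ 3) ≠ 0 := mul_ne_zero (by norm_num) (pow_ne_zero 3 this)
  show ((64 * (D : ℤ) ^ 3 : ℤ) : ℚ) ≠ 0
  exact_mod_cast h2

/-- the algebraic side -/
theorem alg_fin (h : ClsD D) (hI : Indec D) : Finite (EQ' D).toAffine.Point ∧
    ∀ (n : ℕ) (x : Sha (EQ' D)), 2 ^ n • x = 0 → x = 0 := by
  have hK := (Kt_indec h).2 hI
  obtain ⟨c1, c2⟩ := alg (cls_pf h) (mod_pf h) hK
  rw [nD_pf h] at c1 c2
  refine ⟨?_, fun n x hx => Pool.Agent.Y700.sha_two_pow (vrid D) (disc_ne h) c1 n x hx⟩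
  rw [EQ_eq]
  exact c2

theorem alg_conv (h : ClsD D) (hf : Finite (EQ' D).toAffine.Point)
    (hs : ∀ x : Sha (EQ' D), x + x = 0 → x = 0) : Indec D := by
  rw [← Kt_indec h]
  rw [EQ_eq] at hf hs
  refine conv (cls_pf h) (mod_pf h) ?_ ?_
  · rw [nD_pf h]; exact hf
  · rw [nD_pf h]; exact hs

theorem sel_iff (h : ClsD D) : (Finite (EQ' D).toAffine.Point ∧
    ∀ x : Sha (EQ' D), 2 • x = 0 → x = 0) ↔ Indec D := by
  constructor
  · rintro ⟨h1, h2⟩
    exact alg_conv h h1 fun x hx => h2 x (by rw [two_nsmul]; exact hx)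
  · intro hI
    obtain ⟨h1, h2⟩ := alg_fin h hI
    exact ⟨h1, fun x hx => h2 1 x (by rwa [pow_one])⟩

/-- torsion -/
theorem tors (h : ClsD D) : ∃ t : ℕ, Odd t ∧
    Nat.card (AddCommGroup.torsion (EQ' D).toAffine.Point) = 2 * t := by
  have hD := h.2.1
  have hne : D.primeFactors.Nonempty := by
    rw [Nat.nonempty_primeFactors]
    omega
  have hDs := ns_prod (J := D.primeFactors) (fun p hp => Nat.prime_of_mem_primeFactors hp) hne
  rw [Nat.prod_primeFactors_of_squarefree h.1] at hDs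
  obtain ⟨k, hk, h1⟩ := Pool.Agent.Y363.Z7.t_TORS 0 (-(D : ℤ)) (by omega) (by omega) (by
      rintro ⟨r, hr⟩
      have h3 : ((-(D : ℤ) : ℤ) : ℚ) < 0 := by
        have : (-(D : ℤ)) < 0 := by omega
        exact_mod_cast this
      nlinarith [mul_self_nonneg r]) (by
      rintro ⟨r, hr⟩
      apply hDs
      refine ⟨r / 2, ?_⟩
      push_cast at hr ⊢
      linear_combination hr / 4)
  refine ⟨k, hk, ?_⟩
  rw [EQ_eq]
  exact h1

/-- the real period -/
theorem period (h : ClsD D) : ∃ A : ℝ, 0 < A ∧ ∫ x in {x : ℝ | 0 < Pool.Agent.Y702.G.cubic (cv D) x},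
    1 / Real.sqrt (Pool.Agent.Y702.G.cubic (cv D) x) = A := by
  obtain ⟨L, Ω, hL⟩ := Pool.Agent.Y699.exists_lat
  have hD : (0 : ℤ) < D := by
    have := h.2.1
    omega
  obtain ⟨A, hA, h1, -⟩ := perQ hL hD
  exact ⟨A, hA, h1⟩

/-- the product of the Tamagawa numbers -/
theorem tam_all (h : ClsD D) (c : ℕ → ℕ) (hc : ∀ (p : ℕ) [Fact p.Prime],
    c p = Pool.Agent.Y700.tam (cv D) p) :
    ∏ p ∈ (cv (D : ℤ)).Δ.natAbs.primeFactors, c p = 2 ^ (D.primeFactors.card + 1) := by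
  have hD0 : D ≠ 0 := h.1.ne_zero
  have e1 : (cv (D : ℤ)).Δ.natAbs = 2 ^ 6 * D ^ 3 := by
    rw [cv_disc, Int.natAbs_mul, Int.natAbs_pow, Int.natAbs_natCast]
    norm_num
  have h2D : 2 ∉ D.primeFactors := by
    intro h2
    have := Nat.dvd_of_mem_primeFactors h2
    have := h.2.1
    omega
  have e2 : (2 ^ 6 * D ^ 3).primeFactors = insert 2 D.primeFactors := by
    rw [Nat.primeFactors_mul (by norm_num) (pow_ne_zero 3 hD0),
      Nat.primeFactors_prime_pow (by norm_num) Nat.prime_two,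
      Nat.primeFactors_pow D (by norm_num)]
    rfl
  rw [e1, e2, Finset.prod_insert h2D]
  have h13 : ((D : ℤ)) % 16 = 13 := by
    have := h.2.1
    omega
  have c2 : c 2 = 2 := by
    haveI : Fact (Nat.Prime 2) := ⟨Nat.prime_two⟩
    rw [hc 2]
    exact tam_two h13
  have cp : ∀ p ∈ D.primeFactors, c p = 2 := by
    intro p hp
    have hpp := Nat.prime_of_mem_primeFactors hp
    have hpd := Nat.dvd_of_mem_primeFactors hp
    haveI := Fact.mk hpp
    rw [hc p]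
    have h4 := h.2.2 p hpp hpd
    refine tam_p (by omega) (by omega) (by exact_mod_cast hpd) ?_
    intro h5
    have h6 : p ^ 2 ∣ D := by exact_mod_cast h5
    rw [sq] at h6
    exact hpp.one_lt.ne' (Nat.isUnit_iff.1 (h.1 p h6))
  rw [c2, Finset.prod_congr rfl cp, Finset.prod_const]
  ring

lemma v_oddn {Γ : Type} [LinearOrderedCommGroupWithZero Γ] (v : Valuation ℂ Γ) (h2 : v 2 < 1)
    {t : ℕ} (ht : Odd t) : v (t : ℂ) = 1 := by
  obtain ⟨k, rfl⟩ := ht
  have h1 : v ((k : ℕ) : ℂ) ≤ 1 := by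
    have := Pool.Agent.Y699.v_int (v := v) (k : ℤ)
    simpa using this
  push_cast
  rw [add_comm, Valuation.map_add_eq_of_lt_left]
  · exact map_one v
  · rw [map_mul, map_one]
    calc v 2 * v (k : ℂ) ≤ v 2 * 1 := by gcongr
      _ < 1 := by rwa [mul_one]

/-- **the value** -/
theorem value (h : ClsD D) {A : ℝ} (hA : 0 < A)
    (hint : ∫ x in {x : ℝ | 0 < Pool.Agent.Y702.G.cubic (cv D) x},
      1 / Real.sqrt (Pool.Agent.Y702.G.cubic (cv D) x) = A) {t : ℕ} (ht : Odd t)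
    {Γ : Type} [LinearOrderedCommGroupWithZero Γ] (v : Valuation ℂ Γ) (h2 : v 2 < 1) :
    v (LL (cls_pf h) 1 * ((2 * t : ℕ) : ℂ) ^ 2 /
      (((2 * A : ℝ) : ℂ) * ((2 ^ (D.primeFactors.card + 1) : ℕ) : ℂ))) ≤ 1 ∧
    (v (LL (cls_pf h) 1 * ((2 * t : ℕ) : ℂ) ^ 2 /
      (((2 * A : ℝ) : ℂ) * ((2 ^ (D.primeFactors.card + 1) : ℕ) : ℂ))) = 1 ↔ Indec D) := by
  have h1 := val_LL (cls_pf h) (mod_pf h) hA (by rw [nD_pf h]; exact hint) v h2
  rw [Kt_indec h] at h1
  have hAc : (A : ℂ) ≠ 0 := by exact_mod_cast hA.ne'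
  have e1 : LL (cls_pf h) 1 * ((2 * t : ℕ) : ℂ) ^ 2 /
      (((2 * A : ℝ) : ℂ) * ((2 ^ (D.primeFactors.card + 1) : ℕ) : ℂ)) =
      (t : ℂ) ^ 2 * (LL (cls_pf h) 1 / ((A : ℂ) * 2 ^ D.primeFactors.card)) := by
    push_cast
    rw [pow_succ]
    field_simp
    ring
  rw [e1, map_mul, map_pow, v_oddn v h2 ht, one_pow, one_mul]
  exact h1

end Pool.Agent.E8helper21.QT
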