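import Pool.Agent.E8helper21.QT.Phi

/-!
The second coefficient in terms of a base point, and the kernel criterion.
-/

set_option autoImplicit false
set_option linter.unusedSectionVars false

namespace Pool.Agent.E8helper21.QT

open Finset
open Pool.Agent.Y699.Ff

variable {ι : Type*} [Fintype ι] [DecidableEq ι]

lemma sum_pairs (O : Finset ι) (G : Finset ι → ZMod 2) (g : ι → ι → ZMod 2)
    (hG : ∀ a ∈ O, ∀ b ∈ O, a ≠ b → G {a, b} = g a b + g b a) :
    ∑ p ∈ O.powersetCard 2, G p = ∑ x ∈ O.offDiag, g x.1 x.2 := by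
  classical
  have hmaps : ∀ x ∈ O.offDiag, ({x.1, x.2} : Finset ι) ∈ O.powersetCard 2 := by
    intro x hx
    rw [mem_offDiag] at hx
    rw [mem_powersetCard]
    refine ⟨?_, card_pair hx.2.2⟩
    intro v hv
    rw [mem_insert, mem_singleton] at hv
    rcases hv with h | h
    · rw [h]; exact hx.1
    · rw [h]; exact hx.2.1
  rw [← Finset.sum_fiberwise_of_maps_to hmaps]
  refine Finset.sum_congr rfl fun p hp => ?_
  rw [mem_powersetCard] at hp
  obtain ⟨a, b, hab, rfl⟩ := Finset.card_eq_two.1 hp.2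
  have ha : a ∈ O := hp.1 (mem_insert_self _ _)
  have hb : b ∈ O := hp.1 (mem_insert_of_mem (mem_singleton_self _))
  have h1 : O.offDiag.filter (fun x => ({x.1, x.2} : Finset ι) = {a, b}) = {(a, b), (b, a)} := by
    ext x
    rw [mem_filter, mem_offDiag, mem_insert, mem_singleton]
    constructor
    · rintro ⟨⟨h1, h2, h3⟩, h4⟩
      have h5 : x.1 ∈ ({a, b} : Finset ι) := by rw [← h4]; exact mem_insert_self _ _
      have h6 : x.2 ∈ ({a, b} : Finset ι) := by
        rw [← h4]; exact mem_insert_of_mem (mem_singleton_self _)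
      rw [mem_insert, mem_singleton] at h5 h6
      rcases h5 with h5 | h5 <;> rcases h6 with h6 | h6
      · exact absurd (h5.trans h6.symm) h3
      · left; exact Prod.ext h5 h6
      · right; exact Prod.ext h5 h6
      · exact absurd (h5.trans h6.symm) h3
    · rintro (h | h)
      · rw [h]; exact ⟨⟨ha, hb, hab⟩, rfl⟩
      · rw [h]; exact ⟨⟨hb, ha, hab.symm⟩, Finset.pair_comm _ _⟩
  rw [h1, Finset.sum_pair (fun h => hab (congrArg Prod.fst h)), hG a ha b hb hab]

/-- the function of one variable -/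
def hr (e : ι → ι → ZMod 2) (r : ι) (O : Finset ι) (a : ι) : ZMod 2 :=
  if a = r then 0 else PS e {r, a} O

lemma PS_hr (e : ι → ι → ZMod 2) (he : ∀ v, e v v = 0) (hs : ∀ u v, e u v = e v u)
    {O : Finset ι} {r a b : ι} (hrO : r ∈ O) (ha : a ∈ O) (hb : b ∈ O) (hab : a ≠ b) :
    PS e {a, b} O = hr e r O a + hr e r O b := by
  unfold hr
  by_cases har : a = r
  · subst har
    rw [if_pos rfl, if_neg hab.symm, zero_add]
  · by_cases hbr : b = r
    · subst hbr
      rw [if_pos rfl, if_neg har, add_zero, Finset.pair_comm]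
    · rw [if_neg har, if_neg hbr]
      have h1 := cocycle e he hs hrO ha hb (fun h => har h.symm) (fun h => hbr h.symm) hab
      have h2 := CharTwo.add_self_eq_zero (PS e {r, a} O)
      have h3 := CharTwo.add_self_eq_zero (PS e {r, b} O)
      linear_combination h1 - h2 - h3

theorem FF_hr (w : ι → ZMod 2) (e : ι → ι → ZMod 2) (he : ∀ v, e v v = 0)
    (hs : ∀ u v, e u v = e v u) {O : Finset ι} {r : ι} (hrO : r ∈ O) :
    FF w e O = ∑ a ∈ O, w a * hr e r O a * (∑ b ∈ O, w b + w a) := by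
  classical
  unfold FF
  rw [sum_pairs O _ (fun a b => w a * w b * hr e r O a) (by
    intro a ha b hb hab
    rw [Finset.prod_pair hab, PS_hr e he hs hrO ha hb hab]
    ring)]
  have h1 : ∑ a ∈ O, ∑ b ∈ O, w a * w b * hr e r O a = ∑ a ∈ O, w a * w a * hr e r O a +
      ∑ x ∈ O.offDiag, w x.1 * w x.2 * hr e r O x.1 := by
    rw [← Finset.sum_product', ← Finset.diag_union_offDiag,
      Finset.sum_union (Finset.disjoint_diag_offDiag O)]
    congr 1
    rw [Finset.sum_diag]
  have h2 : ∑ a ∈ O, w a * hr e r O a * (∑ b ∈ O, w b + w a) =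
      ∑ a ∈ O, ∑ b ∈ O, w a * w b * hr e r O a + ∑ a ∈ O, w a * w a * hr e r O a := by
    rw [← Finset.sum_add_distrib]
    refine Finset.sum_congr rfl fun a _ => ?_
    rw [mul_add, Finset.mul_sum]
    congr 1
    · exact Finset.sum_congr rfl fun b _ => by ring
    · ring
  rw [h2, h1]
  have h3 := CharTwo.add_self_eq_zero (∑ a ∈ O, w a * w a * hr e r O a)
  linear_combination -h3

theorem FF_odd (w : ι → ZMod 2) (e : ι → ι → ZMod 2) (he : ∀ v, e v v = 0)
    (hs : ∀ u v, e u v = e v u) {O : Finset ι} (hw : ∑ b ∈ O, w b = 1) : FF w e O = 0 := by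
  rcases O.eq_empty_or_nonempty with h | ⟨r, hrO⟩
  · rw [h, sum_empty] at hw
    exact absurd hw (by decide)
  · rw [FF_hr w e he hs hrO, hw]
    refine Finset.sum_eq_zero fun a _ => ?_
    have : ∀ x y : ZMod 2, x * y * (1 + x) = 0 := by decide
    exact this _ _

theorem FF_even (w : ι → ZMod 2) (e : ι → ι → ZMod 2) (he : ∀ v, e v v = 0)
    (hs : ∀ u v, e u v = e v u) {O : Finset ι} {r : ι} (hrO : r ∈ O) (hw : ∑ b ∈ O, w b = 0) :
    FF w e O = ∑ a ∈ O, w a * hr e r O a := by
  rw [FF_hr w e he hs hrO, hw]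
  refine Finset.sum_congr rfl fun a _ => ?_
  have : ∀ x y : ZMod 2, x * y * (0 + x) = x * y := by decide
  exact this _ _

/-- the sum over the sets of even weight -/
theorem sum_FF_even (w : ι → ZMod 2) (e : ι → ι → ZMod 2) (he : ∀ v, e v v = 0)
    (hs : ∀ u v, e u v = e v u) {V : Finset ι} (hV : 3 ≤ V.card) :
    ∑ S ∈ V.powerset.filter (fun O => ∑ j ∈ O, w j = 0),
      FF w e S * ∏ v ∈ V \ S, ∑ u ∈ S, e u v = 0 := by
  rw [Finset.sum_filter]
  refine Eq.trans ?_ (sum_FF w e he hV)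
  refine Finset.sum_congr rfl fun S _ => ?_
  split_ifs with h
  · rfl
  · have h0 : ∑ j ∈ S, w j = 1 := by
      have : ∀ a : ZMod 2, a ≠ 0 → a = 1 := by decide
      exact this _ h
    rw [FF_odd w e he hs h0, zero_mul]

lemma vec_iff (e : ι → ι → ZMod 2) (he : ∀ v, e v v = 0) {p O : Finset ι} (hp : p ⊆ O)
    (y : ι → ZMod 2) (hy : ∀ v, v ∉ O \ p → y v = 0) {v : ι} (hv : v ∈ O \ p) :
    Matrix.vecMul y (MM (fun v => ∑ a ∈ p, e a v) e (O \ p) (O \ p)) v =
      ∑ u ∈ O, e u v * (y u + y v) := by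
  rw [Matrix.vecMul, dotProduct]
  have h4 : ∀ u, y u * MM (fun v => ∑ a ∈ p, e a v) e (O \ p) (O \ p) u v =
      (if u ∈ O \ p then e u v * y u else 0) +
        (if u = v then (∑ u ∈ O, e u v) * y v else 0) := by
    intro u
    unfold MM dg
    rw [if_pos hv, add_comm (∑ a ∈ p, e a v), Finset.sum_sdiff hp]
    by_cases huv : u = v
    · subst huv
      rw [if_pos rfl, if_pos rfl, he]
      simp [mul_comm]
    · rw [if_neg huv, if_neg huv]
      split_ifs <;> ring
  simp_rw [h4]
  rw [Finset.sum_add_distrib, Finset.sum_ite_eq', if_pos (mem_univ v), Finset.sum_ite_mem,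
    Finset.univ_inter]
  have h5 : ∑ u ∈ O \ p, e u v * y u = ∑ u ∈ O, e u v * y u := by
    refine Finset.sum_subset sdiff_subset fun u _ hu => ?_
    rw [hy u hu, mul_zero]
  rw [h5, Finset.sum_mul, ← Finset.sum_add_distrib]
  exact Finset.sum_congr rfl fun u _ => by ring

theorem PS_zero (e : ι → ι → ZMod 2) (he : ∀ v, e v v = 0) {p O : Finset ι} (hp : p ⊆ O)
    {z : ι → ZMod 2} (h0 : ∀ v ∈ p, z v = 0)
    (hz : ∀ v ∈ O \ p, ∑ u ∈ O, e u v * (z u + z v) = 0) {a : ι} (ha : a ∈ O) (haz : z a ≠ 0) :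
    PS e p O = 0 := by
  unfold PS
  rw [← Matrix.exists_vecMul_eq_zero_iff]
  set y : ι → ZMod 2 := fun v => if v ∈ O \ p then z v else 0 with hy
  have hyz : ∀ v ∈ O, y v = z v := by
    intro v hv
    rw [hy]
    by_cases hvp : v ∈ p
    · simp only [mem_sdiff, hvp, not_true_eq_false, and_false, if_false, h0 v hvp]
    · simp only [mem_sdiff, hv, hvp, not_false_eq_true, and_self, if_true]
  have hy0 : ∀ v, v ∉ O \ p → y v = 0 := fun v hv => by rw [hy]; simp only [if_neg hv]
  refine ⟨y, ?_, ?_⟩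
  · intro h
    have h1 := congrFun h a
    rw [hyz a ha, Pi.zero_apply] at h1
    exact haz h1
  · funext v
    by_cases hv : v ∈ O \ p
    · rw [vec_iff e he hp y hy0 hv, Pi.zero_apply, ← hz v hv]
      refine Finset.sum_congr rfl fun u hu => ?_
      rw [hyz u hu, hyz v (mem_sdiff.1 hv).1]
    · rw [Matrix.vecMul, dotProduct, Pi.zero_apply]
      have h4 : ∀ u, y u * MM (fun v => ∑ a ∈ p, e a v) e (O \ p) (O \ p) u v =
          if u = v then y v else 0 := by
        intro u
        unfold MM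
        rw [if_neg hv]
        by_cases huv : u = v
        · subst huv
          rw [if_pos rfl, if_pos rfl, mul_one]
        · rw [if_neg huv, if_neg huv, mul_zero]
      simp_rw [h4]
      rw [Finset.sum_ite_eq', if_pos (mem_univ v)]
      exact hy0 v hv

theorem PS_one (e : ι → ι → ZMod 2) (he : ∀ v, e v v = 0) {p O : Finset ι} (hp : p ⊆ O)
    (hV : ∀ z : ι → ZMod 2, (∀ v ∈ p, z v = 0) →
      (∀ v ∈ O \ p, ∑ u ∈ O, e u v * (z u + z v) = 0) → ∀ v ∈ O, z v = 0) : PS e p O = 1 := by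
  by_contra hne
  have h0 : PS e p O = 0 := by
    have : ∀ a : ZMod 2, a ≠ 1 → a = 0 := by decide
    exact this _ hne
  unfold PS at h0
  obtain ⟨y, hy0, hy⟩ := Matrix.exists_vecMul_eq_zero_iff.2 h0
  have h1 : ∀ v, v ∉ O \ p → y v = 0 := by
    intro v hv
    have := congrFun hy v
    rw [Matrix.vecMul, dotProduct] at this
    unfold MM at this
    simpa [hv] using this
  apply hy0
  funext v
  by_cases hv : v ∈ O
  · refine hV y (fun v hv => h1 v (fun h => (mem_sdiff.1 h).2 hv)) (fun v hv => ?_) v hv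
    rw [← vec_iff e he hp y h1 hv, hy, Pi.zero_apply]
  · exact h1 v (fun h => hv (mem_sdiff.1 h).1)

end Pool.Agent.E8helper21.QT
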