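import Pool.Agent.E8helper21.QT.Rec
import Pool.Agent.E8helper21.QT.Phi2

/-!
The main congruence for the quartic central values of even weight.
-/

set_option autoImplicit false
set_option linter.unusedSectionVars false

open Filter Complex
open scoped Topology PeriodPair
open H667R3 hiding sq
open Pool.Agent.TH936.CM Pool.Agent.W192.HK

namespace Pool.Agent.E8helper21.QT

open Pool.Agent.Y699
open H385 (ZI RQ im1 nrm)
open Pool.Agent.H304R3.HK (tc)
open Pool.Agent.W164.RC (tc_mul tc_star two2 prim_iff_dvd unit_cases)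
open Pool.Agent.H304R2.EC.A1 (prim prim_mul prim_cancel prim_one prim_norm_odd prim_star eq_one_of_prim
  norm_def' re_mul' im_mul' eq_of_dvd prim_ne_zero)

variable {L : PeriodPair} {Ω : ℂ} {ι : Type} [Fintype ι] [DecidableEq ι] {pr : ι → ZI}

lemma Wt_erase {V : Finset ι} {i : ι} (hi : i ∈ V) {e : ι → ℕ} (he : e i = 0) :
    Wt pr (V.erase i) e = Wt pr V e := by
  unfold Wt
  rw [← Finset.add_sum_erase V _ hi, he, zero_mul, zero_add]

/-- the induction principle -/
theorem ind_e {r : ι} (hw : wq (pr r) % 2 = 1) {Φ : Finset ι → (ι → ℕ) → Prop}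
    (b1 : ∀ e, Wt pr {r} e % 4 = 2 → Φ {r} e)
    (b2 : ∀ V, r ∈ V → ∀ e, Wt pr V e % 4 = 2 → ∀ i ∈ V.erase r, e i = 0 → 
      Φ (V.erase i) e → Φ V e)
    (b3 : ∀ V, r ∈ V → 2 ≤ V.card → ∀ e, Wt pr V e % 4 = 2 → (∀ i ∈ V.erase r, 1 ≤ e i) →
      (∀ S ∈ (V.erase r).powerset.erase ∅, Φ V (es pr r e S)) → Φ V e) :
    ∀ V, r ∈ V → ∀ e, Wt pr V e % 4 = 2 → Φ V e := by
  intro V
  induction V using Finset.strongInduction with
  | H V ihV =>
    intro hr e hW
    suffices H : ∀ n : ℕ, ∀ e : ι → ℕ, ∑ i ∈ V.erase r, e i = n → Wt pr V e % 4 = 2 →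
        Φ V e from H _ e rfl hW
    clear hW e
    intro n
    induction n using Nat.strong_induction_on with
    | _ n ihn =>
      intro e hn hW
      have hcard : 1 ≤ V.card := Finset.card_pos.2 ⟨r, hr⟩
      by_cases hc1 : V.card = 1
      · obtain ⟨a, ha⟩ := Finset.card_eq_one.1 hc1
        have har : a = r := by rw [ha, Finset.mem_singleton] at hr; exact hr.symm
        subst har
        subst ha
        exact b1 e hW
      · by_cases h0 : ∃ i ∈ V.erase r, e i = 0
        · obtain ⟨i, hi, hei⟩ := h0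
          have hiV := Finset.mem_of_mem_erase hi
          have hir : i ≠ r := (Finset.mem_erase.1 hi).1
          refine b2 V hr e hW i hi hei ?_
          exact ihV (V.erase i) (Finset.erase_ssubset hiV) (Finset.mem_erase.2 ⟨hir.symm, hr⟩) e
            (by rw [Wt_erase hiV hei]; exact hW)
        · push Not at h0
          have he : ∀ i ∈ V.erase r, 1 ≤ e i := fun i hi => Nat.one_le_iff_ne_zero.2 (h0 i hi)
          refine b3 V hr (by omega) e hW he fun S hS => ?_
          rw [Finset.mem_erase, Finset.mem_powerset] at hS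
          refine ihn (∑ i ∈ V.erase r, es pr r e S i) ?_ (es pr r e S) rfl
            (by rw [es_Wt hr hw he hS.2, hW])
          rw [← hn]
          obtain ⟨j, hj⟩ := Finset.nonempty_iff_ne_empty.2 hS.1
          refine Finset.sum_lt_sum (fun i hi => ?_) ⟨j, hS.2 hj, ?_⟩
          · unfold es
            rw [if_neg (Finset.mem_erase.1 hi).1]
            split_ifs
            · omega
            · exact le_rfl
          · unfold es
            rw [if_neg (Finset.mem_erase.1 (hS.2 hj)).1, if_pos hj]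
            have := he j (hS.2 hj)
            omega

/-- the even odd-supports -/
theorem sum_reindex' {w : ι → ZMod 2} {V : Finset ι} {r : ι} (hr : r ∈ V) (hwr : w r = 1)
    (T : Finset ι → ZMod 2) (f : Finset ι → Finset ι) (O₀ : Finset ι) (c : ZMod 2)
    (h1 : ∀ S ⊆ V.erase r, f S ⊆ V) (h2 : ∀ S ⊆ V.erase r, ∑ j ∈ f S, w j = c)
    (h3 : ∀ S ⊆ V.erase r, ∀ j ∈ V.erase r, (j ∈ f S ↔ ¬ (j ∈ O₀ ↔ j ∈ S))) :
    ∑ S ∈ (V.erase r).powerset, T (f S) =
      ∑ O ∈ V.powerset.filter (fun O => ∑ j ∈ O, w j = c), T O := by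
  refine Finset.sum_bij (fun S _ => f S) ?_ ?_ ?_ (fun _ _ => rfl)
  · intro S hS
    rw [Finset.mem_powerset] at hS
    rw [Finset.mem_filter, Finset.mem_powerset]
    exact ⟨h1 S hS, h2 S hS⟩
  · intro S hS S' hS' heq
    rw [Finset.mem_powerset] at hS hS'
    ext j
    constructor
    · intro hj
      have a1 := h3 S hS j (hS hj)
      have a2 := h3 S' hS' j (hS hj)
      rw [heq] at a1
      tauto
    · intro hj
      have a1 := h3 S hS j (hS' hj)
      have a2 := h3 S' hS' j (hS' hj)
      rw [heq] at a1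
      tauto
  · intro O hO
    rw [Finset.mem_filter, Finset.mem_powerset] at hO
    refine ⟨(V.erase r).filter (fun j => ¬ (j ∈ O₀ ↔ j ∈ O)), ?_, ?_⟩
    · rw [Finset.mem_powerset]; exact Finset.filter_subset _ _
    · set S := (V.erase r).filter (fun j => ¬ (j ∈ O₀ ↔ j ∈ O)) with hSdef
      have hS : S ⊆ V.erase r := Finset.filter_subset _ _
      have b1 : ∀ j ∈ V.erase r, (j ∈ f S ↔ j ∈ O) := by
        intro j hj
        rw [h3 S hS j hj, hSdef, Finset.mem_filter]
        tauto
      have b2 : (f S).erase r = O.erase r := by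
        ext j
        rw [Finset.mem_erase, Finset.mem_erase]
        constructor
        · rintro ⟨c1, c2⟩
          exact ⟨c1, (b1 j (Finset.mem_erase.2 ⟨c1, h1 S hS c2⟩)).1 c2⟩
        · rintro ⟨c1, c2⟩
          exact ⟨c1, (b1 j (Finset.mem_erase.2 ⟨c1, hO.1 c2⟩)).2 c2⟩
      have hne : ∀ x : ZMod 2, 1 + x = c → x = c → False := by
        have : ∀ c x : ZMod 2, 1 + x = c → x = c → False := by decide
        exact this c
      have b3 : r ∈ f S ↔ r ∈ O := by
        have c1 := h2 S hS
        have c2 := hO.2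
        constructor
        · intro h
          by_contra h'
          rw [← Finset.add_sum_erase _ _ h, b2, Finset.erase_eq_of_notMem h', hwr] at c1
          exact hne _ c1 c2
        · intro h
          by_contra h'
          rw [← Finset.add_sum_erase _ _ h, ← b2, Finset.erase_eq_of_notMem h', hwr] at c2
          exact hne _ c2 c1
      ext j
      by_cases hj : j = r
      · rw [hj]; exact b3
      · constructor
        · intro c
          exact (b1 j (Finset.mem_erase.2 ⟨hj, h1 S hS c⟩)).1 c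
        · intro c
          exact (b1 j (Finset.mem_erase.2 ⟨hj, hO.1 c⟩)).2 c

lemma Od_wt' (hp : PF pr) {V : Finset ι} {e : ι → ℕ} (hW : Wt pr V e % 4 = 2) :
    ∑ j ∈ Od V e, wt pr j = 0 := by
  have h1 : ∑ j ∈ Od V e, wt pr j = ((Wt pr V e : ℕ) : ZMod 2) := by
    unfold Pool.Agent.Y699.Od Wt
    rw [Finset.sum_filter, Nat.cast_sum]
    refine Finset.sum_congr rfl fun i _ => ?_
    rw [Nat.cast_mul, wt_wq hp]
    split_ifs with h5
    · have h6 : ((e i : ℕ) : ZMod 2) = ((1 : ℕ) : ZMod 2) := by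
        rw [ZMod.natCast_eq_natCast_iff]
        exact h5
      rw [h6]; norm_num
    · have h6 : ((e i : ℕ) : ZMod 2) = ((0 : ℕ) : ZMod 2) := by
        rw [ZMod.natCast_eq_natCast_iff]
        show e i % 2 = 0 % 2
        omega
      rw [h6]; norm_num
  rw [h1]
  have h6 : ((Wt pr V e : ℕ) : ZMod 2) = ((0 : ℕ) : ZMod 2) := by
    rw [ZMod.natCast_eq_natCast_iff]
    show Wt pr V e % 2 = 0 % 2
    omega
  rw [h6]; norm_num

lemma wt_odd (hp : PF pr) {r : ι} (hw : wq (pr r) % 2 = 1) : wt pr r = 1 := by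
  rw [wt_wq hp]
  have h6 : ((wq (pr r) : ℕ) : ZMod 2) = ((1 : ℕ) : ZMod 2) := by
    rw [ZMod.natCast_eq_natCast_iff]
    exact hw
  rw [h6]; norm_num

/-- the target value -/
noncomputable def TR (pr : ι → ZI) (V O : Finset ι) : ZMod 2 :=
  if V.card ≤ 1 then 0 else if V.card = 2 then ∏ a ∈ V, wt pr a else
    FF (wt pr) (em pr) O * ∏ j ∈ V \ O, ∑ u ∈ O, em pr u j

lemma sum_TR (hp : PF pr) {V : Finset ι} {r : ι} (hr : r ∈ V) (hw : wq (pr r) % 2 = 1)
    (hc : 2 ≤ V.card) {e : ι → ℕ} (he : ∀ i ∈ V.erase r, 1 ≤ e i) (hW : Wt pr V e % 4 = 2) :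
    ∑ S ∈ (V.erase r).powerset, TR pr V (Od V (es pr r e S)) = 0 := by
  rcases Nat.lt_or_ge V.card 3 with h3 | h3
  · have h4 : V.card = 2 := by omega
    have h5 : ∀ S ∈ (V.erase r).powerset, TR pr V (Od V (es pr r e S)) = ∏ a ∈ V, wt pr a := by
      intro S _
      unfold TR
      rw [if_neg (by omega), if_pos h4]
    rw [Finset.sum_congr rfl h5, Finset.sum_const, Finset.card_powerset,
      Finset.card_erase_of_mem hr, h4]
    have : ∀ x : ZMod 2, (2 ^ (2 - 1)) • x = 0 := by decide
    exact this _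
  · have h5 := sum_reindex' (w := wt pr) hr (wt_odd hp hw) (fun O => TR pr V O)
      (fun S => Od V (es pr r e S)) (Od V e) 0
      (fun S _ => Finset.filter_subset _ _)
      (fun S hS => Od_wt' hp (by rw [es_Wt hr hw he hS, hW]))
      (fun S hS j hj => by
        have hjV := Finset.mem_of_mem_erase hj
        have hjr := (Finset.mem_erase.1 hj).1
        have hej := he j hj
        unfold Pool.Agent.Y699.Od
        rw [Finset.mem_filter, Finset.mem_filter]
        unfold es
        rw [if_neg hjr]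
        by_cases hjS : j ∈ S
        · simp only [hjS, hjV, true_and, if_true, iff_true]
          omega
        · simp only [hjS, hjV, true_and, if_false, iff_false, not_not])
    rw [h5]
    have h6 := sum_FF_even (wt pr) (em pr) (em_self hp) (em_symm hp) h3
    refine Eq.trans ?_ h6
    refine Finset.sum_congr rfl fun O _ => ?_
    unfold TR
    rw [if_neg (by omega), if_neg (by omega)]

lemma TR_pos {V : Finset ι} (hc : 2 ≤ V.card) : TR pr V V = FF (wt pr) (em pr) V := by
  unfold TR
  rw [if_neg (by omega)]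
  split_ifs with h
  · rw [FF_pair _ _ h]
  · rw [Finset.sdiff_self, Finset.prod_empty, mul_one]

end Pool.Agent.E8helper21.QT
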