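import Pool.Agent.Y699.Qv

/-!
A coordinate with good reduction at two, and an expansion of `℘ / (℘² + 1)` at the points of odd order.
-/

set_option autoImplicit false
set_option linter.unusedSectionVars false

open Filter Complex
open scoped Topology PeriodPair
open H667R3 hiding sq
open Pool.Agent.TH936.CM Pool.Agent.W192.HK

namespace Pool.Agent.E8helper21.QT

open Pool.Agent.Y699
open H385 (ZI RQ im1 nrm)
open Pool.Agent.H304R3.HK (tc)
open Pool.Agent.W164.RC (tc_mul tc_star two2)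

variable {L : PeriodPair} {Ω : ℂ}

lemma exists_rr : ∃ r : ℂ, r ^ 2 = (1 - 2 * I)⁻¹ :=
  IsAlgClosed.exists_pow_nat_eq _ two_pos

/-- a square root of `1 / (1 - 2 i)` -/
noncomputable def rr : ℂ := exists_rr.choose

lemma ne12 : (1 - 2 * I : ℂ) ≠ 0 := by
  intro h
  have := congrArg Complex.re h
  simp at this

lemma rr_sq : rr ^ 2 * (1 - 2 * I) = 1 := by
  have h := exists_rr.choose_spec
  have h2 : rr ^ 2 = (1 - 2 * I)⁻¹ := h
  rw [h2, inv_mul_cancel₀ ne12]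

lemma rr_ne : rr ≠ 0 := by
  intro h
  have := rr_sq
  rw [h] at this
  simp at this

/-- the normalized function -/
noncomputable def ph (L : PeriodPair) (z : ℂ) : ℂ := ℘[L] z / rr

/-- the coordinate -/
noncomputable def Xf (L : PeriodPair) (z : ℂ) : ℂ := (ph L z - 1) / (2 * I)

/-- the normalized value -/
noncomputable def gh (L : PeriodPair) (z : ℂ) : ℂ := 2 * rr * (1 - I) * (℘[L] z / (℘[L] z ^ 2 + 1))

/-- the main part -/
noncomputable def Bf (L : PeriodPair) (z : ℂ) : ℂ :=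
  (ph L ((1 + I) * z) + I * ph L z) / (1 + I) + ph L ((1 + I) ^ 2 * z) + ph L ((1 + I) * z) -
    2 * ph L z

/-- the remainder -/
noncomputable def Rf (L : PeriodPair) (z : ℂ) : ℂ := (gh L z - Bf L z) / (1 + I) ^ 3

lemma ph_Xf (z : ℂ) : ph L z = 1 + 2 * I * Xf L z := by
  unfold Xf
  rw [mul_div_cancel₀ _ (mul_ne_zero two_ne_zero I_ne_zero)]
  ring

lemma wp_Xf (z : ℂ) : ℘[L] z = rr * (1 + 2 * I * Xf L z) := by
  rw [← ph_Xf]
  unfold ph
  rw [mul_div_cancel₀ _ rr_ne]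

lemma Xf_rel (h : GLat L Ω) {z : ℂ} (hz : 2 * z ∉ L.lattice) :
    Xf L ((1 + I) * z) * (1 + 2 * I * Xf L z) = Xf L z * (Xf L z - (1 + I)) := by
  obtain ⟨h1, -⟩ := h.mul_pi hz
  rw [wp_Xf z, wp_Xf ((1 + I) * z)] at h1
  have hr := rr_sq
  set a := Xf L z
  set b := Xf L ((1 + I) * z)
  have h2 : rr ^ 2 * (4 * (b * (1 + 2 * I * a) - a * (a - (1 + I)))) = 0 := by
    linear_combination (-1) * h1 - hr +
      (rr ^ 2 * (4 * b + 4 * a ^ 2 + 8 * I * a * b + 4 * a - 8 * a ^ 2)) * I_sq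
  have h3 := (mul_eq_zero.1 h2).resolve_left (pow_ne_zero 2 rr_ne)
  have h4 := (mul_eq_zero.1 h3).resolve_left (by norm_num)
  linear_combination h4

lemma ph_I (h : GLat L Ω) (z : ℂ) : ph L (I * z) = -ph L z := by
  unfold ph
  rw [wp_I h.lat]
  ring

lemma gh_I (h : GLat L Ω) (z : ℂ) : gh L (I * z) = -gh L z := by
  unfold gh
  rw [wp_I h.lat]
  ring

lemma Rf_I (h : GLat L Ω) (z : ℂ) : Rf L (I * z) = -Rf L z := by
  have e1 : (1 + I) * (I * z) = I * ((1 + I) * z) := by ring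
  have e2 : (1 + I) ^ 2 * (I * z) = I * ((1 + I) ^ 2 * z) := by ring
  unfold Rf Bf
  rw [e1, e2, ph_I h, ph_I h, ph_I h, gh_I h]
  ring

lemma ph_per (L : PeriodPair) {z w : ℂ} (h : z - w ∈ L.lattice) : ph L z = ph L w := by
  unfold ph
  rw [wp_per L h]

lemma gh_per (L : PeriodPair) {z w : ℂ} (h : z - w ∈ L.lattice) : gh L z = gh L w := by
  unfold gh
  rw [wp_per L h]

lemma pi_per (hL : IsLat L RG Ω) {z w : ℂ} (h : z - w ∈ L.lattice) :
    (1 + I) * z - (1 + I) * w ∈ L.lattice := by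
  have h1 := lat_mul hL pi1 h
  rw [tc_pi1] at h1
  have e : (1 + I) * z - (1 + I) * w = (1 + I) * (z - w) := by ring
  rwa [e]

lemma Rf_per (hL : IsLat L RG Ω) {z w : ℂ} (h : z - w ∈ L.lattice) : Rf L z = Rf L w := by
  have h1 := pi_per hL h
  have h2 := pi_per hL h1
  have e1 : (1 + I) ^ 2 * z = (1 + I) * ((1 + I) * z) := by ring
  have e2 : (1 + I) ^ 2 * w = (1 + I) * ((1 + I) * w) := by ring
  unfold Rf Bf
  rw [gh_per L h, ph_per L h, ph_per L h1, e1, e2, ph_per L h2]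

section val

variable {Γ : Type*} [LinearOrderedCommGroupWithZero Γ] {v : Valuation ℂ Γ} (h2 : v 2 < 1)
  (h : GLat L Ω)

include h2 h

lemma Xf_le {z : ℂ} (hz : OT L z) : v (Xf L z) ≤ 1 := by
  by_contra hc
  push Not at hc
  obtain ⟨N, hN, hper⟩ := hz.per h
  have hperX : ∀ k : ℕ, Xf L ((1 + I) ^ (k + N) * z) = Xf L ((1 + I) ^ k * z) := by
    intro k
    unfold Xf ph
    rw [hper]
  have step : ∀ k : ℕ, 1 < v (Xf L ((1 + I) ^ k * z)) →
      v (Xf L ((1 + I) ^ k * z)) < v (Xf L ((1 + I) ^ (k + 1) * z)) := by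
    intro k hk
    have h1 := Xf_rel h ((hz.pow h k).two h)
    have e : (1 + I) * ((1 + I) ^ k * z) = (1 + I) ^ (k + 1) * z := by ring
    rw [e] at h1
    have h4 := congrArg v h1
    set a := Xf L ((1 + I) ^ k * z)
    set b := Xf L ((1 + I) ^ (k + 1) * z)
    have h5 : v (a - (1 + I)) = v a := by
      apply Valuation.map_sub_eq_of_lt_left
      exact (v_pi_lt h2).trans hk
    rw [map_mul, map_mul, h5] at h4
    have h6 : v (1 + 2 * I * a) < v a := by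
      refine lt_of_le_of_lt (v.map_add _ _) (max_lt ?_ ?_)
      · rw [map_one]; exact hk
      · rw [map_mul, map_mul, v_I, mul_one]
        calc v 2 * v a < 1 * v a := mul_lt_mul_of_pos_right h2 (zero_lt_one.trans hk)
          _ = v a := one_mul _
    by_contra hc2
    push Not at hc2
    have h7 : v b * v (1 + 2 * I * a) < v a * v a := by
      refine lt_of_le_of_lt (mul_le_mul_left hc2 _) ?_
      exact mul_lt_mul_of_pos_left h6 (zero_lt_one.trans hk)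
    rw [h4] at h7
    exact lt_irrefl _ h7
  have hmono : ∀ k : ℕ, 1 < v (Xf L ((1 + I) ^ k * z)) ∧
      (0 < k → v (Xf L z) < v (Xf L ((1 + I) ^ k * z))) := by
    intro k
    induction k with
    | zero => rw [pow_zero, one_mul]; exact ⟨hc, fun h => absurd h (lt_irrefl _)⟩
    | succ k ih =>
      have h3 := step k ih.1
      refine ⟨ih.1.trans h3, fun _ => ?_⟩
      rcases Nat.eq_zero_or_pos k with h4 | h4
      · subst h4
        rw [pow_zero, one_mul] at h3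
        exact h3
      · exact (ih.2 h4).trans h3
  have h5 := (hmono N).2 hN
  have h6 := hperX 0
  rw [zero_add, pow_zero, one_mul] at h6
  rw [h6] at h5
  exact lt_irrefl _ h5

lemma OT.pi {z : ℂ} (hz : OT L z) : OT L ((1 + I) * z) := by
  have := hz.pow h 1
  rwa [pow_one] at this

lemma ph_le {z : ℂ} (hz : OT L z) : v (ph L z) ≤ 1 := by
  rw [ph_Xf]
  refine v.map_add_le (by rw [map_one]) ?_
  rw [map_mul, map_mul, v_I, mul_one]
  exact mul_le_one' h2.le (Xf_le h2 h hz)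

/-- the quotient is close to one -/
lemma gh_rel {z : ℂ} (hz : OT L z) :
    gh L z * (1 - (1 + I) * (Xf L z ^ 2 - I * Xf L z)) = 1 + 2 * I * Xf L z ∧
    ℘[L] z ^ 2 + 1 ≠ 0 := by
  have hX := Xf_le h2 h hz
  set X := Xf L z with hXd
  have hY : v ((1 + I) * (X ^ 2 - I * X)) < 1 := by
    rw [map_mul]
    refine lt_of_le_of_lt (mul_le_of_le_one_right' ?_) (v_pi_lt h2)
    refine v.map_sub_le ?_ ?_
    · rw [map_pow]; exact pow_le_one' hX 2
    · rw [map_mul, v_I, one_mul]; exact hX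
  have hne : 1 - (1 + I) * (X ^ 2 - I * X) ≠ 0 := by
    intro h0
    have h1 : (1 + I) * (X ^ 2 - I * X) = 1 := by linear_combination -h0
    rw [h1, map_one] at hY
    exact lt_irrefl _ hY
  have hr := rr_sq
  have e1 : ℘[L] z ^ 2 + 1 = rr ^ 2 * (2 * (1 - I)) * (1 - (1 + I) * (X ^ 2 - I * X)) := by
    rw [wp_Xf z, ← hXd]
    linear_combination (-1) * hr + (rr ^ 2 * (2 * X ^ 2 + 2 * I * X)) * I_sq
  have h1I : (1 - I : ℂ) ≠ 0 := by
    intro h0
    have := congrArg Complex.re h0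
    simp at this
  have hne2 : ℘[L] z ^ 2 + 1 ≠ 0 := by
    rw [e1]
    exact mul_ne_zero (mul_ne_zero (pow_ne_zero 2 rr_ne) (mul_ne_zero two_ne_zero h1I)) hne
  refine ⟨?_, hne2⟩
  unfold gh
  have e2 : 2 * rr * (1 - I) * (℘[L] z / (℘[L] z ^ 2 + 1)) *
      (1 - (1 + I) * (X ^ 2 - I * X)) = (2 * rr * (1 - I) * ℘[L] z *
      (1 - (1 + I) * (X ^ 2 - I * X))) / (℘[L] z ^ 2 + 1) := by
    rw [mul_div_assoc', div_mul_eq_mul_div]
  rw [e2, div_eq_iff hne2, e1, wp_Xf z, ← hXd]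
  ring

/-- the quotient is congruent to one -/
lemma gh_cg {z : ℂ} (hz : OT L z) : Cg v (gh L z) 1 := by
  obtain ⟨h1, -⟩ := gh_rel h2 h hz
  have hX := Xf_le h2 h hz
  set X := Xf L z
  have hY' : v (X ^ 2 - I * X) ≤ 1 := by
    refine v.map_sub_le ?_ ?_
    · rw [map_pow]; exact pow_le_one' hX 2
    · rw [map_mul, v_I, one_mul]; exact hX
  have hY : v ((1 + I) * (X ^ 2 - I * X)) < 1 := by
    rw [map_mul]
    exact lt_of_le_of_lt (mul_le_of_le_one_right' hY') (v_pi_lt h2)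
  have h3 : v (1 - (1 + I) * (X ^ 2 - I * X)) = 1 := by
    have := Valuation.map_sub_eq_of_lt_right v (x := (1 + I) * (X ^ 2 - I * X)) (y := 1)
      (by rw [map_one]; exact hY)
    rw [v.map_sub_swap, this, map_one]
  have h5 : v (1 + 2 * I * X) ≤ 1 := by
    refine v.map_add_le (by rw [map_one]) ?_
    rw [map_mul, map_mul, v_I, mul_one]
    exact mul_le_one' h2.le hX
  have h4 : v (gh L z) ≤ 1 := by
    have := congrArg v h1
    rw [map_mul, h3, mul_one] at this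
    rw [this]
    exact h5
  refine ⟨h4, by rw [map_one], ?_⟩
  have e1 : gh L z - 1 = 2 * I * X + (1 + I) * (X ^ 2 - I * X) * gh L z := by
    linear_combination h1
  rw [e1]
  refine v.map_add_lt ?_ ?_
  · rw [map_mul, map_mul, v_I, mul_one]
    exact lt_of_le_of_lt (mul_le_of_le_one_right' hX) h2
  · rw [map_mul]
    exact lt_of_le_of_lt (mul_le_of_le_one_right' h4) hY

/-- **the remainder is integral** -/
theorem Rf_le {z : ℂ} (hz : OT L z) : v (Rf L z) ≤ 1 := by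
  obtain ⟨h1, -⟩ := gh_rel h2 h hz
  have hz1 := OT.pi h2 h hz
  have hz2 := OT.pi h2 h hz1
  have hX := Xf_le h2 h hz
  have hX1 := Xf_le h2 h hz1
  have hX2 := Xf_le h2 h hz2
  have hg := (gh_cg h2 h hz).l
  have r1 := Xf_rel h (hz.two h)
  have r2 := Xf_rel h (hz1.two h)
  have e2 : (1 + I) ^ 2 * z = (1 + I) * ((1 + I) * z) := by ring
  set X := Xf L z with hXd
  set X1 := Xf L ((1 + I) * z) with hX1d
  set X2 := Xf L ((1 + I) * ((1 + I) * z)) with hX2d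
  set g := gh L z with hgd
  have h1I : (1 + I : ℂ) ≠ 0 := one_I_ne
  have key : Rf L z =
      ((X + (1 + I) * X * X1) * (X ^ 2 + X1) - (1 - I) * I * X ^ 3 - (1 - I) * X ^ 2 + X1 +
        (1 + I) * X1 * X2 + X + (1 + I) * X * X1) +
      (-I * X + X * (X ^ 2 - I * X) + (X ^ 2 - I * X) ^ 2 * ((1 + I) * X + (X ^ 2 - I * X) * g) +
        X * X1 - I * (1 + I) * X) := by
    unfold Rf Bf
    rw [div_eq_iff (pow_ne_zero 3 h1I), e2, ph_Xf z, ph_Xf ((1 + I) * z),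
      ph_Xf ((1 + I) * ((1 + I) * z)), ← hXd, ← hX1d, ← hX2d, ← hgd]
    have e3 : (1 + 2 * I * X1 + I * (1 + 2 * I * X)) / (1 + I) = 1 + (1 + I) * (X1 + I * X) := by
      rw [div_eq_iff h1I]
      linear_combination (X1 + I * X) * (-1) * I_sq + 0 * I_sq
    rw [e3]
    linear_combination (1 + (1 + I) * (X ^ 2 - I * X) + (1 + I) ^ 2 * (X ^ 2 - I * X) ^ 2) * h1 -
      ((1 + I) + (1 + I) ^ 2 + (1 + I) ^ 2 * (X ^ 2 + X1)) * r1 - (1 + I) ^ 2 * r2 +
      (- I ^ 4 * X ^ 3 + 2 * I ^ 3 * X ^ 4 - 3 * I ^ 3 * X ^ 3 + I ^ 3 * X - I ^ 2 * X ^ 5 +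
        4 * I ^ 2 * X ^ 4 - I ^ 2 * X ^ 3 * X1 - 3 * I ^ 2 * X ^ 3 + I ^ 2 * X ^ 2 -
        I ^ 2 * X * X1 ^ 2 - I ^ 2 * X * X1 + 5 * I ^ 2 * X - I ^ 2 * X1 * X2 - 2 * I * X ^ 5 +
        2 * I * X ^ 4 - 2 * I * X ^ 3 * X1 - 2 * I * X ^ 3 + I * X ^ 2 - 2 * I * X * X1 ^ 2 -
        3 * I * X * X1 + 8 * I * X - 2 * I * X1 * X2 - X ^ 5 - X ^ 3 * X1 - X ^ 3 - X * X1 ^ 2 -
        2 * X * X1 + X - X1 * X2 + X1 + X2) * I_sq
  have i1 : v (1 + I) ≤ 1 := (v_pi_lt h2).le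
  have i2 : v (1 - I) ≤ 1 := v.map_sub_le (by rw [map_one]) (by rw [v_I])
  have i3 : v I ≤ 1 := by rw [v_I]
  have mm : ∀ {a b : ℂ}, v a ≤ 1 → v b ≤ 1 → v (a * b) ≤ 1 := fun ha hb => by
    rw [map_mul]; exact mul_le_one' ha hb
  have pp : ∀ {a : ℂ} (n : ℕ), v a ≤ 1 → v (a ^ n) ≤ 1 := fun n ha => by
    rw [map_pow]; exact pow_le_one' ha n
  have ni : v (-I) ≤ 1 := by rw [Valuation.map_neg]; exact i3
  have hYi : v (X ^ 2 - I * X) ≤ 1 := v.map_sub_le (pp 2 hX) (mm i3 hX)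
  rw [key]
  refine v.map_add_le ?_ ?_
  · refine v.map_add_le (v.map_add_le (v.map_add_le (v.map_add_le (v.map_sub_le (v.map_sub_le
      (mm (v.map_add_le hX (mm (mm i1 hX) hX1)) (v.map_add_le (pp 2 hX) hX1))
      (mm (mm i2 i3) (pp 3 hX))) (mm i2 (pp 2 hX))) hX1) (mm (mm i1 hX1) hX2)) hX) (mm (mm i1 hX) hX1)
  · refine v.map_sub_le (v.map_add_le (v.map_add_le (v.map_add_le (mm ni hX) (mm hX hYi))
      (mm (pp 2 hYi) (v.map_add_le (mm i1 hX) (mm hYi hg)))) (mm hX hX1)) (mm (mm i3 i1) hX)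

end val

end Pool.Agent.E8helper21.QT
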