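import Pool.Agent.E8helper21.QT.Dup

/-!
The regularized sums of the quartic character of even weight.
-/

set_option autoImplicit false
set_option linter.unusedSectionVars false

open Filter Complex
open scoped Topology PeriodPair
open H667R3 hiding sq
open Pool.Agent.TH936.CM Pool.Agent.W192.HK

namespace Pool.Agent.E8helper21.QT

open Pool.Agent.Y699
open H385 (ZI RQ im1 nrm)
open Pool.Agent.H304R3.HK (tc)
open Pool.Agent.W164.RC (tc_mul tc_star two2 prim_iff_dvd unit_cases)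
open Pool.Agent.H304R2.EC.A1 (prim prim_mul prim_cancel prim_one prim_norm_odd prim_star eq_one_of_prim
  norm_def' re_mul' im_mul' eq_of_dvd prim_ne_zero)

variable {L : PeriodPair} {Ω : ℂ} {ι : Type} [DecidableEq ι] {pr : ι → ZI}

lemma c4_neg2 (hp : PF pr) {V : Finset ι} {e : ι → ℕ} (hW : Wt pr V e % 4 = 2) (a : ZI) :
    c4 pr V e (-a) = c4 pr V e a := by
  have e1 : -a = (-1) * a := by ring
  rw [e1, c4_mul hp, c4_unit hp V e (by decide : (-1 : ZI).norm = 1),
    unit_pow_mod (by decide : (-1 : ZI).norm = 1) (n := 2) (by rw [hW])]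
  ring

lemma c4_im2 (hp : PF pr) {V : Finset ι} {e : ι → ℕ} (hW : Wt pr V e % 4 = 2) (a : ZI) :
    c4 pr V e (im1 * a) = -c4 pr V e a := by
  rw [c4_mul hp, c4_unit hp V e im1_norm, unit_pow_mod im1_norm (n := 2) (by rw [hW])]
  have : im1 ^ 2 = (-1 : ZI) := by decide
  rw [this, neg_one_mul]

theorem RS_cc4' (h : IsLat L RG Ω) (hp : PF pr) (V : Finset ι) (e : ι → ℕ)
    [Fintype (RQ (DD pr V))] {δ : ℝ} (hδ : 0 < δ) :
    RS (cc4 pr V e) δ = Ω / (tc (DD pr V) * tc two2) *
      ∑ q : RQ (DD pr V), tc (c4 pr V e (two2 * q.out)) *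
        EG Ω (δ * Complex.normSq (tc (DD pr V) * tc two2 / Ω)) (dz Ω + zq Ω (DD pr V) q.out) := by
  set D := DD pr V with hD
  have hD0 : D ≠ 0 := DD_ne hp V
  have hDc := tc_ne hD0
  have h2c := tc_ne two2_ne
  have hΩ := h.ne
  have hinj : Function.Injective (fun t : ZI => D + two2 * t) := by
    intro a b hab
    have : two2 * a = two2 * b := by
      have h1 : D + two2 * a = D + two2 * b := hab
      linear_combination h1
    exact mul_left_cancel₀ two2_ne this
  have hshift : ∀ t : ZI, cc4 pr V e (D + two2 * t) = tc (c4 pr V e (two2 * t)) := by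
    intro t
    unfold cc4
    rw [if_pos]
    · rw [c4_per hp V e (a := D + two2 * t) (b := two2 * t)]
      rw [add_sub_cancel_right]
    · rw [prim_iff_dvd]
      have h2 := (prim_iff_dvd _).1 (DD_prim hp V)
      have e : D + two2 * t - 1 = (D - 1) + two2 * t := by ring
      rw [e]
      exact dvd_add h2 (dvd_mul_right _ _)
  have e1 : RS (cc4 pr V e) δ = ∑' t : ZI, tc (c4 pr V e (two2 * t)) * fd δ (tc (D + two2 * t)) := by
    unfold RS
    rw [← hinj.tsum_eq]
    · refine tsum_congr fun t => ?_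
      rw [hshift t]
    · intro a ha
      rw [Function.mem_support] at ha
      by_contra hc
      apply ha
      have : cc4 pr V e a = 0 := by
        unfold cc4
        rw [if_neg]
        intro h1
        apply hc
        have h3 := (prim_iff_dvd _).1 h1
        have h4 := (prim_iff_dvd _).1 (DD_prim hp V)
        obtain ⟨c, hc'⟩ := dvd_sub h3 h4
        exact ⟨c, by
          show D + two2 * c = a
          rw [← hc', ← hD]
          ring⟩
      rw [this, zero_mul]
  have hs1 : Summable (fun t : ZI => tc (c4 pr V e (two2 * t)) * fd δ (tc (D + two2 * t))) := by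
    have h1 := (summ_bd h hδ (cc4_bd hp V e)).comp_injective hinj
    refine h1.congr fun t => ?_
    simp only [Function.comp_apply]
    rw [hshift t]
  set c : ℂ := tc D * tc two2 / Ω with hc
  have hc0 : c ≠ 0 := div_ne_zero (mul_ne_zero hDc h2c) hΩ
  have hs2 : Summable (fun p : RQ D × ZI =>
      tc (c4 pr V e (two2 * prt' D hD0 p)) * fd δ (tc (D + two2 * prt' D hD0 p))) :=
    ((prt' D hD0).summable_iff
      (f := fun t => tc (c4 pr V e (two2 * t)) * fd δ (tc (D + two2 * t)))).2 hs1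
  rw [e1, ← (prt' D hD0).tsum_eq, hs2.tsum_prod' (fun q => hs2.prod_factor q), tsum_fintype,
    Finset.mul_sum]
  refine Finset.sum_congr (by ext; simp) fun q _ => ?_
  unfold EG
  rw [← tsum_mul_left, ← tsum_mul_left]
  refine tsum_congr fun b => ?_
  have e2 : c4 pr V e (two2 * prt' D hD0 (q, b)) = c4 pr V e (two2 * q.out) := by
    apply c4_per hp
    rw [prt'_apply]
    exact ⟨two2 * b, by ring⟩
  have e3 : tc (D + two2 * prt' D hD0 (q, b)) =
      c * (dz Ω + zq Ω D q.out + Ω * tc b) := by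
    rw [prt'_apply, tc_add, tc_mul, tc_add, tc_mul, dz_eq, tc_one, hc]
    unfold zq
    field_simp
    ring
  rw [e2, e3, fd_mul, hc, inv_div]
  ring

/-- the limit of the sum over the division points -/
theorem lim_A2 (h : GLat L Ω) {D : ZI} (hD : prim D) [Fintype (RQ D)] {F : ZI → ℂ}
    (hper : ∀ a b, D ∣ a - b → F a = F b) (hi : ∀ a, F (im1 * a) = -F a)
    (hz : ∀ a, D ∣ a → F a = 0) :
    Tendsto (fun δ : ℝ => ∑ q : RQ D, F q.out * EG Ω δ (dz Ω + zq Ω D q.out)) (𝓝[>] 0)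
      (𝓝 (-(1 / 2) * ℘'[L] (dz Ω) * ∑ q : RQ D, F q.out *
        (℘[L] (zq Ω D q.out) / (℘[L] (zq Ω D q.out) ^ 2 + 1)))) := by
  have hD0 : D ≠ 0 := prim_ne_zero hD
  have hn : ∀ a, F (-a) = F a := by
    intro a
    have e : -a = im1 * (im1 * a) := by
      rw [← mul_assoc, show im1 * im1 = (-1 : ZI) by decide]
      ring
    rw [e, hi, hi, neg_neg]
  have hx0 := h.x0_sq
  -- the total sum
  have hS0 : ∑ q : RQ D, F q.out = 0 := by
    have h1 : ∑ q : RQ D, F q.out = -∑ q : RQ D, F q.out := by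
      conv_lhs => rw [← sum_unit_mul (im1_isUnit D)]
      rw [← Finset.sum_neg_distrib]
      refine Finset.sum_congr rfl fun q _ => ?_
      rw [hper _ _ (out_mul D im1 q), hi]
    have h2 : (2 : ℂ) * ∑ q : RQ D, F q.out = 0 := by linear_combination h1
    exact (mul_eq_zero.1 h2).resolve_left two_ne_zero
  have hsym : ∀ δ : ℝ, ∑ q : RQ D, F q.out * EG Ω δ (dz Ω + zq Ω D q.out) =
      ∑ q : RQ D, F q.out * (1 / 2 * (EG Ω δ (dz Ω + zq Ω D q.out) +
        EG Ω δ (dz Ω - zq Ω D q.out) - 2 * EG Ω δ (dz Ω))) := by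
    intro δ
    have h5 : ∑ q : RQ D, F q.out * EG Ω δ (dz Ω + zq Ω D q.out) =
        ∑ q : RQ D, F q.out * EG Ω δ (dz Ω - zq Ω D q.out) := by
      rw [← Equiv.sum_comp (Equiv.neg (RQ D))]
      refine Finset.sum_congr rfl fun q _ => ?_
      rw [Equiv.neg_apply, hper _ _ (out_neg D q), hn]
      congr 1
      apply EG_per h.lat
      have h6 := zq_sub h.lat hD0 (out_neg D q)
      rw [zq_neg] at h6
      have e : dz Ω + zq Ω D (-q).out - (dz Ω - zq Ω D q.out) =
          zq Ω D (-q).out - -zq Ω D q.out := by ring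
      rwa [e]
    have h6 : ∀ q : RQ D, F q.out * (1 / 2 * (EG Ω δ (dz Ω + zq Ω D q.out) +
        EG Ω δ (dz Ω - zq Ω D q.out) - 2 * EG Ω δ (dz Ω))) =
        1 / 2 * (F q.out * EG Ω δ (dz Ω + zq Ω D q.out)) +
        1 / 2 * (F q.out * EG Ω δ (dz Ω - zq Ω D q.out)) - EG Ω δ (dz Ω) * F q.out := by
      intro q; ring
    rw [Finset.sum_congr rfl fun q _ => h6 q, Finset.sum_sub_distrib, Finset.sum_add_distrib,
      ← Finset.mul_sum, ← Finset.mul_sum, ← Finset.mul_sum, hS0, ← h5]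
    ring
  -- the limit of each term
  have key : ∀ q : RQ D, Tendsto (fun δ : ℝ => F q.out * (1 / 2 * (EG Ω δ (dz Ω + zq Ω D q.out) +
        EG Ω δ (dz Ω - zq Ω D q.out) - 2 * EG Ω δ (dz Ω)))) (𝓝[>] 0)
        (𝓝 (1 / 2 * (F q.out * Dd L (dz Ω) (zq Ω D q.out)))) := by
    intro q
    by_cases hq : D ∣ q.out
    · rw [hz _ hq]
      simp only [zero_mul, mul_zero]
      exact tendsto_const_nhds
    · have n1 := zq_notMem h hD0 hq
      have n2 := dz_add h hD q.out
      have n3 : dz Ω - zq Ω D q.out ∉ L.lattice := by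
        have := dz_add h hD (-q.out)
        rwa [zq_neg, ← sub_eq_add_neg] at this
      have h3 := lim_Dd h.lat h.dz_notMem n1 n2 n3
      have h4 := (h3.const_mul (1 / 2)).const_mul (F q.out)
      have e : 1 / 2 * (F q.out * Dd L (dz Ω) (zq Ω D q.out)) =
          F q.out * (1 / 2 * Dd L (dz Ω) (zq Ω D q.out)) := by ring
      rw [e]
      refine h4.congr fun δ => ?_
      rw [← EG_eq, ← EG_eq, ← EG_eq]
  have key2 := tendsto_finsetSum Finset.univ fun q _ => key q
  -- the value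
  set T : ℂ := ∑ q : RQ D, F q.out * Dd L (dz Ω) (zq Ω D q.out) with hT
  have hT1 : T = ∑ q : RQ D, F q.out * (-(℘'[L] (dz Ω) / (℘[L] (dz Ω) + ℘[L] (zq Ω D q.out)))) := by
    rw [hT, ← sum_unit_mul (im1_isUnit D)]
    refine Finset.sum_congr rfl fun q _ => ?_
    rw [hper _ _ (out_mul D im1 q), hi]
    have h6 : ℘[L] (zq Ω D (Ideal.Quotient.mk (Ideal.span {D}) im1 * q).out) =
        -℘[L] (zq Ω D q.out) := by
      rw [← wp_I h.lat]
      apply wp_per
      have h3 := zq_sub h.lat hD0 (out_mul D im1 q)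
      rwa [zq_mul, tc_im1] at h3
    unfold Dd
    rw [h6, sub_neg_eq_add]
    ring
  have hT2 : 2 * T = ∑ q : RQ D, F q.out * (-(2 * ℘'[L] (dz Ω)) *
      (℘[L] (zq Ω D q.out) / (℘[L] (zq Ω D q.out) ^ 2 + 1))) := by
    have h1 : 2 * T = T + T := by ring
    rw [h1]
    nth_rewrite 2 [hT1]
    rw [hT, ← Finset.sum_add_distrib]
    refine Finset.sum_congr rfl fun q _ => ?_
    rw [← mul_add]
    by_cases hq : D ∣ q.out
    · rw [hz _ hq, zero_mul, zero_mul]
    · congr 1
      have hOT := zq_OT h hD hq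
      unfold Dd
      have hne2 : ℘[L] (zq Ω D q.out) ^ 2 + 1 ≠ 0 := by
        obtain ⟨B, hB⟩ := exists_val
        exact (gh_rel (v := B.valuation) hB h hOT).2
      set w := ℘[L] (zq Ω D q.out)
      set x := ℘[L] (dz Ω)
      have hf : (x - w) * (x + w) = -(w ^ 2 + 1) := by linear_combination hx0
      have hf1 : x - w ≠ 0 := by
        intro h0; rw [h0, zero_mul] at hf; exact hne2 (neg_eq_zero.1 hf.symm)
      have hf2 : x + w ≠ 0 := by
        intro h0; rw [h0, mul_zero] at hf; exact hne2 (neg_eq_zero.1 hf.symm)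
      have e2 : w ^ 2 + 1 = -((x - w) * (x + w)) := by rw [hf, neg_neg]
      rw [e2]
      field_simp
      ring
  have hval : ∑ q : RQ D, 1 / 2 * (F q.out * Dd L (dz Ω) (zq Ω D q.out)) =
      -(1 / 2) * ℘'[L] (dz Ω) * ∑ q : RQ D, F q.out *
        (℘[L] (zq Ω D q.out) / (℘[L] (zq Ω D q.out) ^ 2 + 1)) := by
    rw [← Finset.mul_sum, ← hT]
    have h1 : ∑ q : RQ D, F q.out * (-(2 * ℘'[L] (dz Ω)) *
      (℘[L] (zq Ω D q.out) / (℘[L] (zq Ω D q.out) ^ 2 + 1))) = -(2 * ℘'[L] (dz Ω)) *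
        ∑ q : RQ D, F q.out * (℘[L] (zq Ω D q.out) / (℘[L] (zq Ω D q.out) ^ 2 + 1)) := by
      rw [Finset.mul_sum]
      exact Finset.sum_congr rfl fun q _ => by ring
    rw [h1] at hT2
    linear_combination (1 / 4 : ℂ) * hT2
  rw [hval] at key2
  refine key2.congr fun δ => ?_
  rw [hsym δ]

/-- the normalized value -/
noncomputable def SF (f : ℂ → ℂ) (Ω : ℂ) (pr : ι → ZI) (V : Finset ι) (e : ι → ℕ)
    [Fintype (RQ (DD pr V))] : ℂ :=
  1 / 4 * ∑ q : RQ (DD pr V), tc (c4 pr V e (two2 * q.out)) * f (zq Ω (DD pr V) q.out)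

/-- the constant -/
noncomputable def kap (L : PeriodPair) (Ω : ℂ) : ℂ := -Ω * ℘'[L] (dz Ω) / (tc two2 * rr * (1 - I))

theorem lim_cc4' (h : GLat L Ω) (hp : PF pr) {V : Finset ι} (hV : V.Nonempty) {e : ι → ℕ}
    (hW : Wt pr V e % 4 = 2) [Fintype (RQ (DD pr V))] :
    Tendsto (RS (cc4 pr V e)) (𝓝[>] 0)
      (𝓝 (kap L Ω / tc (DD pr V) * SF (gh L) Ω pr V e)) := by
  have hDp := DD_prim hp V
  have hDc := tc_ne (DD_ne hp V)
  have h2c := tc_ne two2_ne
  have hΩ := h.lat.ne
  have hc : 0 < Complex.normSq (tc (DD pr V) * tc two2 / Ω) :=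
    Complex.normSq_pos.2 (div_ne_zero (mul_ne_zero hDc h2c) hΩ)
  have h1I : (1 - I : ℂ) ≠ 0 := by
    intro h0
    have := congrArg Complex.re h0
    simp at this
  have h1 := lim_A2 h hDp (F := fun t => tc (c4 pr V e (two2 * t)))
    (fun a b hab => by
      rw [c4_per hp V e (a := two2 * a) (b := two2 * b) (by rw [← mul_sub]; exact hab.mul_left _)])
    (fun a => by
      have e1 : two2 * (im1 * a) = im1 * (two2 * a) := by ring
      rw [e1, c4_im2 hp hW, tc_neg])
    (fun a ha => by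
      obtain ⟨i, hi⟩ := hV
      rw [c4_zero e hi (((dvd_DD hi).trans ha).mul_left _), tc_zero])
  have h2 := (tendsto_scale h1 hc).const_mul (Ω / (tc (DD pr V) * tc two2))
  have e3 : Ω / (tc (DD pr V) * tc two2) * (-(1 / 2) * ℘'[L] (dz Ω) *
      ∑ q : RQ (DD pr V), tc (c4 pr V e (two2 * q.out)) *
        (℘[L] (zq Ω (DD pr V) q.out) / (℘[L] (zq Ω (DD pr V) q.out) ^ 2 + 1))) =
      kap L Ω / tc (DD pr V) * SF (gh L) Ω pr V e := by
    unfold SF kap gh
    have e4 : ∑ q : RQ (DD pr V), tc (c4 pr V e (two2 * q.out)) *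
        (2 * rr * (1 - I) * (℘[L] (zq Ω (DD pr V) q.out) / (℘[L] (zq Ω (DD pr V) q.out) ^ 2 + 1))) =
        2 * rr * (1 - I) * ∑ q : RQ (DD pr V), tc (c4 pr V e (two2 * q.out)) *
        (℘[L] (zq Ω (DD pr V) q.out) / (℘[L] (zq Ω (DD pr V) q.out) ^ 2 + 1)) := by
      rw [Finset.mul_sum]
      exact Finset.sum_congr rfl fun q _ => by ring
    rw [e4]
    have hr := rr_ne
    field_simp
    ring
  rw [← e3]
  refine h2.congr' ?_
  filter_upwards [self_mem_nhdsWithin] with δ (hδ : 0 < δ)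
  rw [RS_cc4' h.lat hp V e hδ]

end Pool.Agent.E8helper21.QT
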