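import Pool.Agent.Y700.Defs

/-!
Integral models of the local conditions.
-/

set_option autoImplicit false
set_option linter.unusedSectionVars false

namespace Pool.Agent.E8helper21.QT

open Pool.Agent.Y700 (PC)

variable {p : ℕ} [hp : Fact p.Prime]

lemma dvd_int {n : ℤ} : (p : ℤ_[p]) ∣ (n : ℤ_[p]) ↔ (p : ℤ) ∣ n := by
  rw [← PadicInt.norm_lt_one_iff_dvd, PadicInt.norm_int_lt_one_iff_dvd]

lemma dvd_zmod {x : ℤ_[p]} : PadicInt.toZMod x = 0 ↔ (p : ℤ_[p]) ∣ x := by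
  rw [← RingHom.mem_ker, PadicInt.ker_toZMod, PadicInt.maximalIdeal_eq_span_p,
    Ideal.mem_span_singleton]

/-- the integral model -/
theorem model {b z : ℤ} (hz : Squarefree z) (h : PC 0 b p z) :
    ∃ m n w : ℤ_[p], ¬ ((p : ℤ_[p]) ∣ m ∧ (p : ℤ_[p]) ∣ n) ∧
      (z : ℤ_[p]) * w ^ 2 = z ^ 2 * m ^ 4 + b * n ^ 4 := by
  obtain ⟨x, y, hy, hxy, s, hs⟩ := h
  have hz0 : z ≠ 0 := hz.ne_zero
  have hzp : (z : ℚ_[p]) ≠ 0 := by exact_mod_cast hz0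
  have hx0 : x ≠ 0 := by
    rintro rfl
    apply hy
    have : y ^ 2 = 0 := by rw [hxy]; ring
    exact pow_eq_zero_iff two_ne_zero |>.1 this
  have hs0 : s ≠ 0 := by
    rintro rfl
    rw [mul_zero] at hs
    exact mul_ne_zero hx0 hzp hs
  have e1 : x = z * (s / z) ^ 2 := by
    field_simp
    linear_combination hs
  set r := s / (z : ℚ_[p]) with hr
  have hr0 : r ≠ 0 := div_ne_zero hs0 hzp
  have e2 : (z : ℚ_[p]) * (y / (z * r)) ^ 2 = z ^ 2 * r ^ 4 + b := by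
    have h1 : y ^ 2 = z * r ^ 2 * (z ^ 2 * r ^ 4 + b) := by
      rw [hxy, e1]
      push_cast
      ring
    rw [div_pow, h1]
    field_simp
  set w := y / (z * r) with hw
  -- the point in a primitive form
  obtain ⟨m, n, hmn, hrn, hn0⟩ : ∃ m n : ℤ_[p], ¬ ((p : ℤ_[p]) ∣ m ∧ (p : ℤ_[p]) ∣ n) ∧
      r * n = m ∧ (n : ℚ_[p]) ≠ 0 := by
    have h1 : ¬ (p : ℤ_[p]) ∣ 1 := fun h => PadicInt.prime_p.not_unit (isUnit_of_dvd_one h)
    by_cases hle : ‖r‖ ≤ 1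
    · exact ⟨⟨r, hle⟩, 1, fun h => h1 h.2, by simp, by simp⟩
    · push Not at hle
      have h2 : ‖r⁻¹‖ ≤ 1 := by
        rw [norm_inv]
        exact inv_le_one_of_one_le₀ hle.le
      exact ⟨1, ⟨r⁻¹, h2⟩, fun h => h1 h.1, by simp [hr0], by simpa using hr0⟩
  have e3 : (z : ℚ_[p]) * (w * n ^ 2) ^ 2 = z ^ 2 * m ^ 4 + b * n ^ 4 := by
    rw [← hrn]
    linear_combination (n : ℚ_[p]) ^ 4 * e2
  -- integrality
  have hwi : ‖w * (n : ℚ_[p]) ^ 2‖ ≤ 1 := by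
    by_contra hc
    push Not at hc
    set W := w * (n : ℚ_[p]) ^ 2 with hW
    have h1 : ‖(z : ℚ_[p]) * W ^ 2‖ ≤ 1 := by
      rw [e3]
      have : (z : ℚ_[p]) ^ 2 * (m : ℚ_[p]) ^ 4 + b * (n : ℚ_[p]) ^ 4 =
          (((z : ℤ_[p]) ^ 2 * m ^ 4 + b * n ^ 4 : ℤ_[p]) : ℚ_[p]) := by push_cast; rfl
      rw [this]
      exact PadicInt.norm_le_one _
    have hW0 : W ≠ 0 := by
      intro h
      rw [h, norm_zero] at hc
      linarith
    have h2 : (1 : ℝ) < p := by exact_mod_cast hp.out.one_lt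
    have h3 : (p : ℝ) ≤ ‖W‖ := by
      have h4 := Padic.norm_eq_zpow_neg_valuation hW0
      rw [h4] at hc ⊢
      have h5 : 0 < -W.valuation := by
        by_contra h6
        push Not at h6
        have := zpow_le_one_of_nonpos₀ h2.le h6
        linarith
      calc (p : ℝ) = (p : ℝ) ^ (1 : ℤ) := (zpow_one _).symm
        _ ≤ _ := zpow_le_zpow_right₀ h2.le (by omega)
    have h4 : ¬ ((p : ℤ) ^ 2) ∣ z := by
      rintro ⟨c, hc'⟩
      have := hz (p : ℤ) ⟨c, by rw [hc']; ring⟩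
      have h5 := Int.isUnit_iff_natAbs_eq.1 this
      rw [Int.natAbs_natCast] at h5
      exact hp.out.ne_one h5
    have h5 : ((p : ℝ) ^ 2)⁻¹ < ‖(z : ℚ_[p])‖ := by
      by_contra h6
      push Not at h6
      have h7 := (Padic.norm_int_le_pow_iff_dvd z 2).1 (by
        refine h6.trans (le_of_eq ?_)
        rw [zpow_neg]
        norm_cast)
      exact h4 (by exact_mod_cast h7)
    have h6 : (1 : ℝ) < ‖(z : ℚ_[p]) * W ^ 2‖ := by
      rw [norm_mul, norm_pow]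
      have h7 : (p : ℝ) ^ 2 ≤ ‖W‖ ^ 2 := by gcongr
      have h8 : (0 : ℝ) < (p : ℝ) ^ 2 := by positivity
      calc (1 : ℝ) = ((p : ℝ) ^ 2)⁻¹ * (p : ℝ) ^ 2 := (inv_mul_cancel₀ h8.ne').symm
        _ < ‖(z : ℚ_[p])‖ * (p : ℝ) ^ 2 := by gcongr
        _ ≤ _ := by gcongr
    linarith
  refine ⟨m, n, ⟨_, hwi⟩, hmn, ?_⟩
  apply PadicInt.ext
  push_cast
  exact e3

/-- a prime that divides `z` divides `b` -/
theorem dvd_b {b z : ℤ} (hz : Squarefree z) (h : PC 0 b p z) (hpz : (p : ℤ) ∣ z) :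
    (p : ℤ) ∣ b := by
  by_contra hb
  obtain ⟨m, n, w, hmn, he⟩ := model hz h
  have hP := PadicInt.prime_p (p := p)
  obtain ⟨z', rfl⟩ := hpz
  have hz' : ¬ (p : ℤ) ∣ z' := by
    rintro ⟨c, rfl⟩
    have := hz (p : ℤ) ⟨c, by ring⟩
    have h5 := Int.isUnit_iff_natAbs_eq.1 this
    rw [Int.natAbs_natCast] at h5
    exact hp.out.ne_one h5
  have hb' : ¬ (p : ℤ_[p]) ∣ (b : ℤ_[p]) := fun h => hb (dvd_int.1 h)
  have hz'' : ¬ (p : ℤ_[p]) ∣ (z' : ℤ_[p]) := fun h => hz' (dvd_int.1 h)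
  push_cast at he
  have h1 : (p : ℤ_[p]) ∣ n := by
    have h2 : (p : ℤ_[p]) ∣ b * n ^ 4 := ⟨z' * w ^ 2 - p * z' ^ 2 * m ^ 4, by linear_combination -he⟩
    exact hP.dvd_of_dvd_pow ((hP.dvd_or_dvd h2).resolve_left hb')
  obtain ⟨n', rfl⟩ := h1
  have he2 : (z' : ℤ_[p]) * w ^ 2 = p * (z' ^ 2 * m ^ 4 + b * p ^ 2 * n' ^ 4) := by
    apply mul_left_cancel₀ hP.ne_zero
    linear_combination he
  have h2 : (p : ℤ_[p]) ∣ w := hP.dvd_of_dvd_pow ((hP.dvd_or_dvd ⟨_, he2⟩).resolve_left hz'')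
  obtain ⟨w', rfl⟩ := h2
  have he3 : (z' : ℤ_[p]) ^ 2 * m ^ 4 = p * (z' * w' ^ 2 - b * p * n' ^ 4) := by
    apply mul_left_cancel₀ hP.ne_zero
    linear_combination -he2
  have h3 : (p : ℤ_[p]) ∣ m := by
    rcases hP.dvd_or_dvd ⟨_, he3⟩ with h | h
    · exact absurd (hP.dvd_of_dvd_pow h) hz''
    · exact hP.dvd_of_dvd_pow h
  exact hmn ⟨h3, dvd_mul_right _ _⟩

/-- the primes that divide `b` exactly once and do not divide `z` -/
theorem sq_out {b' z : ℤ} (hz : Squarefree z) (h : PC 0 (p * b') p z) (hb : ¬ (p : ℤ) ∣ b')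
    (hpz : ¬ (p : ℤ) ∣ z) : IsSquare (z : ZMod p) := by
  obtain ⟨m, n, w, hmn, he⟩ := model hz h
  have hP := PadicInt.prime_p (p := p)
  have hz'' : ¬ (p : ℤ_[p]) ∣ (z : ℤ_[p]) := fun h => hpz (dvd_int.1 h)
  have hb'' : ¬ (p : ℤ_[p]) ∣ (b' : ℤ_[p]) := fun h => hb (dvd_int.1 h)
  push_cast at he
  have hm : ¬ (p : ℤ_[p]) ∣ m := by
    rintro ⟨m', rfl⟩
    have h2 : (p : ℤ_[p]) ∣ w := by
      have h3 : (p : ℤ_[p]) ∣ z * w ^ 2 := ⟨z ^ 2 * p ^ 3 * m' ^ 4 + b' * n ^ 4, by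
        linear_combination he⟩
      exact hP.dvd_of_dvd_pow ((hP.dvd_or_dvd h3).resolve_left hz'')
    obtain ⟨w', rfl⟩ := h2
    have he3 : (b' : ℤ_[p]) * n ^ 4 = p * (z * w' ^ 2 - z ^ 2 * p ^ 2 * m' ^ 4) := by
      apply mul_left_cancel₀ hP.ne_zero
      linear_combination -he
    have h3 : (p : ℤ_[p]) ∣ n :=
      hP.dvd_of_dvd_pow ((hP.dvd_or_dvd ⟨_, he3⟩).resolve_left hb'')
    exact hmn ⟨dvd_mul_right _ _, h3⟩
  have h1 := congrArg (PadicInt.toZMod (p := p)) he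
  simp only [map_mul, map_pow, map_add, map_intCast, map_natCast, ZMod.natCast_self, zero_mul,
    add_zero] at h1
  have hz0 : (z : ZMod p) ≠ 0 := by
    rwa [Ne, ZMod.intCast_zmod_eq_zero_iff_dvd]
  have hm0 : PadicInt.toZMod m ≠ 0 := fun h => hm (dvd_zmod.1 h)
  have h2 : PadicInt.toZMod w ^ 2 = (z : ZMod p) * PadicInt.toZMod m ^ 4 := by
    apply mul_left_cancel₀ hz0
    linear_combination h1
  refine ⟨PadicInt.toZMod w / PadicInt.toZMod m ^ 2, ?_⟩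
  field_simp
  linear_combination -h2

/-- the primes that divide `b` and `z` exactly once -/
theorem sq_in {b' z' : ℤ} (hz : Squarefree ((p : ℤ) * z')) (h : PC 0 (p * b') p (p * z'))
    (hb : ¬ (p : ℤ) ∣ b') : IsSquare ((z' * b' : ℤ) : ZMod p) := by
  obtain ⟨m, n, w, hmn, he⟩ := model hz h
  have hP := PadicInt.prime_p (p := p)
  have hz' : ¬ (p : ℤ) ∣ z' := by
    rintro ⟨c, rfl⟩
    have := hz (p : ℤ) ⟨c, by ring⟩
    have h5 := Int.isUnit_iff_natAbs_eq.1 this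
    rw [Int.natAbs_natCast] at h5
    exact hp.out.ne_one h5
  have hz'' : ¬ (p : ℤ_[p]) ∣ (z' : ℤ_[p]) := fun h => hz' (dvd_int.1 h)
  have hb'' : ¬ (p : ℤ_[p]) ∣ (b' : ℤ_[p]) := fun h => hb (dvd_int.1 h)
  push_cast at he
  have he1 : (z' : ℤ_[p]) * w ^ 2 = p * z' ^ 2 * m ^ 4 + b' * n ^ 4 := by
    apply mul_left_cancel₀ hP.ne_zero
    linear_combination he
  have hn : ¬ (p : ℤ_[p]) ∣ n := by
    rintro ⟨n', rfl⟩
    have h2 : (p : ℤ_[p]) ∣ w := by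
      have h3 : (p : ℤ_[p]) ∣ z' * w ^ 2 := ⟨z' ^ 2 * m ^ 4 + b' * p ^ 3 * n' ^ 4, by
        linear_combination he1⟩
      exact hP.dvd_of_dvd_pow ((hP.dvd_or_dvd h3).resolve_left hz'')
    obtain ⟨w', rfl⟩ := h2
    have he3 : (z' : ℤ_[p]) ^ 2 * m ^ 4 = p * (z' * w' ^ 2 - b' * p ^ 2 * n' ^ 4) := by
      apply mul_left_cancel₀ hP.ne_zero
      linear_combination -he1
    have h3 : (p : ℤ_[p]) ∣ m := by
      rcases hP.dvd_or_dvd ⟨_, he3⟩ with h | h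
      · exact absurd (hP.dvd_of_dvd_pow h) hz''
      · exact hP.dvd_of_dvd_pow h
    exact hmn ⟨h3, dvd_mul_right _ _⟩
  have h1 := congrArg (PadicInt.toZMod (p := p)) he1
  simp only [map_mul, map_pow, map_add, map_intCast, map_natCast, ZMod.natCast_self, zero_mul,
    zero_add] at h1
  have hb0 : (b' : ZMod p) ≠ 0 := by
    rwa [Ne, ZMod.intCast_zmod_eq_zero_iff_dvd]
  have hn0 : PadicInt.toZMod n ≠ 0 := fun h => hn (dvd_zmod.1 h)
  have hw0 : PadicInt.toZMod w ≠ 0 := by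
    intro h
    rw [h] at h1
    have h2 : (b' : ZMod p) * PadicInt.toZMod n ^ 4 = 0 := by rw [← h1]; ring
    exact mul_ne_zero hb0 (pow_ne_zero 4 hn0) h2
  refine ⟨b' * PadicInt.toZMod n ^ 2 / PadicInt.toZMod w, ?_⟩
  push_cast
  field_simp
  linear_combination h1

section hensel

open Polynomial

lemma padic_sq' {p : ℕ} [hp : Fact p.Prime] (hp2 : p ≠ 2) {n : ℤ} (hn : ¬ (p : ℤ) ∣ n)
    (h : IsSquare (n : ZMod p)) : IsSquare (n : ℚ_[p]) := by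
  obtain ⟨a, ha⟩ := h
  obtain ⟨s, hs⟩ := ZMod.intCast_surjective a
  have h1 : (p : ℤ) ∣ s ^ 2 - n := by
    rw [← ZMod.intCast_zmod_eq_zero_iff_dvd]
    push_cast
    rw [ha, hs]
    ring
  have h2 : ¬ (p : ℤ) ∣ 2 * s := by
    intro h2
    have hpi : Prime (p : ℤ) := Nat.prime_iff_prime_int.1 hp.out
    rcases hpi.dvd_or_dvd h2 with h3 | h3
    · have h5 : p ∣ 2 := by exact_mod_cast h3
      exact hp2 ((Nat.prime_dvd_prime_iff_eq hp.out Nat.prime_two).1 h5)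
    · apply hn
      have := dvd_sub ((dvd_pow h3 two_ne_zero : (p : ℤ) ∣ s ^ 2)) h1
      simpa using this
  have e1 : ∀ w : ℤ_[p], (aeval w) (X ^ 2 - C (n : ℤ_[p]) : ℤ_[p][X]) = w ^ 2 - n := by
    intro w; simp
  have e2 : ∀ w : ℤ_[p], (aeval w) (derivative (X ^ 2 - C (n : ℤ_[p]) : ℤ_[p][X])) = 2 * w := by
    intro w; simp; norm_num
  obtain ⟨z, hz, -⟩ := hensels_lemma (p := p) (R := ℤ_[p]) (F := X ^ 2 - C (n : ℤ_[p]))
    (a := (s : ℤ_[p])) (by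
      rw [e1, e2]
      have h3 : ‖((s ^ 2 - n : ℤ) : ℤ_[p])‖ < 1 := by
        rw [PadicInt.norm_intCast_lt_one_iff]
        exact h1
      have h4 : ‖((2 * s : ℤ) : ℤ_[p])‖ = 1 := by
        have h5 : ¬ ‖((2 * s : ℤ) : ℤ_[p])‖ < 1 := by
          rw [PadicInt.norm_intCast_lt_one_iff]
          exact h2
        exact le_antisymm (PadicInt.norm_le_one _) (not_lt.1 h5)
      push_cast at h3 h4
      rw [h4]
      simpa using h3)
  rw [e1] at hz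
  have h6 := congrArg (fun w : ℤ_[p] => (w : ℚ_[p])) (sub_eq_zero.1 hz)
  push_cast at h6
  exact ⟨z, by rw [← h6]; ring⟩

lemma padic_sq2' {n : ℤ} (hn : n % 8 = 1) : IsSquare (n : ℚ_[2]) := by
  have e1 : ∀ w : ℤ_[2], (aeval w) (X ^ 2 - C (n : ℤ_[2]) : ℤ_[2][X]) = w ^ 2 - n := by
    intro w; simp
  have e2 : ∀ w : ℤ_[2], (aeval w) (derivative (X ^ 2 - C (n : ℤ_[2]) : ℤ_[2][X])) = 2 * w := by
    intro w; simp; norm_num
  obtain ⟨z, hz, -⟩ := hensels_lemma (p := 2) (R := ℤ_[2]) (F := X ^ 2 - C (n : ℤ_[2]))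
    (a := 1) (by
      rw [e1, e2]
      have h4 : ‖(2 : ℤ_[2])‖ = 2⁻¹ := by
        have := PadicInt.norm_p (p := 2)
        exact_mod_cast this
      have h3 : ‖((1 - n : ℤ) : ℤ_[2])‖ ≤ ((2 : ℕ) : ℝ) ^ (-(3 : ℕ) : ℤ) := by
        rw [PadicInt.norm_int_le_pow_iff_dvd]
        push_cast
        omega
      push_cast at h3
      rw [one_pow, mul_one, h4]
      refine lt_of_le_of_lt h3 ?_
      norm_num)
  rw [e1] at hz
  have h6 := congrArg (fun w : ℤ_[2] => (w : ℚ_[2])) (sub_eq_zero.1 hz)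
  push_cast at h6
  exact ⟨z, by rw [← h6]; ring⟩

end hensel

end Pool.Agent.E8helper21.QT
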