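import Pool.Agent.Y699.Qf

/-!
Spanning forests with two components modulo two.

`PS e p O` is the determinant over the field with two elements of the Laplacian of the graph `O`
without the rows and the columns of the vertices of `p`. For symmetric `e` the function of the pairs
`{a, b}` is a cocycle, and the sum `FF w e O` of `w a w b PS e {a, b} O` over the pairs is the second
coefficient of the characteristic polynomial with weights.
-/

set_option autoImplicit false
set_option linter.unusedSectionVars false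

namespace Pool.Agent.E8helper21.QT

open Finset
open Pool.Agent.Y699.Ff

variable {ι : Type*} [Fintype ι] [DecidableEq ι]

/-- the principal minor of the Laplacian of `O` without the vertices in `p` -/
def PS (e : ι → ι → ZMod 2) (p O : Finset ι) : ZMod 2 :=
  (MM (fun v => ∑ a ∈ p, e a v) e (O \ p) (O \ p)).det

/-- the second coefficient -/
def FF (w : ι → ZMod 2) (e : ι → ι → ZMod 2) (O : Finset ι) : ZMod 2 :=
  ∑ p ∈ O.powersetCard 2, (∏ a ∈ p, w a) * PS e p O

theorem sum_PS (e : ι → ι → ZMod 2) (he : ∀ v, e v v = 0) {p V : Finset ι} (hp : p ⊆ V)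
    (hV : p.card < V.card) :
    ∑ S ∈ V.powerset.filter (fun S => p ⊆ S), PS e p S * ∏ v ∈ V \ S, ∑ u ∈ S, e u v = 0 := by
  have hU : (V \ p).Nonempty := by
    rw [← Finset.card_pos, Finset.card_sdiff_of_subset hp]
    omega
  have h := sum_det (fun v => ∑ a ∈ p, e a v) e he (V \ p) hU
  rw [← h]
  refine Finset.sum_bij' (fun S _ => S \ p) (fun J _ => p ∪ J) ?_ ?_ ?_ ?_ ?_
  · intro S hS
    rw [mem_filter, mem_powerset] at hS
    rw [mem_powerset]
    exact sdiff_subset_sdiff hS.1 (Finset.Subset.refl p)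
  · intro J hJ
    rw [mem_powerset] at hJ
    rw [mem_filter, mem_powerset]
    exact ⟨union_subset hp (hJ.trans sdiff_subset), subset_union_left⟩
  · intro S hS
    rw [mem_filter] at hS
    exact Finset.union_sdiff_of_subset hS.2
  · intro J hJ
    rw [mem_powerset] at hJ
    refine Finset.union_sdiff_cancel_left ?_
    rw [Finset.disjoint_left]
    intro a ha ha'
    exact (mem_sdiff.1 (hJ ha')).2 ha
  · intro S hS
    rw [mem_filter, mem_powerset] at hS
    rw [det_MM (fun v => ∑ a ∈ p, e a v) e (sdiff_subset_sdiff hS.1 (Finset.Subset.refl p))]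
    unfold PS
    congr 1
    have h1 : (V \ p) \ (S \ p) = V \ S := by
      ext v
      simp only [mem_sdiff]
      constructor
      · rintro ⟨⟨h1, h2⟩, h3⟩
        exact ⟨h1, fun h => h3 ⟨h, h2⟩⟩
      · rintro ⟨h1, h2⟩
        exact ⟨⟨h1, fun h => h2 (hS.2 h)⟩, fun h => h2 h.1⟩
    rw [h1]
    refine Finset.prod_congr rfl fun v _ => ?_
    unfold dg
    rw [add_comm, Finset.sum_sdiff hS.2]

theorem sum_FF (w : ι → ZMod 2) (e : ι → ι → ZMod 2) (he : ∀ v, e v v = 0) {V : Finset ι}
    (hV : 3 ≤ V.card) : ∑ S ∈ V.powerset, FF w e S * ∏ v ∈ V \ S, ∑ u ∈ S, e u v = 0 := by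
  unfold FF
  simp_rw [Finset.sum_mul]
  have h1 : ∑ S ∈ V.powerset, ∑ p ∈ S.powersetCard 2, (∏ a ∈ p, w a) * PS e p S *
        ∏ v ∈ V \ S, ∑ u ∈ S, e u v =
      ∑ p ∈ V.powersetCard 2, ∑ S ∈ V.powerset.filter (fun S => p ⊆ S),
        (∏ a ∈ p, w a) * PS e p S * ∏ v ∈ V \ S, ∑ u ∈ S, e u v := by
    refine Finset.sum_comm' fun S p => ?_
    rw [mem_powerset, mem_filter, mem_powerset, mem_powersetCard, mem_powersetCard]
    constructor
    · rintro ⟨h1, h2, h3⟩
      exact ⟨⟨h1, h2⟩, h2.trans h1, h3⟩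
    · rintro ⟨⟨h1, h2⟩, -, h3⟩
      exact ⟨h1, h2, h3⟩
  rw [h1]
  refine Finset.sum_eq_zero fun p hp => ?_
  rw [mem_powersetCard] at hp
  have := sum_PS e he hp.1 (by omega)
  simp_rw [mul_assoc]
  rw [← Finset.mul_sum, this, mul_zero]

theorem FF_pair (w : ι → ZMod 2) (e : ι → ι → ZMod 2) {O : Finset ι} (hO : O.card = 2) :
    FF w e O = ∏ a ∈ O, w a := by
  have h1 : O.powersetCard 2 = {O} := by rw [← hO, powersetCard_self]
  have h2 : PS e O O = 1 := by
    unfold PS
    rw [sdiff_self]
    have h1 : MM (fun v => ∑ a ∈ O, e a v) e ∅ ∅ = 1 := by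
      ext i j
      unfold MM
      simp [Matrix.one_apply]
    have h0 : (⊥ : Finset ι) = ∅ := rfl
    rw [h0, h1, Matrix.det_one]
  unfold FF
  rw [h1, sum_singleton, h2, mul_one]

theorem FF_small (w : ι → ZMod 2) (e : ι → ι → ZMod 2) {O : Finset ι} (hO : O.card < 2) :
    FF w e O = 0 := by
  unfold FF
  rw [powersetCard_eq_empty.2 hO, sum_empty]

lemma sum_symm (s : Finset ι) (F : ι → ι → ZMod 2) (hF : ∀ u v, F u v = F v u) :
    ∑ u ∈ s, ∑ v ∈ s, F u v = ∑ u ∈ s, F u u := by
  have h1 : ∑ u ∈ s, ∑ v ∈ s, F u v = ∑ u ∈ s, F u u + ∑ x ∈ s.offDiag, F x.1 x.2 := by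
    rw [← Finset.sum_product', ← Finset.diag_union_offDiag, Finset.sum_union (Finset.disjoint_diag_offDiag s)]
    congr 1
    rw [Finset.sum_diag]
  have h2 : ∑ x ∈ s.offDiag, F x.1 x.2 = 0 := by
    refine Finset.sum_involution (fun x _ => x.swap) ?_ ?_ ?_ ?_
    · intro x _
      rw [Prod.fst_swap, Prod.snd_swap, hF x.2 x.1]
      exact CharTwo.add_self_eq_zero _
    · intro x hx _ h
      rw [Finset.mem_offDiag] at hx
      exact hx.2.2 (congrArg Prod.snd h)
    · intro x hx
      rw [Finset.mem_offDiag] at hx ⊢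
      exact ⟨hx.2.1, hx.1, fun h => hx.2.2 h.symm⟩
    · intro x _
      exact Prod.swap_swap x
  rw [h1, h2, add_zero]

lemma det_swap2 (B : Matrix ι ι (ZMod 2)) {u c : ι} (huc : u ≠ c) (x y : ι → ZMod 2) :
    ((B.updateRow u x).updateRow c y).det = ((B.updateRow u y).updateRow c x).det := by
  have h1 := Matrix.det_permute (Equiv.swap u c) ((B.updateRow u y).updateRow c x)
  have h2 : (((B.updateRow u y).updateRow c x).submatrix (Equiv.swap u c) id) =
      (B.updateRow u x).updateRow c y := by
    ext i j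
    rw [Matrix.submatrix_apply, id]
    by_cases hic : i = c
    · subst hic
      rw [Equiv.swap_apply_right, Matrix.updateRow_self, Matrix.updateRow_ne huc,
        Matrix.updateRow_self]
    · by_cases hiu : i = u
      · subst hiu
        rw [Equiv.swap_apply_left, Matrix.updateRow_self, Matrix.updateRow_ne hic,
          Matrix.updateRow_self]
      · rw [Equiv.swap_apply_of_ne_of_ne hiu hic, Matrix.updateRow_ne hic, Matrix.updateRow_ne hiu,
          Matrix.updateRow_ne hic, Matrix.updateRow_ne hiu]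
  rw [h2] at h1
  rw [h1]
  rcases Int.units_eq_one_or (Equiv.Perm.sign (Equiv.swap u c)) with h | h
  · rw [h]; simp
  · rw [h]
    have : (((-1 : ℤˣ) : ℤ) : ZMod 2) = 1 := by decide
    rw [this, one_mul]

/-- the bordered determinant -/
theorem border (N A : Matrix ι ι (ZMod 2)) (c : ι) (hN1 : N c c = 1) (hN2 : ∀ v, v ≠ c → N c v = 0)
    (hNs : ∀ u v, N u v = N v u) (hAs : ∀ u v, A u v = A v u)
    (hA : ∀ u v, u ≠ c → v ≠ c → A u v = N u v) :
    A.det = A c c * N.det + ∑ v ∈ univ.erase c, A c v * N.adjugate v v := by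
  classical
  -- the matrix with the new row
  set M : Matrix ι ι (ZMod 2) := N.updateRow c (A c) with hM
  have hrow : N c = Pi.single c 1 := by
    funext v
    by_cases hv : v = c
    · subst hv; rw [hN1, Pi.single_eq_same]
    · rw [hN2 v hv, Pi.single_eq_of_ne hv]
  have e1 : A = M.updateCol c (fun u => A u c) := by
    ext u v
    by_cases hv : v = c
    · subst hv
      rw [Matrix.updateCol_self]
    · rw [Matrix.updateCol_ne hv]
      by_cases hu : u = c
      · subst hu
        rw [hM, Matrix.updateRow_self]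
      · rw [hM, Matrix.updateRow_ne hu, hA u v hu hv]
  have e2 : A.det = ∑ u, M.adjugate c u * A u c := by
    conv_lhs => rw [e1]
    rw [← Matrix.cramer_apply, Matrix.cramer_eq_adjugate_mulVec]
    rfl
  have e3 : M.adjugate c c = N.det := by
    rw [Matrix.adjugate_apply, hM, Matrix.updateRow_idem, ← hrow, Matrix.updateRow_eq_self]
  have e4 : ∀ u, u ≠ c → M.adjugate c u = ∑ v ∈ univ.erase c, A c v * N.adjugate v u := by
    intro u hu
    rw [Matrix.adjugate_apply, hM, Matrix.updateRow_comm _ hu.symm, ← Matrix.cramer_transpose_apply,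
      Matrix.cramer_eq_adjugate_mulVec, ← Matrix.adjugate_transpose]
    show ∑ v, (N.updateRow u (Pi.single c 1)).adjugate v c * A c v = _
    rw [← Finset.add_sum_erase univ _ (mem_univ c)]
    have e5 : (N.updateRow u (Pi.single c 1)).adjugate c c = 0 := by
      rw [Matrix.adjugate_apply]
      refine Matrix.det_zero_of_row_eq hu ?_
      rw [Matrix.updateRow_self]
      funext j
      rw [Matrix.updateRow_ne hu, Matrix.updateRow_self]
    rw [e5, zero_mul, zero_add]
    refine Finset.sum_congr rfl fun v _ => ?_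
    rw [Matrix.adjugate_apply, det_swap2 N hu, Matrix.updateRow_comm _ hu, ← hrow,
      Matrix.updateRow_eq_self, Matrix.adjugate_apply, mul_comm]
  rw [e2, ← Finset.add_sum_erase univ _ (mem_univ c), e3, mul_comm N.det]
  congr 1
  have e6 : ∑ u ∈ univ.erase c, M.adjugate c u * A u c =
      ∑ u ∈ univ.erase c, ∑ v ∈ univ.erase c, A c u * A c v * N.adjugate v u := by
    refine Finset.sum_congr rfl fun u hu => ?_
    rw [e4 u (ne_of_mem_erase hu), Finset.sum_mul, hAs u c]
    refine Finset.sum_congr rfl fun v _ => ?_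
    ring
  have hNt : N.transpose = N := by
    ext u v
    rw [Matrix.transpose_apply, hNs]
  have hadj : ∀ u v, N.adjugate u v = N.adjugate v u := by
    intro u v
    conv_lhs => rw [← hNt, ← Matrix.adjugate_transpose]
    rfl
  rw [e6, sum_symm _ _ (fun u v => by rw [hadj v u]; ring)]
  refine Finset.sum_congr rfl fun u _ => ?_
  have : ∀ x : ZMod 2, x * x = x := by decide
  rw [this]

/-- the quadratic form of the adjugate of a symmetric matrix with row sums `x` -/
theorem adj_row (N : Matrix ι ι (ZMod 2)) (x : ι → ZMod 2) (J : Finset ι)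
    (hNs : ∀ u v, N u v = N v u) (hN : ∀ u ∈ J, ∑ v ∈ J, N u v = x u)
    (hN0 : ∀ u, u ∉ J → ∀ v ∈ J, N u v = 0) :
    ∑ v ∈ J, x v * N.adjugate v v = (∑ v ∈ J, x v) * N.det := by
  classical
  have hNt : N.transpose = N := by
    ext u v
    rw [Matrix.transpose_apply, hNs]
  have hadj : ∀ u v, N.adjugate u v = N.adjugate v u := by
    intro u v
    conv_lhs => rw [← hNt, ← Matrix.adjugate_transpose]
    rfl
  -- `N` times the indicator of `J`
  have h1 : N.mulVec (fun v => if v ∈ J then 1 else 0) = fun u => if u ∈ J then x u else 0 := by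
    funext u
    rw [Matrix.mulVec, dotProduct]
    simp only [mul_ite, mul_one, mul_zero]
    rw [Finset.sum_ite_mem, Finset.univ_inter]
    split_ifs with hu
    · exact hN u hu
    · exact Finset.sum_eq_zero fun v hv => hN0 u hu v hv
  have h2 := congrArg (N.adjugate.mulVec) h1
  rw [Matrix.mulVec_mulVec, Matrix.adjugate_mul, Matrix.smul_mulVec, Matrix.one_mulVec] at h2
  have h3 : ∀ u ∈ J, ∑ v ∈ J, N.adjugate u v * x v = N.det := by
    intro u hu
    have h4 := congrFun h2 u
    rw [Pi.smul_apply, if_pos hu, smul_eq_mul, mul_one, Matrix.mulVec, dotProduct] at h4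
    rw [h4]
    simp only [mul_ite, mul_zero]
    rw [Finset.sum_ite_mem, Finset.univ_inter]
  have h4 : ∑ u ∈ J, ∑ v ∈ J, x u * x v * N.adjugate u v = (∑ v ∈ J, x v) * N.det := by
    rw [Finset.sum_mul]
    refine Finset.sum_congr rfl fun u hu => ?_
    rw [← h3 u hu, Finset.mul_sum]
    exact Finset.sum_congr rfl fun v _ => by ring
  rw [← h4, sum_symm _ _ (fun u v => by rw [hadj u v]; ring)]
  refine Finset.sum_congr rfl fun u _ => ?_
  have : ∀ y : ZMod 2, y * y = y := by decide
  rw [this]

/-- the common matrix -/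
lemma MM_symm (x : ι → ZMod 2) (e : ι → ι → ZMod 2) (hs : ∀ u v, e u v = e v u) (J : Finset ι)
    (u v : ι) : MM x e J J u v = MM x e J J v u := by
  unfold MM
  by_cases huv : u = v
  · subst huv; rfl
  · have hvu : v ≠ u := fun h => huv h.symm
    simp only [if_neg huv, if_neg hvu, hs u v]
    by_cases h1 : u ∈ J <;> by_cases h2 : v ∈ J <;> simp [h1, h2]

theorem expand (e : ι → ι → ZMod 2) (hs : ∀ u v, e u v = e v u) (x : ι → ZMod 2) {c : ι}
    {J : Finset ι} (hc : c ∉ J) :
    (MM x e (insert c J) (insert c J)).det =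
      (x c + e c c + ∑ u ∈ J, e u c) * (MM (fun v => x v + e c v) e J J).det +
      ∑ v ∈ J, e c v * (MM (fun v => x v + e c v) e J J).adjugate v v := by
  classical
  have h := border (MM (fun v => x v + e c v) e J J) (MM x e (insert c J) (insert c J)) c
    (by unfold MM; rw [if_neg hc, if_pos rfl])
    (by
      intro v hv
      unfold MM
      have h1 : ¬ c = v := fun h => hv h.symm
      simp only [if_neg h1, if_neg hc, ite_self])
    (MM_symm _ e hs J) (MM_symm _ e hs _)
    (by
      intro u v hu hv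
      unfold MM dg
      have e1 : (v ∈ insert c J) = (v ∈ J) := by
        rw [Finset.mem_insert]; simp [hv]
      have e2 : (u ∈ insert c J) = (u ∈ J) := by
        rw [Finset.mem_insert]; simp [hu]
      rw [Finset.sum_insert hc]
      simp only [e1, e2, add_assoc])
  rw [h]
  congr 1
  · unfold MM dg
    rw [if_pos (Finset.mem_insert_self c J), if_pos rfl, Finset.sum_insert hc, add_assoc]
  · rw [← Finset.sum_subset (s₁ := J) (s₂ := univ.erase c)]
    · refine Finset.sum_congr rfl fun v hv => ?_
      have hvc : c ≠ v := fun h => hc (h ▸ hv)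
      congr 1
      unfold MM
      rw [if_pos (Finset.mem_insert_of_mem hv), if_neg hvc, if_pos (Finset.mem_insert_self c J)]
    · intro v hv
      exact mem_erase.2 ⟨fun h => hc (h ▸ hv), mem_univ _⟩
    · intro v hv hv'
      have hvc : v ≠ c := ne_of_mem_erase hv
      have h5 : MM x e (insert c J) (insert c J) c v = 0 := by
        unfold MM
        rw [if_neg (fun h => (Finset.mem_insert.1 h).elim hvc hv'), if_neg (fun h => hvc h.symm)]
      rw [h5, zero_mul]

/-- **the cocycle relation** -/
theorem cocycle (e : ι → ι → ZMod 2) (he : ∀ v, e v v = 0) (hs : ∀ u v, e u v = e v u)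
    {O : Finset ι} {a b c : ι} (ha : a ∈ O) (hb : b ∈ O) (hc : c ∈ O) (hab : a ≠ b) (hac : a ≠ c)
    (hbc : b ≠ c) : PS e {a, b} O + PS e {b, c} O + PS e {a, c} O = 0 := by
  classical
  set J := O \ {a, b, c} with hJ
  have haJ : a ∉ J := by rw [hJ]; simp
  have hbJ : b ∉ J := by rw [hJ]; simp
  have hcJ : c ∉ J := by rw [hJ]; simp
  set x : ι → ZMod 2 := fun v => e a v + e b v + e c v with hx
  set N := MM x e J J with hN
  have key : ∀ a b c : ι, a ∈ O → b ∈ O → c ∈ O → a ≠ b → a ≠ c → b ≠ c → O \ {a, b, c} = J →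
      (fun v => e a v + e b v + e c v) = x →
      PS e {a, b} O = (e a c + e b c + ∑ u ∈ J, e u c) * N.det + ∑ v ∈ J, e c v * N.adjugate v v := by
    intro a b c ha hb hc hab hac hbc hJ' hx'
    have hcJ' : c ∉ J := by rw [← hJ']; simp
    have h1 : O \ {a, b} = insert c J := by
      rw [← hJ']
      ext v
      simp only [mem_sdiff, mem_insert, mem_singleton]
      constructor
      · rintro ⟨h1, h2⟩
        by_cases hv : v = c
        · exact Or.inl hv
        · exact Or.inr ⟨h1, fun h => h2 (by tauto)⟩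
      · rintro (h | ⟨h1, h2⟩)
        · subst h
          exact ⟨hc, fun h => h.elim (fun h => hac h.symm) (fun h => hbc h.symm)⟩
        · exact ⟨h1, fun h => h2 (by tauto)⟩
    have h2 : (fun v => ∑ u ∈ ({a, b} : Finset ι), e u v) = fun v => e a v + e b v := by
      funext v
      rw [Finset.sum_pair hab]
    unfold PS
    rw [h1, h2, expand e hs _ hcJ', he, add_zero]
    simp only [hx']
    rfl
  have k1 := key a b c ha hb hc hab hac hbc rfl rfl
  have k2 := key b c a hb hc ha hbc hab.symm hac.symm (by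
    rw [hJ]; congr 1; ext v; simp only [mem_insert, mem_singleton]; tauto)
    (by rw [hx]; funext v; ring)
  have k3 := key a c b ha hc hb hac hab hbc.symm (by
    rw [hJ]; congr 1; ext v; simp only [mem_insert, mem_singleton]; tauto)
    (by rw [hx]; funext v; ring)
  have k4 := adj_row N x J (MM_symm x e hs J) (by
      intro u hu
      rw [← Finset.add_sum_erase J _ hu]
      have h1 : N u u = x u + ∑ v ∈ J, e v u := by
        rw [hN]; unfold MM dg; rw [if_pos hu, if_pos rfl]
      have h2 : ∑ v ∈ J.erase u, N u v = ∑ v ∈ J, e v u := by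
        rw [← Finset.add_sum_erase J (fun v => e v u) hu, he, zero_add]
        refine Finset.sum_congr rfl fun v hv => ?_
        rw [mem_erase] at hv
        rw [hN]; unfold MM
        rw [if_pos hv.2, if_neg (fun h => hv.1 h.symm), if_pos hu, hs]
      rw [h1, h2]
      have := CharTwo.add_self_eq_zero (∑ v ∈ J, e v u)
      linear_combination this)
    (by
      intro u hu v hv
      rw [hN]; unfold MM
      have huv : u ≠ v := fun h => hu (h ▸ hv)
      rw [if_pos hv, if_neg huv, if_neg hu])
  have k5 : ∑ v ∈ J, x v = ∑ u ∈ J, e u a + ∑ u ∈ J, e u b + ∑ u ∈ J, e u c := by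
    rw [hx]
    simp only [Finset.sum_add_distrib, hs a, hs b, hs c]
  have k6 : ∑ v ∈ J, x v * N.adjugate v v = ∑ v ∈ J, e a v * N.adjugate v v +
      ∑ v ∈ J, e b v * N.adjugate v v + ∑ v ∈ J, e c v * N.adjugate v v := by
    rw [hx]
    simp only [add_mul, Finset.sum_add_distrib]
  rw [k6, k5] at k4
  rw [k1, k2, k3]
  have q1 := CharTwo.add_self_eq_zero (e a b)
  have q2 := CharTwo.add_self_eq_zero (e b c)
  have q3 := CharTwo.add_self_eq_zero (e a c)
  have q4 := CharTwo.add_self_eq_zero ((∑ u ∈ J, e u a + ∑ u ∈ J, e u b + ∑ u ∈ J, e u c) * N.det)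
  rw [hs b a, hs c a, hs c b]
  linear_combination k4 + q4 + N.det * (q1 + q2 + q3)

end Pool.Agent.E8helper21.QT
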