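import Pool.Agent.E8helper21.QT.Dup

/-!
The trace of the Weierstrass function under multiplication by a Gaussian integer.
-/

set_option autoImplicit false
set_option linter.unusedSectionVars false

open Filter Complex
open scoped Topology PeriodPair
open H667R3 hiding sq
open Pool.Agent.TH936.CM Pool.Agent.W192.HK

namespace Pool.Agent.E8helper21.QT

open Pool.Agent.Y699
open H385 (ZI RQ im1 nrm)
open Pool.Agent.H304R3.HK (tc)
open Pool.Agent.W164.RC (tc_mul tc_star two2)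

variable {L : PeriodPair} {Ω : ℂ}

/-- the lattice -/
noncomputable def eL (h : IsLat L RG Ω) : ZI ≃ L.lattice :=
  Equiv.ofBijective (fun a => ⟨Ω * tc a, (mem_lat h).2 ⟨a, rfl⟩⟩) ⟨by
    intro a b hab
    have h1 : Ω * tc a = Ω * tc b := congrArg Subtype.val hab
    exact tc_inj (mul_left_cancel₀ h.ne h1), by
    rintro ⟨z, hz⟩
    obtain ⟨a, ha⟩ := (mem_lat h).1 hz
    exact ⟨a, Subtype.ext ha.symm⟩⟩

lemma eL_coe (h : IsLat L RG Ω) (a : ZI) : ((eL h a : L.lattice) : ℂ) = Ω * tc a := rfl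

/-- the terms -/
noncomputable def wt1 (Ω z : ℂ) (a : ZI) : ℂ := 1 / (z + Ω * tc a) ^ 2 - 1 / (Ω * tc a) ^ 2

lemma hasSum_wp (h : IsLat L RG Ω) (z : ℂ) : HasSum (wt1 Ω z) (℘[L] z) := by
  have h1 := L.hasSum_weierstrassP z
  rw [← (eL h).hasSum_iff] at h1
  rw [← (Equiv.neg ZI).hasSum_iff]
  refine h1.congr_fun fun a => ?_
  simp only [Function.comp_apply, Equiv.neg_apply, eL_coe]
  unfold wt1
  rw [tc_neg]
  congr 2
  · congr 1
    ring
  · ring

lemma tsum_prt (h : IsLat L RG Ω) {π : ZI} (hπ : π ≠ 0) [Fintype (RQ π)] (u : ℂ) :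
    (∀ q : RQ π, Summable fun b : ZI => tc π ^ 2 * wt1 Ω (tc π * u) (q.out + π * b)) ∧
    tc π ^ 2 * ℘[L] (tc π * u) =
      ∑ q : RQ π, ∑' b : ZI, tc π ^ 2 * wt1 Ω (tc π * u) (q.out + π * b) := by
  have h1 := (hasSum_wp h (tc π * u)).mul_left (tc π ^ 2)
  have hs1 := h1.summable
  have hs2 : Summable (fun p : RQ π × ZI => tc π ^ 2 * wt1 Ω (tc π * u) (prt' π hπ p)) :=
    ((prt' π hπ).summable_iff (f := fun a => tc π ^ 2 * wt1 Ω (tc π * u) a)).2 hs1
  refine ⟨fun q => hs2.prod_factor q, ?_⟩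
  rw [← h1.tsum_eq, ← (prt' π hπ).tsum_eq, hs2.tsum_prod' (fun q => hs2.prod_factor q),
    tsum_fintype]
  exact Finset.sum_congr (by ext; simp) fun q _ => rfl

lemma wt1_term (hΩ : Ω ≠ 0) {π : ZI} (hπ : π ≠ 0) (u : ℂ) (q b : ZI) :
    tc π ^ 2 * wt1 Ω (tc π * u) (q + π * b) - wt1 Ω (u + zq Ω π q) b =
      1 / (Ω * tc b) ^ 2 - tc π ^ 2 / (Ω * tc (q + π * b)) ^ 2 := by
  have hπc := tc_ne hπ
  unfold wt1
  have e1 : tc π * u + Ω * tc (q + π * b) = tc π * (u + zq Ω π q + Ω * tc b) := by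
    unfold zq
    rw [tc_add, tc_mul]
    field_simp
    ring
  rw [e1, mul_pow]
  have e2 : tc π ^ 2 * (1 / (tc π ^ 2 * (u + zq Ω π q + Ω * tc b) ^ 2)) =
      1 / (u + zq Ω π q + Ω * tc b) ^ 2 := by
    rw [mul_one_div, div_mul_eq_div_div, div_self (pow_ne_zero 2 hπc)]
  rw [mul_sub, e2, mul_one_div]
  ring

/-- the difference is constant -/
lemma tr_const (h : IsLat L RG Ω) {π : ZI} (hπ : π ≠ 0) [Fintype (RQ π)] : ∃ C : ℂ, ∀ u : ℂ,
    tc π ^ 2 * ℘[L] (tc π * u) - ∑ q : RQ π, ℘[L] (u + zq Ω π q.out) = C := by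
  refine ⟨∑ q : RQ π, ∑' b : ZI, (1 / (Ω * tc b) ^ 2 - tc π ^ 2 / (Ω * tc (q.out + π * b)) ^ 2),
    fun u => ?_⟩
  obtain ⟨h1, h2⟩ := tsum_prt h hπ u
  rw [h2, ← Finset.sum_sub_distrib]
  refine Finset.sum_congr rfl fun q _ => ?_
  have h3 := hasSum_wp h (u + zq Ω π q.out)
  rw [← h3.tsum_eq, ← (h1 q).tsum_sub h3.summable]
  exact tsum_congr fun b => wt1_term h.ne hπ u q.out b

/-- **the trace** -/
theorem wp_trace (h : IsLat L RG Ω) {π : ZI} (hπ : π ≠ 0) [Fintype (RQ π)] (u : ℂ) :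
    ∑ q : RQ π, ℘[L] (u + zq Ω π q.out) = tc π ^ 2 * ℘[L] (tc π * u) := by
  obtain ⟨C, hC⟩ := tr_const (L := L) h hπ
  have h1 := hC u
  have h2 := hC (I * u)
  have e1 : tc π * (I * u) = I * (tc π * u) := by ring
  have e2 : ∑ q : RQ π, ℘[L] (I * u + zq Ω π q.out) = -∑ q : RQ π, ℘[L] (u + zq Ω π q.out) := by
    rw [← sum_unit_mul (im1_isUnit π), ← Finset.sum_neg_distrib]
    refine Finset.sum_congr rfl fun q _ => ?_
    rw [← wp_I h]
    apply wp_per
    have h3 := zq_sub h hπ (out_mul π im1 q)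
    rw [zq_mul, tc_im1] at h3
    have e : I * u + zq Ω π (Ideal.Quotient.mk (Ideal.span {π}) im1 * q).out -
        I * (u + zq Ω π q.out) =
        zq Ω π (Ideal.Quotient.mk (Ideal.span {π}) im1 * q).out - I * zq Ω π q.out := by ring
    rwa [e]
  rw [e1, wp_I h, e2] at h2
  have h3 : C = 0 := by
    have : 2 * C = 0 := by linear_combination -h1 - h2
    exact (mul_eq_zero.1 this).resolve_left two_ne_zero
  rw [h3] at h1
  linear_combination -h1

/-- the elements modulo a product -/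
noncomputable def eRQ {π D : ZI} (hD : D ≠ 0) :
    RQ D × RQ π ≃ RQ (π * D) := Equiv.ofBijective
  (fun x => Ideal.Quotient.mk (Ideal.span {π * D}) (x.1.out + D * x.2.out)) ⟨by
    rintro ⟨a, s⟩ ⟨b, t⟩ hab
    have h1 : π * D ∣ (a.out + D * s.out) - (b.out + D * t.out) := by
      have h2 := (Ideal.Quotient.eq).1 hab
      rwa [Ideal.mem_span_singleton] at h2
    have h2 : a = b := by
      rw [← Ideal.Quotient.mk_out a, ← Ideal.Quotient.mk_out b, Ideal.Quotient.eq,
        Ideal.mem_span_singleton]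
      have h3 : D ∣ (a.out + D * s.out) - (b.out + D * t.out) := (dvd_mul_left _ _).trans h1
      have h4 : D ∣ D * (s.out - t.out) := dvd_mul_right _ _
      have h5 := dvd_sub h3 h4
      have e : (a.out + D * s.out) - (b.out + D * t.out) - D * (s.out - t.out) = a.out - b.out := by
        ring
      rwa [e] at h5
    subst h2
    have h3 : s = t := by
      rw [← Ideal.Quotient.mk_out s, ← Ideal.Quotient.mk_out t, Ideal.Quotient.eq,
        Ideal.mem_span_singleton]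
      have e : (a.out + D * s.out) - (a.out + D * t.out) = (s.out - t.out) * D := by ring
      rw [e] at h1
      exact (mul_dvd_mul_iff_right hD).1 h1
    rw [h3], by
    intro q
    obtain ⟨s, hs⟩ : D ∣ q.out - (Ideal.Quotient.mk (Ideal.span {D}) q.out).out := by
      rw [← Ideal.mem_span_singleton, ← Ideal.Quotient.eq, Ideal.Quotient.mk_out]
    obtain ⟨t, ht⟩ : π ∣ s - (Ideal.Quotient.mk (Ideal.span {π}) s).out := by
      rw [← Ideal.mem_span_singleton, ← Ideal.Quotient.eq, Ideal.Quotient.mk_out]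
    refine ⟨(Ideal.Quotient.mk (Ideal.span {D}) q.out, Ideal.Quotient.mk (Ideal.span {π}) s), ?_⟩
    conv_rhs => rw [← Ideal.Quotient.mk_out q]
    rw [Ideal.Quotient.eq, Ideal.mem_span_singleton]
    exact ⟨-t, by linear_combination (-1 : ZI) * hs - D * ht⟩⟩

lemma sum_RQ_mul {π D : ZI} (hD : D ≠ 0) [Fintype (RQ D)] [Fintype (RQ π)]
    [Fintype (RQ (π * D))] {G : ZI → ℂ} (hper : ∀ a b, π * D ∣ a - b → G a = G b) :
    ∑ q : RQ (π * D), G q.out = ∑ q : RQ D, ∑ t : RQ π, G (q.out + D * t.out) := by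
  rw [← (eRQ (π := π) hD).sum_comp, Fintype.sum_prod_type]
  refine Finset.sum_congr rfl fun q _ => Finset.sum_congr rfl fun t _ => ?_
  apply hper
  show π * D ∣ (Ideal.Quotient.mk (Ideal.span {π * D}) (q.out + D * t.out)).out -
    (q.out + D * t.out)
  rw [← Ideal.mem_span_singleton, ← Ideal.Quotient.eq, Ideal.Quotient.mk_out]

open Classical in
/-- the sum over the multiples -/
lemma sum_RQ_dvd {π D : ZI} (hπ : π ≠ 0) [Fintype (RQ D)] [Fintype (RQ (π * D))] {G : ZI → ℂ}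
    (hper : ∀ a b, π * D ∣ a - b → G a = G b) :
    ∑ q : RQ (π * D), (if π ∣ q.out then G q.out else 0) = ∑ q : RQ D, G (π * q.out) := by
  rw [← Finset.sum_filter]
  symm
  refine Finset.sum_bij (fun q _ => Ideal.Quotient.mk (Ideal.span {π * D}) (π * q.out)) ?_ ?_ ?_ ?_
  · intro q _
    rw [Finset.mem_filter]
    refine ⟨Finset.mem_univ _, ?_⟩
    have h1 : π * D ∣ (Ideal.Quotient.mk (Ideal.span {π * D}) (π * q.out)).out - π * q.out := by
      rw [← Ideal.mem_span_singleton, ← Ideal.Quotient.eq, Ideal.Quotient.mk_out]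
    have h2 := dvd_add ((dvd_mul_right π D).trans h1) (dvd_mul_right π q.out)
    rwa [sub_add_cancel] at h2
  · intro a _ b _ hab
    rw [Ideal.Quotient.eq, Ideal.mem_span_singleton, ← mul_sub,
      mul_dvd_mul_iff_left hπ] at hab
    rw [← Ideal.Quotient.mk_out a, ← Ideal.Quotient.mk_out b, Ideal.Quotient.eq,
      Ideal.mem_span_singleton]
    exact hab
  · intro q hq
    rw [Finset.mem_filter] at hq
    obtain ⟨s, hs⟩ := hq.2
    refine ⟨Ideal.Quotient.mk (Ideal.span {D}) s, Finset.mem_univ _, ?_⟩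
    obtain ⟨t, ht⟩ : D ∣ s - (Ideal.Quotient.mk (Ideal.span {D}) s).out := by
      rw [← Ideal.mem_span_singleton, ← Ideal.Quotient.eq, Ideal.Quotient.mk_out]
    conv_rhs => rw [← Ideal.Quotient.mk_out q]
    rw [Ideal.Quotient.eq, Ideal.mem_span_singleton]
    exact ⟨-t, by linear_combination (-1 : ZI) * hs - π * ht⟩
  · intro q _
    symm
    apply hper
    rw [← Ideal.mem_span_singleton, ← Ideal.Quotient.eq, Ideal.Quotient.mk_out]

end Pool.Agent.E8helper21.QT
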