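import Pool.Agent.E8helper21.QT.Hck
import Pool.Agent.E8helper21.QT.Tr
import Pool.Agent.Y699.Qw

/-!
The sums over the division points: relations and reductions.
-/

set_option autoImplicit false
set_option linter.unusedSectionVars false

open Filter Complex
open scoped Topology PeriodPair
open H667R3 hiding sq
open Pool.Agent.TH936.CM Pool.Agent.W192.HK

namespace Pool.Agent.E8helper21.QT

open Pool.Agent.Y699
open H385 (ZI RQ im1 nrm)
open Pool.Agent.H304R3.HK (tc)
open Pool.Agent.W164.RC (tc_mul tc_star two2 prim_iff_dvd unit_cases)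
open Pool.Agent.H304R2.EC.A1 (prim prim_mul prim_cancel prim_one prim_norm_odd prim_star eq_one_of_prim
  norm_def' re_mul' im_mul' eq_of_dvd prim_ne_zero)

variable {L : PeriodPair} {Ω : ℂ} {ι : Type} [DecidableEq ι] {pr : ι → ZI}

/-- the admissible functions -/
structure Fn (L : PeriodPair) (f : ℂ → ℂ) : Prop where
  per : ∀ z w, z - w ∈ L.lattice → f z = f w
  neg : ∀ z, f (I * z) = -f z

lemma fn_gh (h : GLat L Ω) : Fn L (gh L) := ⟨fun _ _ => gh_per L, gh_I h⟩
lemma fn_ph (h : GLat L Ω) : Fn L (ph L) := ⟨fun _ _ => ph_per L, ph_I h⟩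
lemma fn_Rf (h : GLat L Ω) : Fn L (Rf L) := ⟨fun _ _ => Rf_per h.lat, Rf_I h⟩

lemma Fn.pi (h : GLat L Ω) {f : ℂ → ℂ} (hf : Fn L f) : Fn L (fun z => f ((1 + I) * z)) := by
  refine ⟨fun z w hzw => hf.per _ _ (pi_per h.lat hzw), fun z => ?_⟩
  have e : (1 + I) * (I * z) = I * ((1 + I) * z) := by ring
  show f ((1 + I) * (I * z)) = _
  rw [e, hf.neg]

open Classical in
/-- sums of unit invariant functions -/
lemma orbit_sum' {D π c : ZI} (hD : π ∣ D) (hπ : PP π) (hcc : ¬ π ∣ c) (hw : wq π % 2 = 1)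
    [Fintype (RQ D)] {G : ZI → ℂ}
    (hper : ∀ a b, D ∣ a - b → G a = G b) (hi : ∀ a, G (im1 * a) = G a)
    (hz : ∀ a, π ∣ a → G a = 0) :
    1 / 4 * ∑ q : RQ D, G q.out = ∑ q : RQ D, (if q4 π (c * q.out) = 1 then G q.out else 0) := by
  have hik : ∀ k : ℕ, ∀ a, G (im1 ^ k * a) = G a := by
    intro k
    induction k with
    | zero => intro a; rw [pow_zero, one_mul]
    | succ k ih => intro a; rw [pow_succ, mul_assoc, ih, hi]
  have hnk : ∀ k : ℕ, (im1 ^ k : ZI).norm = 1 := by
    intro k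
    induction k with
    | zero => simp
    | succ k ih => rw [pow_succ, Zsqrtd.norm_mul, ih, im1_norm, one_mul]
  have h1 : ∀ q : RQ D, G q.out = ∑ k ∈ Finset.range 4,
      (if q4 π (c * (im1 ^ k * q.out)) = 1 then G q.out else 0) := by
    intro q
    by_cases hd : π ∣ q.out
    · rw [hz _ hd]
      simp
    · have hd2 : ¬ π ∣ c * q.out := by
        intro h'
        rcases hπ.pr.dvd_or_dvd h' with h | h
        · exact hcc h
        · exact hd h
      have e1 : ∀ k : ℕ, q4 π (c * (im1 ^ k * q.out)) = (im1 ^ wq π) ^ k * q4 π (c * q.out) := by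
        intro k
        have e2 : c * (im1 ^ k * q.out) = im1 ^ k * (c * q.out) := by ring
        rw [e2, q4_mul hπ, q4_unit hπ (hnk k), ← pow_mul, ← pow_mul, mul_comm k]
        rfl
      have hu := q4_norm hπ hd2
      simp_rw [e1]
      have hw4 : wq π % 4 = 1 ∨ wq π % 4 = 3 := by omega
      have ht : im1 ^ wq π = im1 ∨ im1 ^ wq π = -im1 := by
        rcases hw4 with h | h
        · left
          rw [unit_pow_mod im1_norm (n := 1) (by rw [h]), pow_one]
        · right
          rw [unit_pow_mod im1_norm (n := 3) (by rw [h])]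
          decide
      have e2 : (im1 : ZI) ^ 2 = -1 := by decide
      have e3 : (im1 : ZI) ^ 3 = -im1 := by decide
      rw [Finset.sum_range_succ, Finset.sum_range_succ, Finset.sum_range_succ,
        Finset.sum_range_succ, Finset.sum_range_zero]
      rcases unit_cases hu with h | h | h | h <;> rcases ht with h' | h' <;> rw [h, h']
      · rw [if_pos (by decide), if_neg (by decide), if_neg (by decide), if_neg (by decide)]; ring
      · rw [if_pos (by decide), if_neg (by decide), if_neg (by decide), if_neg (by decide)]; ring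
      · rw [if_neg (by decide), if_neg (by decide), if_neg (by decide), if_pos (by decide)]; ring
      · rw [if_neg (by decide), if_pos (by decide), if_neg (by decide), if_neg (by decide)]; ring
      · rw [if_neg (by decide), if_neg (by decide), if_pos (by decide), if_neg (by decide)]; ring
      · rw [if_neg (by decide), if_neg (by decide), if_pos (by decide), if_neg (by decide)]; ring
      · rw [if_neg (by decide), if_pos (by decide), if_neg (by decide), if_neg (by decide)]; ring
      · rw [if_neg (by decide), if_neg (by decide), if_neg (by decide), if_pos (by decide)]; ring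
  have h2 : ∀ k : ℕ, ∑ q : RQ D, (if q4 π (c * (im1 ^ k * q.out)) = 1 then G q.out else 0) =
      ∑ q : RQ D, (if q4 π (c * q.out) = 1 then G q.out else 0) := by
    intro k
    have hu : IsUnit (Ideal.Quotient.mk (Ideal.span {D}) (im1 ^ k)) := by
      rw [map_pow]; exact (im1_isUnit D).pow k
    rw [← sum_unit_mul hu (fun q => if q4 π (c * q.out) = 1 then G q.out else 0)]
    refine Finset.sum_congr rfl fun q _ => ?_
    have e1 := out_mul D (im1 ^ k) q
    have e2 : q4 π (c * (Ideal.Quotient.mk (Ideal.span {D}) (im1 ^ k) * q).out) =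
        q4 π (c * (im1 ^ k * q.out)) := by
      apply q4_per hπ
      rw [← mul_sub]
      exact (hD.trans e1).mul_left _
    rw [e2, hper _ _ e1, hik]
  rw [Finset.sum_congr rfl fun q _ => h1 q, Finset.sum_comm, Finset.sum_congr rfl fun k _ => h2 k,
    Finset.sum_const, Finset.card_range]
  simp

/-- the relation before evaluation -/
lemma rel_ex [Fintype ι] (hp : PF pr) {V : Finset ι} {r : ι} (hr : r ∈ V) (hw : wq (pr r) % 2 = 1)
    {e : ι → ℕ} (he : ∀ i ∈ V.erase r, 1 ≤ e i) (hW : Wt pr V e % 4 = 2)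
    [Fintype (RQ (DD pr V))] (h : GLat L Ω) {f : ℂ → ℂ} (hf : Fn L f) :
    ∑ S ∈ (V.erase r).powerset, (-1) ^ S.card * SF f Ω pr V (es pr r e S) =
      ∑ q : RQ (DD pr V), (open Classical in (if q4 (pr r) (two2 * q.out) = 1 then
        (∏ i ∈ V.erase r, df pr e i (two2 * q.out)) * f (zq Ω (DD pr V) q.out) else 0)) := by
  classical
  have hD0 := DD_ne hp V
  -- each term
  have h1 : ∀ S ∈ (V.erase r).powerset, SF f Ω pr V (es pr r e S) =
      ∑ q : RQ (DD pr V), (if q4 (pr r) (two2 * q.out) = 1 then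
        tc (c4 pr V (es pr r e S) (two2 * q.out)) * f (zq Ω (DD pr V) q.out) else 0) := by
    intro S hS
    rw [Finset.mem_powerset] at hS
    have hWS : Wt pr V (es pr r e S) % 4 = 2 := by rw [es_Wt hr hw he hS, hW]
    unfold SF
    refine orbit_sum' (G := fun a => tc (c4 pr V (es pr r e S) (two2 * a)) * f (zq Ω (DD pr V) a))
      (dvd_DD hr) (hp.pp r) (not_dvd_two2 (hp.pp r)) hw ?_ ?_ ?_
    · intro a b hab
      rw [c4_per hp V _ (a := two2 * a) (b := two2 * b) (by rw [← mul_sub]; exact hab.mul_left _),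
        hf.per _ _ (zq_sub h.lat hD0 hab)]
    · intro a
      have e1 : two2 * (im1 * a) = im1 * (two2 * a) := by ring
      rw [e1, c4_im2 hp hWS, tc_neg, zq_mul, tc_im1, hf.neg]
      ring
    · intro a ha
      rw [c4_zero _ hr (ha.mul_left _), tc_zero, zero_mul]
  rw [Finset.sum_congr rfl fun S hS => by rw [h1 S hS, Finset.mul_sum], Finset.sum_comm]
  refine Finset.sum_congr rfl fun q _ => ?_
  by_cases hq : q4 (pr r) (two2 * q.out) = 1
  · simp only [if_pos hq]
    have hnd : ¬ pr r ∣ two2 * q.out := by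
      intro hd
      rw [q4_zero hd] at hq
      exact absurd hq (by decide)
    have h3 : ∏ i ∈ V.erase r, df pr e i (two2 * q.out) = ∑ S ∈ (V.erase r).powerset,
        (-1) ^ S.card * tc (c4 pr V (es pr r e S) (two2 * q.out)) := by
      have h4 : ∀ i ∈ V.erase r, df pr e i (two2 * q.out) =
          -tc (fe (pr i) (e i - 1) (two2 * q.out)) + tc (fe (pr i) (e i) (two2 * q.out)) := by
        intro i _
        unfold df; ring
      rw [Finset.prod_congr rfl h4, Finset.prod_add]
      refine Finset.sum_congr rfl fun S hS => ?_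
      rw [Finset.mem_powerset] at hS
      rw [Finset.prod_neg, mul_assoc]
      congr 1
      unfold c4
      rw [tc_prod, ← Finset.mul_prod_erase V _ hr]
      have e1 : tc (fe (pr r) (es pr r e S r) (two2 * q.out)) = 1 := by
        unfold fe
        rw [if_neg hnd, hq, one_pow, tc_one]
      rw [e1, one_mul, ← Finset.prod_sdiff hS, mul_comm]
      congr 1
      · refine Finset.prod_congr rfl fun i hi => ?_
        rw [Finset.mem_sdiff] at hi
        unfold es
        rw [if_neg (Finset.mem_erase.1 hi.1).1, if_neg hi.2]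
      · refine Finset.prod_congr rfl fun i hi => ?_
        unfold es
        rw [if_neg (Finset.mem_erase.1 (hS hi)).1, if_pos hi]
    rw [h3, Finset.sum_mul]
    exact Finset.sum_congr rfl fun S _ => by ring
  · simp only [if_neg hq, mul_zero, Finset.sum_const_zero]

lemma pi1_isUnit {D : ZI} (hD : prim D) : IsUnit (Ideal.Quotient.mk (Ideal.span {D}) pi1) := by
  obtain ⟨a, b, hab⟩ := prim_cop hD
  refine IsUnit.of_mul_eq_one (Ideal.Quotient.mk (Ideal.span {D}) b) ?_
  rw [← map_mul, ← map_one (Ideal.Quotient.mk (Ideal.span {D})), Ideal.Quotient.eq,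
    Ideal.mem_span_singleton]
  exact ⟨-a, by linear_combination hab⟩

lemma two2_two : two2 = pi1 * 2 := by decide

/-- the value at `1 + i` -/
noncomputable def et (pr : ι → ZI) (V : Finset ι) (e : ι → ℕ) : ℂ := tc (star (c4 pr V e pi1))

lemma pi1_ndvd {π : ZI} (h : PP π) : ¬ π ∣ pi1 := by
  intro h'
  apply not_dvd_two2 h
  rw [two2_two]
  exact h'.mul_right _

lemma c4_pi1 (hp : PF pr) (V : Finset ι) (e : ι → ℕ) : (c4 pr V e pi1).norm = 1 :=
  c4_norm hp V e fun i _ => pi1_ndvd (hp.pp i)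

lemma SF_pi (h : GLat L Ω) (hp : PF pr) (V : Finset ι) (e : ι → ℕ) [Fintype (RQ (DD pr V))]
    {f : ℂ → ℂ} (hf : Fn L f) :
    SF (fun z => f ((1 + I) * z)) Ω pr V e = et pr V e * SF f Ω pr V e := by
  have h1 : SF f Ω pr V e = tc (c4 pr V e pi1) * SF (fun z => f ((1 + I) * z)) Ω pr V e := by
    unfold SF
    rw [← sum_unit_mul (pi1_isUnit (DD_prim hp V)), ← mul_assoc, mul_comm (tc (c4 pr V e pi1)),
      mul_assoc]
    congr 1
    rw [Finset.mul_sum]
    refine Finset.sum_congr rfl fun q _ => ?_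
    have e1 := out_mul (DD pr V) pi1 q
    have e2 : c4 pr V e (two2 * (Ideal.Quotient.mk (Ideal.span {DD pr V}) pi1 * q).out) =
        c4 pr V e pi1 * c4 pr V e (two2 * q.out) := by
      rw [← c4_mul hp]
      apply c4_per hp
      have e3 : two2 * (Ideal.Quotient.mk (Ideal.span {DD pr V}) pi1 * q).out -
          pi1 * (two2 * q.out) = two2 *
          ((Ideal.Quotient.mk (Ideal.span {DD pr V}) pi1 * q).out - pi1 * q.out) := by ring
      rw [e3]
      exact e1.mul_left _
    have e4 : f (zq Ω (DD pr V) (Ideal.Quotient.mk (Ideal.span {DD pr V}) pi1 * q).out) =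
        f ((1 + I) * zq Ω (DD pr V) q.out) := by
      apply hf.per
      have e5 := zq_sub h.lat (DD_ne hp V) e1
      rwa [zq_mul, tc_pi1] at e5
    rw [e2, e4, tc_mul]
    ring
  have h2 : tc (star (c4 pr V e pi1)) * tc (c4 pr V e pi1) = 1 := by
    rw [← tc_mul, mul_comm, unit_star_mul (c4_pi1 hp V e), tc_one]
  unfold et
  rw [h1, ← mul_assoc, h2, one_mul]

/-- the multiplier -/
noncomputable def Ce (η : ℂ) : ℂ := (η + I) / (1 + I) + η ^ 2 + η - 2

lemma SF_add (f g : ℂ → ℂ) (V : Finset ι) (e : ι → ℕ) [Fintype (RQ (DD pr V))] :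
    SF (fun z => f z + g z) Ω pr V e = SF f Ω pr V e + SF g Ω pr V e := by
  unfold SF
  rw [← mul_add, ← Finset.sum_add_distrib]
  congr 1
  exact Finset.sum_congr rfl fun q _ => by ring

lemma SF_smul (k : ℂ) (f : ℂ → ℂ) (V : Finset ι) (e : ι → ℕ) [Fintype (RQ (DD pr V))] :
    SF (fun z => k * f z) Ω pr V e = k * SF f Ω pr V e := by
  unfold SF
  rw [← mul_assoc, mul_comm k, mul_assoc, Finset.mul_sum _ _ k]
  congr 1
  exact Finset.sum_congr rfl fun q _ => by ring

theorem M_eq (h : GLat L Ω) (hp : PF pr) (V : Finset ι) (e : ι → ℕ) [Fintype (RQ (DD pr V))] :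
    SF (gh L) Ω pr V e = Ce (et pr V e) * SF (ph L) Ω pr V e +
      (1 + I) ^ 3 * SF (Rf L) Ω pr V e := by
  have h1I : (1 + I : ℂ) ≠ 0 := one_I_ne
  have hf := fn_ph h
  have hf1 := hf.pi h
  have p1 := SF_pi h hp V e hf
  have p2 := SF_pi h hp V e hf1
  have e1 : SF (gh L) Ω pr V e = SF (fun z => (1 + I) ^ 3 * Rf L z +
      ((1 / (1 + I) + 1) * ph L ((1 + I) * z) + (ph L ((1 + I) * ((1 + I) * z)) +
        (I / (1 + I) - 2) * ph L z))) Ω pr V e := by
    congr 1
    funext z
    have e2 : (1 + I) ^ 2 * z = (1 + I) * ((1 + I) * z) := by ring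
    unfold Rf Bf
    rw [mul_div_cancel₀ _ (pow_ne_zero 3 h1I), e2]
    ring
  rw [e1, SF_add, SF_smul, SF_add (fun z => (1 / (1 + I) + 1) * ph L ((1 + I) * z)),
    SF_smul _ (fun z => ph L ((1 + I) * z)), SF_add (fun z => ph L ((1 + I) * ((1 + I) * z))),
    SF_smul, p1, p2, p1]
  unfold Ce
  ring

lemma c4_erase {V : Finset ι} {i : ι} (hi : i ∈ V) {e : ι → ℕ} (he : e i = 0) (a : ZI) :
    c4 pr V e a = fe (pr i) 0 a * c4 pr (V.erase i) e a := by
  unfold c4
  rw [← Finset.mul_prod_erase V _ hi, he]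

lemma et_erase (hp : PF pr) {V : Finset ι} {i : ι} (hi : i ∈ V) {e : ι → ℕ} (he : e i = 0) :
    et pr V e = et pr (V.erase i) e := by
  unfold et
  rw [c4_erase hi he]
  unfold fe
  rw [if_neg (pi1_ndvd (hp.pp i)), pow_zero, one_mul]

open Classical in
lemma wp_aux (h : GLat L Ω) {π D' D : ZI} (hD : D = π * D') (hπ : π ≠ 0) (hD' : D' ≠ 0)
    [Fintype (RQ D)] [Fintype (RQ D')] [Fintype (RQ π)] {F F' : ZI → ℂ} {k : ℂ}
    (hF : ∀ a, F a = if π ∣ a then 0 else F' a) (hF' : ∀ a b, D' ∣ a - b → F' a = F' b)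
    (hmul : ∀ a, F' (π * a) = k * F' a) :
    ∑ q : RQ D, F q.out * ℘[L] (zq Ω D q.out) =
      (tc π ^ 2 - k) * ∑ q : RQ D', F' q.out * ℘[L] (zq Ω D' q.out) := by
  subst hD
  have hD0 : π * D' ≠ 0 := mul_ne_zero hπ hD'
  have hπc := tc_ne hπ
  have hDc := tc_ne hD'
  have hper : ∀ a b, π * D' ∣ a - b →
      F' a * ℘[L] (zq Ω (π * D') a) = F' b * ℘[L] (zq Ω (π * D') b) := by
    intro a b hab
    rw [hF' a b ((dvd_mul_left _ _).trans hab), wp_per L (zq_sub h.lat hD0 hab)]
  have h1 : ∑ q : RQ (π * D'), F q.out * ℘[L] (zq Ω (π * D') q.out) =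
      ∑ q : RQ (π * D'), F' q.out * ℘[L] (zq Ω (π * D') q.out) -
      ∑ q : RQ (π * D'), (if π ∣ q.out then F' q.out * ℘[L] (zq Ω (π * D') q.out) else 0) := by
    rw [← Finset.sum_sub_distrib]
    refine Finset.sum_congr rfl fun q _ => ?_
    rw [hF]
    split_ifs <;> ring
  rw [h1, sum_RQ_dvd (D := D') hπ (G := fun a => F' a * ℘[L] (zq Ω (π * D') a)) hper,
    sum_RQ_mul hD' (G := fun a => F' a * ℘[L] (zq Ω (π * D') a)) hper, sub_mul]
  congr 1
  · rw [Finset.mul_sum]
    refine Finset.sum_congr rfl fun q _ => ?_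
    have e1 : ∀ t : RQ π, F' (q.out + D' * t.out) * ℘[L] (zq Ω (π * D') (q.out + D' * t.out)) =
        F' q.out * ℘[L] (zq Ω (π * D') q.out + zq Ω π t.out) := by
      intro t
      rw [hF' (q.out + D' * t.out) q.out ⟨t.out, by ring⟩]
      congr 2
      unfold zq
      rw [tc_add, tc_mul, tc_mul]
      field_simp
    rw [Finset.sum_congr rfl fun t _ => e1 t, ← Finset.mul_sum, wp_trace h.lat hπ]
    have e2 : tc π * zq Ω (π * D') q.out = zq Ω D' q.out := by
      unfold zq
      rw [tc_mul]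
      field_simp
    rw [e2]
    ring
  · rw [Finset.mul_sum]
    refine Finset.sum_congr rfl fun q _ => ?_
    have e2 : zq Ω (π * D') (π * q.out) = zq Ω D' q.out := by
      unfold zq
      rw [tc_mul, tc_mul]
      field_simp
    show F' (π * q.out) * ℘[L] (zq Ω (π * D') (π * q.out)) = _
    rw [hmul, e2]
    ring

lemma DD_erase {V : Finset ι} {i : ι} (hi : i ∈ V) : DD pr V = pr i * DD pr (V.erase i) := by
  unfold DD
  exact (Finset.mul_prod_erase V pr hi).symm

theorem P_erase (h : GLat L Ω) (hp : PF pr) {V : Finset ι} {i : ι} (hi : i ∈ V) {e : ι → ℕ}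
    (he : e i = 0) [Fintype (RQ (DD pr V))] [Fintype (RQ (DD pr (V.erase i)))] :
    SF (ph L) Ω pr V e = (tc (pr i) ^ 2 - tc (c4 pr (V.erase i) e (pr i))) *
      SF (ph L) Ω pr (V.erase i) e := by
  classical
  have := fin_RQ (hp.pp i)
  letI := Fintype.ofFinite (RQ (pr i))
  have h1 := wp_aux h (DD_erase (pr := pr) hi) (hp.pp i).ne (DD_ne hp (V.erase i))
    (F := fun a => tc (c4 pr V e (two2 * a))) (F' := fun a => tc (c4 pr (V.erase i) e (two2 * a)))
    (k := tc (c4 pr (V.erase i) e (pr i)))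
    (fun a => by
      have h2 : pr i ∣ two2 * a ↔ pr i ∣ a := by
        constructor
        · intro h3
          exact ((hp.pp i).pr.dvd_or_dvd h3).resolve_left (not_dvd_two2 (hp.pp i))
        · exact fun h3 => h3.mul_left _
      show tc (c4 pr V e (two2 * a)) = _
      rw [c4_erase hi he]
      unfold fe
      by_cases h3 : pr i ∣ a
      · rw [if_pos (h2.2 h3), if_pos h3, zero_mul, tc_zero]
      · rw [if_neg (fun h4 => h3 (h2.1 h4)), if_neg h3, pow_zero, one_mul])
    (fun a b hab => by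
      show tc (c4 pr (V.erase i) e (two2 * a)) = tc (c4 pr (V.erase i) e (two2 * b))
      rw [c4_per hp _ e (a := two2 * a) (b := two2 * b) (by rw [← mul_sub]; exact hab.mul_left _)])
    (fun a => by
      show tc (c4 pr (V.erase i) e (two2 * (pr i * a))) = _
      have e2 : two2 * (pr i * a) = pr i * (two2 * a) := by ring
      rw [e2, c4_mul hp, tc_mul])
  have hr := rr_ne
  have e3 : ∀ (W : Finset ι) (_ : Fintype (RQ (DD pr W))), SF (ph L) Ω pr W e = 1 / (4 * rr) *
      ∑ q : RQ (DD pr W), tc (c4 pr W e (two2 * q.out)) * ℘[L] (zq Ω (DD pr W) q.out) := by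
    intro W _
    unfold SF ph
    rw [Finset.mul_sum, Finset.mul_sum]
    refine Finset.sum_congr rfl fun q _ => ?_
    field_simp
  rw [e3 V _, e3 (V.erase i) _, h1]
  ring

/-- the constant is not zero -/
lemma kap_ne (h : GLat L Ω) : kap L Ω ≠ 0 := by
  have h1I : (1 - I : ℂ) ≠ 0 := by
    intro h0
    have := congrArg Complex.re h0
    simp at this
  have hy : ℘'[L] (dz Ω) ≠ 0 := by
    intro h0
    have h1 := h.y0_sq
    rw [h0] at h1
    have h2 : (8 : ℂ) * ℘[L] (dz Ω) = 0 := by linear_combination h1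
    exact h.x0_ne ((mul_eq_zero.1 h2).resolve_left (by norm_num))
  unfold kap
  exact div_ne_zero (mul_ne_zero (neg_ne_zero.2 h.lat.ne) hy)
    (mul_ne_zero (mul_ne_zero (tc_ne two2_ne) rr_ne) h1I)

/-- the value for a vanishing exponent -/
theorem M_erase (h : GLat L Ω) (hp : PF pr) {V : Finset ι} {i : ι} (hi : i ∈ V) {e : ι → ℕ}
    (he : e i = 0) (hW : Wt pr V e % 4 = 2) [Fintype (RQ (DD pr V))]
    [Fintype (RQ (DD pr (V.erase i)))] :
    SF (gh L) Ω pr V e = (tc (pr i) - tc (c4 pr (V.erase i) e (pr i))) *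
      SF (gh L) Ω pr (V.erase i) e := by
  classical
  have hWe : Wt pr (V.erase i) e = Wt pr V e := by
    unfold Wt
    rw [← Finset.add_sum_erase V _ hi, he, zero_mul, zero_add]
  have hW' : Wt pr (V.erase i) e % 4 = 2 := by rw [hWe]; exact hW
  have hVe : (V.erase i).Nonempty := by
    by_contra hc
    rw [Finset.not_nonempty_iff_eq_empty] at hc
    rw [hc] at hW'
    simp [Wt] at hW'
  have l1 := lim_cc4' h hp ⟨i, hi⟩ hW
  have l2 := lim_cc4' h hp hVe hW'
  have hπ0 := tc_ne (hp.pp i).ne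
  have hD0 := tc_ne (DD_ne hp V)
  have hD0' := tc_ne (DD_ne hp (V.erase i))
  have hDV : tc (DD pr V) = tc (pr i) * tc (DD pr (V.erase i)) := by
    rw [← tc_mul, DD_erase hi]
  -- the relation of the regularized sums
  have key : ∀ δ : ℝ, 0 < δ → RS (cc4 pr V e) δ = RS (cc4 pr (V.erase i) e) δ -
      (tc (c4 pr (V.erase i) e (pr i))) / tc (pr i) *
        RS (cc4 pr (V.erase i) e) (δ * Complex.normSq (tc (pr i))) := by
    intro δ hδ
    have h1 := RS_dvd (π := pr i) (hp.pp i).ne (cc4 pr (V.erase i) e) δ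
    have h3 : RS (fun b => cc4 pr (V.erase i) e (pr i * b)) (δ * Complex.normSq (tc (pr i))) =
        tc (c4 pr (V.erase i) e (pr i)) *
          RS (cc4 pr (V.erase i) e) (δ * Complex.normSq (tc (pr i))) := by
      unfold RS
      rw [← tsum_mul_left]
      refine tsum_congr fun b => ?_
      have e5 : cc4 pr (V.erase i) e (pr i * b) =
          tc (c4 pr (V.erase i) e (pr i)) * cc4 pr (V.erase i) e b := by
        unfold cc4
        by_cases hb : prim b
        · rw [if_pos ((prim_mul_iff (hp.pp i).prm).2 hb), if_pos hb, c4_mul hp, tc_mul]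
        · rw [if_neg (fun h' => hb ((prim_mul_iff (hp.pp i).prm).1 h')), if_neg hb, mul_zero]
      show cc4 pr (V.erase i) e (pr i * b) * fd (δ * Complex.normSq (tc (pr i))) (tc b) = _
      rw [e5, mul_assoc]
    rw [h3] at h1
    have h4 : ∀ a, cc4 pr V e a = cc4 pr (V.erase i) e a -
        (if pr i ∣ a then cc4 pr (V.erase i) e a else 0) := by
      intro a
      have h5 := c4_erase (pr := pr) hi he a
      unfold cc4
      rw [h5]
      unfold fe
      by_cases ha : prim a
      · rw [if_pos ha, if_pos ha]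
        by_cases hd : pr i ∣ a
        · rw [if_pos hd, if_pos hd, zero_mul, tc_zero, sub_self]
        · rw [if_neg hd, if_neg hd, pow_zero, one_mul, sub_zero]
      · rw [if_neg ha, if_neg ha]
        split_ifs <;> simp
    have hs1 := summ_bd h.lat hδ (cc4_bd hp (V.erase i) e)
    have hs2 : Summable (fun a : ZI =>
        (if pr i ∣ a then cc4 pr (V.erase i) e a else 0) * fd δ (tc a)) := by
      refine summ_bd h.lat hδ (C := 1) fun a => ?_
      split_ifs
      · exact cc4_bd hp _ _ a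
      · rw [norm_zero]; norm_num
    have h6 : RS (cc4 pr V e) δ = RS (cc4 pr (V.erase i) e) δ -
        RS (fun a => if pr i ∣ a then cc4 pr (V.erase i) e a else 0) δ := by
      unfold RS
      rw [← hs1.tsum_sub hs2]
      refine tsum_congr fun a => ?_
      rw [h4 a]
      ring
    rw [h6, h1]
    ring
  have hc : 0 < Complex.normSq (tc (pr i)) := Complex.normSq_pos.2 hπ0
  have l3 := l2.sub ((tendsto_scale l2 hc).const_mul
    (tc (c4 pr (V.erase i) e (pr i)) / tc (pr i)))
  have l4 := tendsto_nhds_unique (l1.congr' (by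
    filter_upwards [self_mem_nhdsWithin] with δ (hδ : 0 < δ)
    exact key δ hδ)) l3
  have hk := kap_ne h
  rw [hDV] at l4
  field_simp at l4
  linear_combination l4

/-- the remainder for a vanishing exponent -/
theorem R_erase (h : GLat L Ω) (hp : PF pr) {V : Finset ι} {i : ι} (hi : i ∈ V) {e : ι → ℕ}
    (he : e i = 0) (hW : Wt pr V e % 4 = 2) [Fintype (RQ (DD pr V))]
    [Fintype (RQ (DD pr (V.erase i)))] :
    SF (Rf L) Ω pr V e = (tc (pr i) - tc (c4 pr (V.erase i) e (pr i))) *
      SF (Rf L) Ω pr (V.erase i) e + (tc (pr i) - tc (pr i) ^ 2) / (1 + I) ^ 3 *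
      (SF (gh L) Ω pr (V.erase i) e - (1 + I) ^ 3 * SF (Rf L) Ω pr (V.erase i) e) := by
  have h1I : ((1 + I) ^ 3 : ℂ) ≠ 0 := pow_ne_zero 3 one_I_ne
  have m1 := M_eq h hp V e
  have m2 := M_eq h hp (V.erase i) e
  rw [M_erase h hp hi he hW, P_erase h hp hi he, et_erase hp hi he] at m1
  have h3 : (1 + I) ^ 3 * SF (Rf L) Ω pr V e = (1 + I) ^ 3 *
      ((tc (pr i) - tc (c4 pr (V.erase i) e (pr i))) *
      SF (Rf L) Ω pr (V.erase i) e + (tc (pr i) - tc (pr i) ^ 2) / (1 + I) ^ 3 *
      (SF (gh L) Ω pr (V.erase i) e - (1 + I) ^ 3 * SF (Rf L) Ω pr (V.erase i) e)) := by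
    rw [mul_add, ← mul_assoc ((1 + I) ^ 3) ((tc (pr i) - tc (pr i) ^ 2) / (1 + I) ^ 3),
      mul_div_cancel₀ _ h1I]
    linear_combination -m1 + (tc (pr i) ^ 2 - tc (c4 pr (V.erase i) e (pr i))) * m2
  exact mul_left_cancel₀ h1I h3

end Pool.Agent.E8helper21.QT
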