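import Pool.Agent.E8helper21.QT.Pad
import Pool.Agent.E8helper21.QT.Comb

/-!
The Selmer groups of the two isogenies.
-/

set_option autoImplicit false
set_option linter.unusedSectionVars false

namespace Pool.Agent.E8helper21.QT

open Pool.Agent.Y700 (PC)

variable {P : Finset ℕ}

lemma zmod_neg_one {q : ℕ} (hq : q.Prime) (h4 : q % 4 = 1) : IsSquare (-1 : ZMod q) := by
  haveI := Fact.mk hq
  exact ZMod.exists_sq_eq_neg_one_iff.2 (by omega)

/-- the prime factors of the two parts -/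
lemma T_of {z : ℤ} (hz : Squarefree z) (h : ∀ p : ℕ, p.Prime → (p : ℤ) ∣ z → p ∈ P) :
    ∃ T ⊆ P, z = ((∏ p ∈ T, p : ℕ) : ℤ) ∨ z = -((∏ p ∈ T, p : ℕ) : ℤ) := by
  refine ⟨z.natAbs.primeFactors, fun p hp => ?_, ?_⟩
  · have h1 := Nat.prime_of_mem_primeFactors hp
    exact h p h1 (Int.natCast_dvd.2 (Nat.dvd_of_mem_primeFactors hp))
  · have h2 := Nat.prod_primeFactors_of_squarefree (Int.squarefree_natAbs.2 hz)
    rw [h2]
    omega

lemma nD_split {T : Finset ℕ} (hT : T ⊆ P) :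
    nD P = (∏ p ∈ T, p) * ∏ p ∈ P \ T, p := by
  unfold nD
  rw [mul_comm]
  exact (Finset.prod_sdiff hT).symm

/-- the conditions at the prime factors of `D` -/
theorem T_cases (hP : Cls P) (hK : Kt P) {T : Finset ℕ} (hT : T ⊆ P) {ε c : ℤ}
    (hε : ε = 1 ∨ ε = -1) (hc : c = -1 ∨ c = 4)
    (hz : Squarefree (ε * ((∏ p ∈ T, p : ℕ) : ℤ)))
    (h : ∀ (p : ℕ) [Fact p.Prime], PC 0 (c * (nD P : ℤ)) p (ε * ((∏ p ∈ T, p : ℕ) : ℤ))) :
    T = ∅ ∨ T = P := by
  classical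
  have hprime : ∀ p ∈ P, p.Prime := fun p hp => (hP p hp).1
  -- units modulo `q`
  have hcs : ∀ q ∈ P, IsSquare (c : ZMod q) ∧ ¬ (q : ℤ) ∣ c := by
    intro q hq
    have h4 := (hP q hq).2
    haveI := Fact.mk (hprime q hq)
    rcases hc with rfl | rfl
    · refine ⟨by simpa using zmod_neg_one (hprime q hq) h4, fun h1 => ?_⟩
      have := Int.le_of_dvd (by norm_num) ((dvd_neg.2 h1 : (q : ℤ) ∣ -(-1)))
      have := (hprime q hq).two_le
      omega
    · refine ⟨⟨2, by norm_num⟩, fun h1 => ?_⟩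
      have h2 : q ∣ 2 ^ 2 := by exact_mod_cast h1
      have h3 := (Nat.prime_dvd_prime_iff_eq (hprime q hq) Nat.prime_two).1
        ((hprime q hq).dvd_of_dvd_pow h2)
      omega
  have hes : ∀ q ∈ P, IsSquare (ε : ZMod q) ∧ ¬ (q : ℤ) ∣ ε := by
    intro q hq
    have h4 := (hP q hq).2
    haveI := Fact.mk (hprime q hq)
    have h2 := (hprime q hq).two_le
    rcases hε with rfl | rfl
    · refine ⟨⟨1, by norm_num⟩, fun h1 => ?_⟩
      have := Int.le_of_dvd (by norm_num) h1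
      omega
    · refine ⟨by simpa using zmod_neg_one (hprime q hq) h4, fun h1 => ?_⟩
      have := Int.le_of_dvd (by norm_num) ((dvd_neg.2 h1 : (q : ℤ) ∣ -(-1)))
      omega
  have hprod : ∀ q ∈ P, nD P = q * ∏ p ∈ P.erase q, p := by
    intro q hq
    unfold nD
    exact (Finset.mul_prod_erase P (fun p => p) hq).symm
  have hndvd : ∀ q ∈ P, ¬ (q : ℤ) ∣ c * ((∏ p ∈ P.erase q, p : ℕ) : ℤ) := by
    intro q hq h1
    rcases (Nat.prime_iff_prime_int.1 (hprime q hq)).dvd_or_dvd h1 with h2 | h2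
    · exact (hcs q hq).2 h2
    · have h3 : q ∣ ∏ p ∈ P.erase q, p := by exact_mod_cast h2
      have := prod_ne (hprime q hq) (J := P.erase q)
        (fun x hx => hprime x (Finset.mem_of_mem_erase hx)) (Finset.notMem_erase q P)
      rw [Ne, ZMod.natCast_eq_zero_iff] at this
      exact this h3
  refine (Kt_iff hP).1 hK T hT (fun q hq => ?_) (fun q hq => ?_)
  · obtain ⟨hqP, hqT⟩ := Finset.mem_sdiff.1 hq
    haveI := Fact.mk (hprime q hqP)
    have h1 := h q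
    have hT0 : ((∏ p ∈ T, p : ℕ) : ZMod q) ≠ 0 :=
      prod_ne (hprime q hqP) (fun x hx => hprime x (hT hx)) hqT
    have e1 : c * (nD P : ℤ) = (q : ℤ) * (c * ((∏ p ∈ P.erase q, p : ℕ) : ℤ)) := by
      rw [hprod q hqP]
      push_cast
      ring
    rw [e1] at h1
    have h2 := sq_out hz h1 (hndvd q hqP) (by
      intro h3
      rcases (Nat.prime_iff_prime_int.1 (hprime q hqP)).dvd_or_dvd h3 with h4 | h4
      · exact (hes q hqP).2 h4
      · apply hT0
        rw [ZMod.natCast_eq_zero_iff]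
        exact_mod_cast h4)
    rw [Int.cast_mul, Int.cast_natCast, sq_mul_iff (by
      rw [Ne, ZMod.intCast_zmod_eq_zero_iff_dvd]; exact (hes q hqP).2) hT0] at h2
    exact h2.1 (hes q hqP).1
  · have hqP := hT hq
    haveI := Fact.mk (hprime q hqP)
    have h1 := h q
    have e1 : c * (nD P : ℤ) = (q : ℤ) * (c * ((∏ p ∈ P.erase q, p : ℕ) : ℤ)) := by
      rw [hprod q hqP]
      push_cast
      ring
    have e2 : ε * ((∏ p ∈ T, p : ℕ) : ℤ) = (q : ℤ) * (ε * ((∏ p ∈ T.erase q, p : ℕ) : ℤ)) := by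
      rw [← Finset.mul_prod_erase T (fun p => p) hq]
      push_cast
      ring
    rw [e2] at h1 hz
    rw [e1] at h1
    have h2 := sq_in hz h1 (hndvd q hqP)
    have e3 : P.erase q = T.erase q ∪ (P \ T) := by
      ext x
      simp only [Finset.mem_erase, Finset.mem_union, Finset.mem_sdiff]
      constructor
      · rintro ⟨h3, h4⟩
        by_cases h5 : x ∈ T
        · exact Or.inl ⟨h3, h5⟩
        · exact Or.inr ⟨h4, h5⟩
      · rintro (⟨h3, h4⟩ | ⟨h3, h4⟩)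
        · exact ⟨h3, hT h4⟩
        · refine ⟨?_, h3⟩
          rintro rfl
          exact h4 hq
    have e4 : ((∏ p ∈ P.erase q, p : ℕ) : ℤ) =
        ((∏ p ∈ T.erase q, p : ℕ) : ℤ) * ((∏ p ∈ P \ T, p : ℕ) : ℤ) := by
      rw [e3, Finset.prod_union]
      · push_cast; rfl
      · rw [Finset.disjoint_left]
        intro x h4 h5
        exact (Finset.mem_sdiff.1 h5).2 (Finset.mem_of_mem_erase h4)
    have hTe0 : ((∏ p ∈ T.erase q, p : ℕ) : ZMod q) ≠ 0 :=
      prod_ne (hprime q hqP) (fun x hx => hprime x (hT (Finset.mem_of_mem_erase hx)))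
        (Finset.notMem_erase q T)
    have hPT0 : ((∏ p ∈ P \ T, p : ℕ) : ZMod q) ≠ 0 :=
      prod_ne (hprime q hqP) (fun x hx => hprime x (Finset.mem_sdiff.1 hx).1)
        (fun h => (Finset.mem_sdiff.1 h).2 hq)
    have hc0 : (c : ZMod q) ≠ 0 := by
      rw [Ne, ZMod.intCast_zmod_eq_zero_iff_dvd]; exact (hcs q hqP).2
    have he0 : (ε : ZMod q) ≠ 0 := by
      rw [Ne, ZMod.intCast_zmod_eq_zero_iff_dvd]; exact (hes q hqP).2
    have e5 : ((ε * ((∏ p ∈ T.erase q, p : ℕ) : ℤ) * (c * ((∏ p ∈ P.erase q, p : ℕ) : ℤ)) : ℤ) :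
        ZMod q) = (ε : ZMod q) * ((c : ZMod q) * (((∏ p ∈ P \ T, p : ℕ) : ZMod q) *
          (((∏ p ∈ T.erase q, p : ℕ) : ZMod q) * ((∏ p ∈ T.erase q, p : ℕ) : ZMod q)))) := by
      rw [e4]
      push_cast
      ring
    rw [e5, sq_mul_iff he0 (mul_ne_zero hc0 (mul_ne_zero hPT0 (mul_ne_zero hTe0 hTe0))),
      sq_mul_iff hc0 (mul_ne_zero hPT0 (mul_ne_zero hTe0 hTe0)),
      sq_mul_iff hPT0 (mul_ne_zero hTe0 hTe0)] at h2
    exact ((h2.1 (hes q hqP).1).1 (hcs q hqP).1).2 ⟨_, rfl⟩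

lemma four_cases : ∀ x : ZMod (2 ^ 4), x ^ 4 = 0 ∨ x ^ 4 = 1 := by decide

lemma four_odd : ∀ x : ZMod (2 ^ 4), (1 + 2 * x) ^ 4 = 1 := by decide

lemma odd_form {m : ℤ_[2]} (h : ¬ ((2 : ℕ) : ℤ_[2]) ∣ m) : ∃ m' : ℤ_[2], m = 1 + 2 * m' := by
  have h1 : PadicInt.toZMod (p := 2) m ≠ 0 := fun h' => h (dvd_zmod.1 h')
  have h2 : ∀ t : ZMod 2, t ≠ 0 → t - 1 = 0 := by decide
  have h3 : PadicInt.toZMod (p := 2) (m - 1) = 0 := by
    rw [map_sub, map_one]
    exact h2 _ h1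
  obtain ⟨m', hm'⟩ := dvd_zmod.1 h3
  refine ⟨m', ?_⟩
  push_cast at hm'
  linear_combination hm'

/-- the condition at two, first group -/
theorem two_z1 {z D : ℤ} (hD : D % 16 = 13) (hz : Squarefree z) (hz2 : ¬ (2 : ℤ) ∣ z)
    (h : PC 0 (-D) 2 z) : z % 8 = 1 ∨ z % 8 = 3 := by
  obtain ⟨m, n, w, hmn, he⟩ := model hz h
  set φ : ℤ_[2] →+* ZMod (2 ^ 4) := PadicInt.toZModPow 4 with hφ
  have h1 := congrArg φ he
  simp only [map_mul, map_pow, map_add, map_intCast] at h1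
  have hDz : ((-D : ℤ) : ZMod (2 ^ 4)) = 3 := by
    have : ((-D : ℤ) : ZMod (2 ^ 4)) = ((3 : ℤ) : ZMod (2 ^ 4)) := by
      rw [ZMod.intCast_eq_intCast_iff]
      show (-D) % (2 ^ 4 : ℕ) = 3 % (2 ^ 4 : ℕ)
      norm_num
      omega
    rw [this]
    rfl
  rw [hDz] at h1
  have key : ∀ z' w : ZMod (2 ^ 4), ∀ u v : ZMod (2 ^ 4), (u = 0 ∨ u = 1) → (v = 0 ∨ v = 1) →
      (u = 1 ∨ v = 1) → (1 + 2 * z') * w ^ 2 = (1 + 2 * z') ^ 2 * u + 3 * v →
      (1 + 2 * z' = 1 ∨ 1 + 2 * z' = 9 ∨ 1 + 2 * z' = 3 ∨ 1 + 2 * z' = 11) := by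
    have k0 : ∀ z' w : ZMod (2 ^ 4), ∀ u v : Bool, (u = true ∨ v = true) →
        (1 + 2 * z') * w ^ 2 = (1 + 2 * z') ^ 2 * (if u then 1 else 0) + 3 * (if v then 1 else 0) →
        (1 + 2 * z' = 1 ∨ 1 + 2 * z' = 9 ∨ 1 + 2 * z' = 3 ∨ 1 + 2 * z' = 11) := by decide
    intro z' w u v hu hv huv h2
    have h01 : (0 : ZMod (2 ^ 4)) ≠ 1 := by decide
    rcases hu with rfl | rfl <;> rcases hv with rfl | rfl
    · exact absurd huv (by simp [h01])
    · exact k0 z' w false true (by simp) (by simpa using h2)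
    · exact k0 z' w true false (by simp) (by simpa using h2)
    · exact k0 z' w true true (by simp) (by simpa using h2)
  have huv : φ m ^ 4 = 1 ∨ φ n ^ 4 = 1 := by
    by_cases h2 : ((2 : ℕ) : ℤ_[2]) ∣ m
    · right
      obtain ⟨n', hn'⟩ := odd_form fun h3 => hmn ⟨h2, h3⟩
      rw [hn', map_add, map_mul, map_one, map_ofNat]
      exact four_odd _
    · left
      obtain ⟨m', hm'⟩ := odd_form h2
      rw [hm', map_add, map_mul, map_one, map_ofNat]
      exact four_odd _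
  have ez : (z : ZMod (2 ^ 4)) = 1 + 2 * ((z / 2 : ℤ) : ZMod (2 ^ 4)) := by
    have : z = 1 + 2 * (z / 2) := by omega
    conv_lhs => rw [this]
    push_cast
    ring
  rw [ez] at h1
  have h3 := key _ _ _ _ (four_cases _) (four_cases _) huv h1
  rw [← ez] at h3
  have h4 : ∀ k : ℤ, (z : ZMod (2 ^ 4)) = (k : ZMod (2 ^ 4)) → z % 16 = k % 16 := by
    intro k hk
    rw [ZMod.intCast_eq_intCast_iff] at hk
    have : z % (2 ^ 4 : ℕ) = k % (2 ^ 4 : ℕ) := hk
    norm_num at this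
    exact this
  rcases h3 with h3 | h3 | h3 | h3
  · have := h4 1 (by rw [h3]; norm_num)
    omega
  · have := h4 9 (by rw [h3]; norm_num)
    omega
  · have := h4 3 (by rw [h3]; norm_num)
    omega
  · have := h4 11 (by rw [h3]; norm_num)
    omega

/-- the condition at two, second group: the even numbers -/
theorem two_z2 {u D : ℤ} (hD : D % 16 = 13) (hz : Squarefree (2 * u)) (hu : u % 4 = 1)
    (h : PC 0 (4 * D) 2 (2 * u)) : False := by
  obtain ⟨m, n, w, hmn, he⟩ := model hz h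
  have hP := PadicInt.prime_p (p := 2)
  push_cast at he
  have hP' : Prime (2 : ℤ_[2]) := by simpa using hP
  have hu2 : ¬ (2 : ℤ_[2]) ∣ (u : ℤ_[2]) := by
    intro h1
    have : ((2 : ℕ) : ℤ) ∣ u := dvd_int.1 (by simpa using h1)
    have h2 : (2 : ℤ) ∣ u := this
    omega
  have h20 : (2 : ℤ_[2]) ≠ 0 := hP'.ne_zero
  have hw : (2 : ℤ_[2]) ∣ w := by
    have h1 : (2 : ℤ_[2]) ∣ u * w ^ 2 := ⟨u ^ 2 * m ^ 4 + D * n ^ 4, by
      apply mul_left_cancel₀ h20
      linear_combination he⟩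
    exact hP'.dvd_of_dvd_pow ((hP'.dvd_or_dvd h1).resolve_left hu2)
  obtain ⟨w', rfl⟩ := hw
  have he2 : 2 * (u : ℤ_[2]) * w' ^ 2 = u ^ 2 * m ^ 4 + D * n ^ 4 := by
    apply mul_left_cancel₀ (mul_ne_zero h20 h20)
    linear_combination he
  set φ : ℤ_[2] →+* ZMod (2 ^ 4) := PadicInt.toZModPow 4 with hφ
  have h1 := congrArg φ he2
  simp only [map_mul, map_pow, map_add, map_intCast, map_ofNat] at h1
  have hDz : ((D : ℤ) : ZMod (2 ^ 4)) = 13 := by
    have : ((D : ℤ) : ZMod (2 ^ 4)) = ((13 : ℤ) : ZMod (2 ^ 4)) := by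
      rw [ZMod.intCast_eq_intCast_iff]
      show D % (2 ^ 4 : ℕ) = 13 % (2 ^ 4 : ℕ)
      norm_num
      omega
    rw [this]
    norm_num
  rw [hDz] at h1
  have huv : φ m ^ 4 = 1 ∨ φ n ^ 4 = 1 := by
    by_cases h2 : ((2 : ℕ) : ℤ_[2]) ∣ m
    · right
      obtain ⟨n', hn'⟩ := odd_form fun h3 => hmn ⟨h2, h3⟩
      rw [hn', map_add, map_mul, map_one, map_ofNat]
      exact four_odd _
    · left
      obtain ⟨m', hm'⟩ := odd_form h2
      rw [hm', map_add, map_mul, map_one, map_ofNat]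
      exact four_odd _
  have k0 : ∀ z' w : ZMod (2 ^ 4), ∀ u v : Bool, (u = true ∨ v = true) →
      2 * (1 + 4 * z') * w ^ 2 = (1 + 4 * z') ^ 2 * (if u then 1 else 0) +
        13 * (if v then 1 else 0) → False := by decide
  have ez : (u : ZMod (2 ^ 4)) = 1 + 4 * ((u / 4 : ℤ) : ZMod (2 ^ 4)) := by
    have : u = 1 + 4 * (u / 4) := by omega
    conv_lhs => rw [this]
    push_cast
    ring
  rw [ez] at h1
  have h01 : (0 : ZMod (2 ^ 4)) ≠ 1 := by decide
  rcases four_cases (φ m) with h5 | h5 <;> rcases four_cases (φ n) with h6 | h6 <;>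
    rw [h5, h6] at h1 huv
  · exact absurd huv (by simp [h01])
  · exact k0 _ _ false true (by simp) (by simpa using h1)
  · exact k0 _ _ true false (by simp) (by simpa using h1)
  · exact k0 _ _ true true (by simp) (by simpa using h1)

lemma nD_mod4 (hP : Cls P) : ∀ T : Finset ℕ, T ⊆ P → (∏ p ∈ T, p) % 4 = 1 := by
  classical
  intro T
  induction T using Finset.induction_on with
  | empty => intro _; simp
  | insert a T ha ih =>
    intro hT
    have h1 := ih fun x hx => hT (Finset.mem_insert_of_mem hx)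
    have h2 := (hP a (hT (Finset.mem_insert_self _ _))).2
    rw [Finset.prod_insert ha, Nat.mul_mod, h1, h2]

/-- the first Selmer group -/
theorem sel1 (hP : Cls P) (hD : nD P % 16 = 13) (hK : Kt P) {z : ℤ} (hz : Squarefree z)
    (h : ∀ (p : ℕ) [Fact p.Prime], PC 0 (-(nD P : ℤ)) p z) : z = 1 ∨ z = -(nD P : ℤ) := by
  have hDo : ¬ (2 : ℤ) ∣ (nD P : ℤ) := by omega
  obtain ⟨T, hT, hzT⟩ := T_of hz (P := P) (fun p hp hpz => by
    haveI := Fact.mk hp
    have h1 := dvd_b hz (h p) hpz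
    have h2 : p ∣ nD P := by
      have : (p : ℤ) ∣ (nD P : ℤ) := (dvd_neg.1 h1)
      exact_mod_cast this
    unfold nD at h2
    obtain ⟨q, hq, h3⟩ := (hp.prime.dvd_finsetProd_iff _).1 h2
    rwa [(Nat.prime_dvd_prime_iff_eq hp (hP q hq).1).1 h3])
  haveI : Fact (Nat.Prime 2) := ⟨Nat.prime_two⟩
  have h2 := h 2
  have h4T := nD_mod4 hP T hT
  obtain ⟨ε, hε, rfl⟩ : ∃ ε : ℤ, (ε = 1 ∨ ε = -1) ∧ z = ε * ((∏ p ∈ T, p : ℕ) : ℤ) := by
    rcases hzT with h | h
    · exact ⟨1, Or.inl rfl, by rw [h, one_mul]⟩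
    · exact ⟨-1, Or.inr rfl, by rw [h]; ring⟩
  have hz8 := two_z1 (D := (nD P : ℤ)) (by omega) hz (by
    rcases hε with rfl | rfl
    · omega
    · omega) h2
  have h3 : T = ∅ ∨ T = P := by
    refine T_cases hP hK hT hε (Or.inl rfl) hz fun p _ => ?_
    have := h p
    rwa [neg_one_mul]
  rcases h3 with rfl | rfl
  · rw [Finset.prod_empty] at hz8 ⊢
    rcases hε with rfl | rfl
    · left; norm_num
    · exfalso
      norm_num at hz8
  · have hnD : ∏ p ∈ T, p = nD T := rfl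
    rw [hnD] at hz8 ⊢
    rcases hε with rfl | rfl
    · exfalso
      omega
    · right; ring

/-- the second Selmer group -/
theorem sel2 (hP : Cls P) (hD : nD P % 16 = 13) (hK : Kt P) {z : ℤ} (hz : Squarefree z)
    (h0 : 0 < z) (h : ∀ (p : ℕ) [Fact p.Prime], PC 0 (4 * (nD P : ℤ)) p z) :
    z = 1 ∨ z = (nD P : ℤ) := by
  haveI : Fact (Nat.Prime 2) := ⟨Nat.prime_two⟩
  have hmem : ∀ p : ℕ, p.Prime → (p : ℤ) ∣ z → p ≠ 2 → p ∈ P := by
    intro p hp hpz hp2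
    haveI := Fact.mk hp
    have h1 := dvd_b hz (h p) hpz
    have h2 : p ∣ 2 ^ 2 * nD P := by
      have : (p : ℤ) ∣ ((2 ^ 2 * nD P : ℕ) : ℤ) := by push_cast; exact h1
      exact_mod_cast this
    rcases (Nat.Prime.dvd_mul hp).1 h2 with h3 | h3
    · exact absurd ((Nat.prime_dvd_prime_iff_eq hp Nat.prime_two).1 (hp.dvd_of_dvd_pow h3)) hp2
    · unfold nD at h3
      obtain ⟨q, hq, h3⟩ := (hp.prime.dvd_finsetProd_iff _).1 h3
      rwa [(Nat.prime_dvd_prime_iff_eq hp (hP q hq).1).1 h3]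
  by_cases h2z : (2 : ℤ) ∣ z
  · exfalso
    obtain ⟨u, rfl⟩ := h2z
    have hu : Squarefree u := hz.squarefree_of_dvd (dvd_mul_left _ _)
    have hu2 : ¬ (2 : ℤ) ∣ u := by
      rintro ⟨c, rfl⟩
      have := hz 2 ⟨c, by ring⟩
      exact absurd (Int.isUnit_iff.1 this) (by norm_num)
    obtain ⟨T, hT, hzT⟩ := T_of hu (P := P) (fun p hp hpu => by
      refine hmem p hp (hpu.mul_left 2) ?_
      rintro rfl
      exact hu2 hpu)
    have h4T := nD_mod4 hP T hT
    refine two_z2 (D := (nD P : ℤ)) (by omega) hz ?_ (h 2)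
    rcases hzT with h5 | h5
    · rw [h5]; omega
    · have : 0 < ((∏ p ∈ T, p : ℕ) : ℤ) := by omega
      omega
  · obtain ⟨T, hT, hzT⟩ := T_of hz (P := P) (fun p hp hpz => by
      refine hmem p hp hpz ?_
      rintro rfl
      exact h2z hpz)
    have h4T := nD_mod4 hP T hT
    have hzT' : z = 1 * ((∏ p ∈ T, p : ℕ) : ℤ) := by
      rw [one_mul]
      rcases hzT with h5 | h5
      · exact h5
      · have : 0 < ((∏ p ∈ T, p : ℕ) : ℤ) := by omega
        omega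
    subst hzT'
    rcases T_cases hP hK hT (Or.inl rfl) (Or.inr rfl) hz h with rfl | rfl
    · left; simp
    · right
      rw [one_mul]
      rfl

end Pool.Agent.E8helper21.QT
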